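import Mathlib

/-!
Co-sober spaces: definitions.
-/

namespace Pool.Agent.Lib_helper74.CoSoberDefs

/-- `↑x` for the specialization order `x ≤ y ↔ x ∈ closure {y}`. -/
def upSet {X : Type*} [TopologicalSpace X] (x : X) : Set X := {y | x ∈ closure ({y} : Set X)}

/-- A saturated set: an intersection of open sets. -/
def IsSaturated {X : Type*} [TopologicalSpace X] (A : Set X) : Prop :=
  ∃ 𝒰 : Set (Set X), (∀ U ∈ 𝒰, IsOpen U) ∧ A = ⋂₀ 𝒰

/-- Nonempty compact saturated sets. -/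
def IsK {X : Type*} [TopologicalSpace X] (A : Set X) : Prop :=
  A.Nonempty ∧ IsCompact A ∧ IsSaturated A

/-- k-irreducible sets. -/
def KIrreducible {X : Type*} [TopologicalSpace X] (G : Set X) : Prop :=
  IsK G ∧ ∀ K₁ K₂ : Set X, IsK K₁ → IsK K₂ → G = K₁ ∪ K₂ → G = K₁ ∨ G = K₂

/-- Co-sober spaces. -/
def CoSober (X : Type*) [TopologicalSpace X] : Prop :=
  T0Space X ∧ ∀ G : Set X, KIrreducible G → ∃ k : X, G = upSet k

end Pool.Agent.Lib_helper74.CoSoberDefs
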