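import Mathlib

/-!
The combinatorial part: a maximal almost disjoint family on a countable set with a partition
into countably many parts, each of which meets every positive set.
-/

namespace Pool.Agent.Lib_helper74.CoSoberMad

open Set

/-- Almost disjoint families. -/
structure AD (𝒜 : Set (Set ℕ)) : Prop where
  inf : ∀ A ∈ 𝒜, A.Infinite
  ad : ∀ A ∈ 𝒜, ∀ B ∈ 𝒜, A ≠ B → (A ∩ B).Finite

/-- Columns. -/
def col (k : ℕ) : Set ℕ := {n | (Nat.unpair n).1 = k}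

lemma col_infinite (k : ℕ) : (col k).Infinite := by
  refine infinite_of_injective_forall_mem (f := fun m : ℕ => Nat.pair k m) ?_ ?_
  · intro m m' h
    have := congrArg Nat.unpair h
    simpa using this
  · intro m
    simp [col]

lemma col_disj {k l : ℕ} (h : k ≠ l) : col k ∩ col l = ∅ := by
  ext n
  simp only [col, mem_inter_iff, mem_ofPred_eq, mem_empty_iff_false, iff_false, not_and]
  rintro rfl h'
  exact h h'

lemma col_injective : Function.Injective col := by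
  intro k l h
  by_contra hne
  have h1 := col_disj hne
  rw [h, inter_self] at h1
  exact (col_infinite l).nonempty.ne_empty h1

/-- Maximal almost disjoint families containing the columns. -/
structure MAD (𝒜 : Set (Set ℕ)) : Prop extends AD 𝒜 where
  mx : ∀ S : Set ℕ, S.Infinite → ∃ A ∈ 𝒜, (A ∩ S).Infinite
  cols : ∀ k, col k ∈ 𝒜

lemma exists_MAD : ∃ 𝒜 : Set (Set ℕ), MAD 𝒜 := by
  have hcols : AD (range col) := by
    constructor
    · rintro _ ⟨k, rfl⟩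
      exact col_infinite k
    · rintro _ ⟨k, rfl⟩ _ ⟨l, rfl⟩ h
      rw [col_disj (fun h' => h (by rw [h']))]
      exact finite_empty
  obtain ⟨𝒜, h𝒜, hmax⟩ := zorn_subset_nonempty {𝒜 : Set (Set ℕ) | AD 𝒜} (by
    intro c hc hchain _
    refine ⟨⋃₀ c, ?_, fun s hs => subset_sUnion_of_mem hs⟩
    constructor
    · rintro A ⟨s, hs, hA⟩
      exact (hc hs).inf A hA
    · rintro A ⟨s, hs, hA⟩ B ⟨t, ht, hB⟩ hAB
      rcases hchain.total hs ht with h | h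
      · exact (hc ht).ad A (h hA) B hB hAB
      · exact (hc hs).ad A hA B (h hB) hAB) (range col) hcols
  have hAD : AD 𝒜 := hmax.prop
  refine ⟨𝒜, hAD, ?_, fun k => h𝒜 ⟨k, rfl⟩⟩
  intro S hS
  by_contra hcon
  push Not at hcon
  have hnew : AD (insert S 𝒜) := by
    constructor
    · rintro A (rfl | hA)
      · exact hS
      · exact hAD.inf A hA
    · rintro A (rfl | hA) B (rfl | hB) hAB
      · exact absurd rfl hAB
      · rw [inter_comm]
        exact hcon B hB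
      · exact hcon A hA
      · exact hAD.ad A hA B hB hAB
  have hSA : S ∈ 𝒜 := hmax.le_of_ge hnew (subset_insert _ _) (mem_insert _ _)
  have := hcon S hSA
  rw [inter_self] at this
  exact hS this

/-- Positive sets. -/
def Pos (𝒜 : Set (Set ℕ)) (S : Set ℕ) : Prop :=
  ∀ f : Set (Set ℕ), f ⊆ 𝒜 → f.Finite → (S \ ⋃₀ f).Infinite

variable {𝒜 : Set (Set ℕ)}

lemma Pos.mono {S T : Set ℕ} (hS : Pos 𝒜 S) (h : S ⊆ T) : Pos 𝒜 T := fun f hf hf' =>
  (hS f hf hf').mono (sdiff_subset_sdiff_left h)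

lemma Pos.sdiff {S : Set ℕ} (hS : Pos 𝒜 S) {A : Set ℕ} (hA : A ∈ 𝒜) : Pos 𝒜 (S \ A) := by
  intro f hf hf'
  refine (hS (insert A f) (insert_subset hA hf) (hf'.insert A)).mono ?_
  rintro x ⟨hx, hx2⟩
  rw [sUnion_insert] at hx2
  exact ⟨⟨hx, fun h => hx2 (Or.inl h)⟩, fun h => hx2 (Or.inr h)⟩

lemma Pos.inter {S T : Set ℕ} (hS : Pos 𝒜 S) (h : (S \ T).Finite) : Pos 𝒜 (S ∩ T) := by
  intro f hf hf'
  refine ((hS f hf hf').sdiff h).mono ?_
  rintro x ⟨⟨hx, hx2⟩, hx3⟩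
  refine ⟨⟨hx, ?_⟩, hx2⟩
  by_contra hxT
  exact hx3 ⟨hx, hxT⟩

lemma Pos.infinite {S : Set ℕ} (hS : Pos 𝒜 S) : S.Infinite := by
  have := hS ∅ (empty_subset _) finite_empty
  simpa using this

lemma pos_univ (h : MAD 𝒜) : Pos 𝒜 univ := by
  intro f hf hf'
  have : ∃ k, col k ∉ f := by
    by_contra hcon
    push Not at hcon
    have : (range col).Finite := hf'.subset (by rintro _ ⟨k, rfl⟩; exact hcon k)
    exact infinite_range_of_injective col_injective this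
  obtain ⟨k, hk⟩ := this
  have h1 : (⋃ A ∈ f, (col k ∩ A)).Finite := hf'.biUnion fun A hA =>
    h.ad _ (h.cols k) A (hf hA) (fun hkA => hk (hkA ▸ hA))
  refine ((col_infinite k).sdiff h1).mono ?_
  rintro x ⟨hx, hx2⟩
  refine ⟨trivial, ?_⟩
  rintro ⟨A, hA, hxA⟩
  apply hx2
  simp only [mem_iUnion]
  exact ⟨A, hA, hx, hxA⟩

lemma exists_seq (Z : ℕ → Set ℕ) (h : ∀ n, (Z n).Infinite) :
    ∃ y : ℕ → ℕ, StrictMono y ∧ ∀ n, y n ∈ Z n := by
  refine Filter.extraction_forall_of_frequently (P := fun n k => k ∈ Z n) fun n => ?_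
  exact Nat.frequently_atTop_iff_infinite.2 (h n)

/-- Positive pseudo-intersections (Mathias). -/
lemma pseudo (h : MAD 𝒜) (X : ℕ → Set ℕ) (hX : Antitone X) (hpos : ∀ n, Pos 𝒜 (X n)) :
    ∃ Y, Pos 𝒜 Y ∧ ∀ n, (Y \ X n).Finite := by
  -- infinitely many members meet all sets of the sequence
  have step : ∀ f : Set (Set ℕ), f ⊆ 𝒜 → f.Finite →
      ∃ A ∈ 𝒜, A ∉ f ∧ ∀ n, (A ∩ X n).Infinite := by
    intro f hf hf'
    obtain ⟨y, hy, hyX⟩ := exists_seq (fun n => X n \ ⋃₀ f) (fun n => hpos n f hf hf')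
    obtain ⟨A, hA, hAy⟩ := h.mx (range y) (infinite_range_of_injective hy.injective)
    refine ⟨A, hA, ?_, ?_⟩
    · intro hAf
      obtain ⟨x, hxA, n, rfl⟩ := hAy.nonempty
      exact (hyX n).2 ⟨A, hAf, hxA⟩
    · intro n
      have hfin : (y '' {m | m < n}).Finite := (finite_lt_nat n).image y
      refine (hAy.sdiff hfin).mono ?_
      rintro x ⟨⟨hxA, m, rfl⟩, hx2⟩
      refine ⟨hxA, ?_⟩
      have hm : n ≤ m := by
        by_contra hm
        exact hx2 ⟨m, by simpa using hm, rfl⟩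
      exact hX hm (hyX m).1
  set D : Set (Set ℕ) := {A | A ∈ 𝒜 ∧ ∀ n, (A ∩ X n).Infinite} with hD
  have hDinf : D.Infinite := by
    intro hfin
    obtain ⟨A, hA, hAD, hAX⟩ := step D (fun A hA => hA.1) hfin
    exact hAD ⟨hA, hAX⟩
  let a : ℕ ↪ D := hDinf.natEmbedding
  obtain ⟨y, hy, hyX⟩ := exists_seq (fun j => (a (Nat.unpair j).1 : Set ℕ) ∩ X j)
    (fun j => (a (Nat.unpair j).1).2.2 j)
  have hmeet : ∀ k, ((a k : Set ℕ) ∩ range y).Infinite := by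
    intro k
    refine infinite_of_injective_forall_mem (f := fun m : ℕ => y (Nat.pair k m)) ?_ ?_
    · intro m m' hm
      have := congrArg Nat.unpair (hy.injective hm)
      simpa using this
    · intro m
      have := (hyX (Nat.pair k m)).1
      rw [Nat.unpair_pair] at this
      exact ⟨this, _, rfl⟩
  refine ⟨range y, ?_, ?_⟩
  · intro f hf hf'
    have : ∃ k, (a k : Set ℕ) ∉ f := by
      by_contra hcon
      push Not at hcon
      have h1 : (range fun k => (a k : Set ℕ)).Finite :=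
        hf'.subset (by rintro _ ⟨k, rfl⟩; exact hcon k)
      exact infinite_range_of_injective
        (Subtype.val_injective.comp a.injective) h1
    obtain ⟨k, hk⟩ := this
    have h1 : (⋃ A ∈ f, ((a k : Set ℕ) ∩ A)).Finite := hf'.biUnion fun A hA =>
      h.ad _ (a k).2.1 A (hf hA) (fun hkA => hk (hkA ▸ hA))
    refine ((hmeet k).sdiff h1).mono ?_
    rintro x ⟨⟨hx, hx1⟩, hx2⟩
    refine ⟨hx1, ?_⟩
    rintro ⟨A, hA, hxA⟩
    apply hx2
    simp only [mem_iUnion]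
    exact ⟨A, hA, hx, hxA⟩
  · intro n
    refine ((finite_lt_nat n).image y).subset ?_
    rintro x ⟨⟨m, rfl⟩, hx⟩
    refine ⟨m, ?_, rfl⟩
    by_contra hm
    have hm' : n ≤ m := by simpa using hm
    exact hx (hX hm' (hyX m).2)

/-- `EV 𝒜 ℬ X`: every positive subset of `X` meets a member of `ℬ` in an infinite set. -/
def EV (𝒜 ℬ : Set (Set ℕ)) (X : Set ℕ) : Prop :=
  ∀ Y, Pos 𝒜 Y → Y ⊆ X → ∃ A ∈ ℬ, (A ∩ Y).Infinite

lemma EV.mono {ℬ : Set (Set ℕ)} {X Y : Set ℕ} (h : EV 𝒜 ℬ X) (hYX : Y ⊆ X) : EV 𝒜 ℬ Y :=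
  fun Z hZ hZY => h Z hZ (hZY.trans hYX)

lemma EV.almost {ℬ : Set (Set ℕ)} {X Y : Set ℕ} (h : EV 𝒜 ℬ X) (hYX : (Y \ X).Finite) :
    EV 𝒜 ℬ Y := by
  intro Z hZ hZY
  have h1 : Pos 𝒜 (Z ∩ X) := hZ.inter (hYX.subset (sdiff_subset_sdiff_left hZY))
  obtain ⟨A, hA, hAZ⟩ := h _ h1 inter_subset_right
  exact ⟨A, hA, hAZ.mono (inter_subset_inter_right _ inter_subset_left)⟩

/-- Splitting. -/
lemma split (h : MAD 𝒜) (ℬ : Set (Set ℕ)) (hℬ : ℬ ⊆ 𝒜) (X : Set ℕ) (hX : Pos 𝒜 X)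
    (hEV : EV 𝒜 ℬ X) :
    ∃ X' ⊆ X, Pos 𝒜 X' ∧ ∃ n : ℕ, EV 𝒜 {A | A ∈ ℬ ∧ n ∈ A} X' ∧ EV 𝒜 {A | A ∈ ℬ ∧ n ∉ A} X' := by
  by_contra hcon
  push Not at hcon
  -- deciding one digit
  have dec : ∀ (n : ℕ) (Y : Set ℕ), Pos 𝒜 Y → Y ⊆ X → ∃ Z ⊆ Y, Pos 𝒜 Z ∧
      ((∀ A ∈ ℬ, n ∈ A → (A ∩ Z).Finite) ∨ (∀ A ∈ ℬ, n ∉ A → (A ∩ Z).Finite)) := by
    intro n Y hY hYX
    by_cases h1 : EV 𝒜 {A | A ∈ ℬ ∧ n ∈ A} Y
    · have h2 := hcon Y hYX hY n h1
      unfold EV at h2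
      push Not at h2
      obtain ⟨Z, hZ, hZY, hZ2⟩ := h2
      exact ⟨Z, hZY, hZ, Or.inr fun A hA hn => hZ2 A ⟨hA, hn⟩⟩
    · unfold EV at h1
      push Not at h1
      obtain ⟨Z, hZ, hZY, hZ2⟩ := h1
      exact ⟨Z, hZY, hZ, Or.inl fun A hA hn => hZ2 A ⟨hA, hn⟩⟩
  choose! g hg1 hg2 hg3 using dec
  let s : ℕ → Set ℕ := fun n => Nat.rec X (fun n Y => g n Y) n
  have hs0 : s 0 = X := rfl
  have hs1 : ∀ n, s (n + 1) = g n (s n) := fun n => rfl
  have hs : ∀ n, Pos 𝒜 (s n) ∧ s n ⊆ X := by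
    intro n
    induction n with
    | zero => exact ⟨hX, subset_rfl⟩
    | succ n ih =>
      rw [hs1]
      exact ⟨hg2 n _ ih.1 ih.2, (hg1 n _ ih.1 ih.2).trans ih.2⟩
  have hanti : Antitone s := antitone_nat_of_succ_le fun n => by
    rw [hs1]; exact hg1 n _ (hs n).1 (hs n).2
  obtain ⟨Y, hY, hYs⟩ := pseudo h s hanti (fun n => (hs n).1)
  -- all members of `ℬ` meeting `Y` agree
  have hagree : ∀ A ∈ ℬ, ∀ B ∈ ℬ, (A ∩ Y).Infinite → (B ∩ Y).Infinite → A = B := by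
    have key : ∀ n, ∀ A ∈ ℬ, (A ∩ Y).Infinite → (A ∩ s n).Infinite := by
      intro n A _ hAY
      refine (hAY.sdiff (hYs n)).mono ?_
      rintro x ⟨⟨hxA, hxY⟩, hx⟩
      refine ⟨hxA, ?_⟩
      by_contra hxs
      exact hx ⟨hxY, hxs⟩
    intro A hA B hB hAY hBY
    ext n
    have hA' := key (n + 1) A hA hAY
    have hB' := key (n + 1) B hB hBY
    rw [hs1] at hA' hB'
    rcases hg3 n (s n) (hs n).1 (hs n).2 with h1 | h1
    · constructor
      · intro hn; exact absurd (h1 A hA hn) hA'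
      · intro hn; exact absurd (h1 B hB hn) hB'
    · constructor
      · intro _
        by_contra hn
        exact hB' (h1 B hB hn)
      · intro _
        by_contra hn
        exact hA' (h1 A hA hn)
  have hYX : Pos 𝒜 (Y ∩ X) := hY.inter (hYs 0)
  obtain ⟨A, hA, hAY⟩ := hEV _ hYX inter_subset_right
  obtain ⟨B, hB, hBY⟩ := hEV _ (hYX.sdiff (hℬ hA)) (sdiff_subset.trans inter_subset_right)
  have hAB : A = B := by
    refine hagree A hA B hB (hAY.mono (inter_subset_inter_right _ inter_subset_left))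
      (hBY.mono (inter_subset_inter_right _ (sdiff_subset.trans inter_subset_left)))
  subst hAB
  obtain ⟨x, hx1, hx2⟩ := hBY.nonempty
  exact hx2.2 hx1

/-- The partition. -/
lemma exists_partition (h : MAD 𝒜) : ∃ (Y : Set ℕ) (ℬ : ℕ → Set (Set ℕ)), Pos 𝒜 Y ∧
    (∀ k, ℬ k ⊆ 𝒜) ∧ (∀ k l, k < l → Disjoint (ℬ k) (ℬ l)) ∧ ∀ k, EV 𝒜 (ℬ k) Y := by
  -- state: a positive set and a subfamily
  let St := {p : Set ℕ × Set (Set ℕ) // Pos 𝒜 p.1 ∧ p.2 ⊆ 𝒜 ∧ EV 𝒜 p.2 p.1}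
  have step : ∀ p : St, ∃ q : St, ∃ ℬ : Set (Set ℕ), q.1.1 ⊆ p.1.1 ∧ q.1.2 ⊆ p.1.2 ∧
      ℬ ⊆ p.1.2 ∧ Disjoint ℬ q.1.2 ∧ EV 𝒜 ℬ q.1.1 := by
    rintro ⟨⟨X, 𝒞⟩, hX, h𝒞, hEV⟩
    obtain ⟨X', hX', hpos, n, h1, h2⟩ := split h 𝒞 h𝒞 X hX hEV
    refine ⟨⟨⟨X', {A | A ∈ 𝒞 ∧ n ∉ A}⟩, hpos, fun A hA => h𝒞 hA.1, h2⟩,
      {A | A ∈ 𝒞 ∧ n ∈ A}, hX', fun A hA => hA.1, fun A hA => hA.1, ?_, h1⟩
    rw [Set.disjoint_left]
    rintro A ⟨-, hA⟩ ⟨-, hA'⟩
    exact hA' hA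
  choose nx B h1 h2 h3 h4 h5 using step
  have hstart : EV 𝒜 𝒜 univ := fun Y hY _ => h.mx Y hY.infinite
  let p0 : St := ⟨⟨univ, 𝒜⟩, pos_univ h, subset_rfl, hstart⟩
  let p : ℕ → St := fun n => Nat.rec p0 (fun _ q => nx q) n
  have hp : ∀ n, p (n + 1) = nx (p n) := fun n => rfl
  have hanti1 : Antitone fun n => (p n).1.1 := antitone_nat_of_succ_le fun n => by
    show (p (n + 1)).1.1 ⊆ (p n).1.1
    rw [hp]; exact h1 _
  have hanti2 : Antitone fun n => (p n).1.2 := antitone_nat_of_succ_le fun n => by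
    show (p (n + 1)).1.2 ⊆ (p n).1.2
    rw [hp]; exact h2 _
  obtain ⟨Y, hY, hYp⟩ := pseudo h (fun n => (p n).1.1) hanti1 (fun n => (p n).2.1)
  refine ⟨Y, fun k => B (p k), hY, fun k => (h3 _).trans (p k).2.2.1, ?_, ?_⟩
  · intro k l hkl
    refine Disjoint.mono_right ?_ (h4 (p k))
    refine (h3 (p l)).trans ?_
    exact hanti2 (Nat.succ_le_of_lt hkl)
  · intro k
    exact (h5 (p k)).almost (hYp (k + 1))

end Pool.Agent.Lib_helper74.CoSoberMad
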