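import Pool.Agent.Lib_helper74.CoSoberDefs

/-!
The topological part of the counterexample.
-/

namespace Pool.Agent.Lib_helper74.CoSoberTop

open Pool.Agent.Lib_helper74.CoSoberDefs Set Topology

/-- A system of sequences with limits. -/
structure Sys (K ι : Type) where
  A : ι → Set K
  lim : ι → K
  ad : ∀ i j, i ≠ j → (A i ∩ A j).Finite
  pos_univ : ∀ f : Finset ι, ((univ : Set K) \ ⋃ i ∈ f, A i).Infinite
  dense : ∀ S : Set K, (∀ f : Finset ι, (S \ ⋃ i ∈ f, A i).Infinite) →
    ∀ x, ∃ i, lim i = x ∧ (A i ∩ S).Infinite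

variable {K ι : Type} (s : Sys K ι)

/-- The topology of the system. -/
@[reducible] def Sys.top : TopologicalSpace K where
  IsOpen U := ∀ i, s.lim i ∈ U → (s.A i \ U).Finite
  isOpen_univ := fun i _ => by simp
  isOpen_inter := fun U V hU hV i hi => by
    rw [sdiff_inter]
    exact (hU i hi.1).union (hV i hi.2)
  isOpen_sUnion := fun 𝒰 h i hi => by
    obtain ⟨U, hU, hiU⟩ := hi
    exact (h U hU i hiU).subset (sdiff_subset_sdiff_right (subset_sUnion_of_mem hU))

lemma Sys.isOpen_iff (U : Set K) :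
    IsOpen[s.top] U ↔ ∀ i, s.lim i ∈ U → (s.A i \ U).Finite := Iff.rfl

lemma Sys.isClosed_iff (F : Set K) :
    IsClosed[s.top] F ↔ ∀ i, (s.A i ∩ F).Infinite → s.lim i ∈ F := by
  rw [← @isOpen_compl_iff _ _ s.top, s.isOpen_iff]
  refine forall_congr' fun i => ?_
  rw [mem_compl_iff, sdiff_compl, ← Set.not_infinite]
  tauto

lemma Sys.closed_of_finite (F : Set K) (hF : F.Finite) : IsClosed[s.top] F := by
  rw [s.isClosed_iff]
  intro i hi
  exact absurd (hF.subset inter_subset_right) hi

lemma Sys.open_of_cofinite (U : Set K) (hU : Uᶜ.Finite) : IsOpen[s.top] U := by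
  rw [← compl_compl U]
  exact (@isOpen_compl_iff _ _ s.top).2 (s.closed_of_finite _ hU)

/-- Small sets. -/
def Sys.Small (S : Set K) : Prop := ∃ f : Finset ι, (S \ ⋃ i ∈ f, s.A i).Finite

lemma Sys.small_of_closed (F : Set K) (hF : IsClosed[s.top] F) (hne : F ≠ univ) : s.Small F := by
  by_contra h
  apply hne
  have h' : ∀ f : Finset ι, (F \ ⋃ i ∈ f, s.A i).Infinite := fun f hf => h ⟨f, hf⟩
  ext x
  simp only [mem_univ, iff_true]
  obtain ⟨i, hi, hinf⟩ := s.dense F h' x
  rw [← hi]
  exact (s.isClosed_iff F).1 hF i hinf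

lemma Sys.small_union (S T : Set K) (hS : s.Small S) (hT : s.Small T) : s.Small (S ∪ T) := by
  classical
  obtain ⟨f, hf⟩ := hS
  obtain ⟨g, hg⟩ := hT
  refine ⟨f ∪ g, (hf.union hg).subset ?_⟩
  rintro x ⟨hx, hx2⟩
  simp only [Finset.mem_union, mem_iUnion, not_exists] at hx2
  rcases hx with hx | hx
  · left
    refine ⟨hx, ?_⟩
    simp only [mem_iUnion, not_exists]
    intro i hi
    exact hx2 i (Or.inl hi)
  · right
    refine ⟨hx, ?_⟩
    simp only [mem_iUnion, not_exists]
    intro i hi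
    exact hx2 i (Or.inr hi)

lemma Sys.not_small_univ : ¬ s.Small univ := fun ⟨f, hf⟩ => s.pos_univ f hf

/-- The space is compact. -/
lemma Sys.compact : @CompactSpace K s.top := by
  let _ := s.top
  refine ⟨isCompact_of_finite_subcover ?_⟩
  intro α U hU hcov
  have hne : ∃ x : K, True := by
    obtain ⟨x, -⟩ := (s.pos_univ ∅).nonempty
    exact ⟨x, trivial⟩
  obtain ⟨x₀, -⟩ := hne
  have hmem : ∀ x : K, ∃ a, x ∈ U a := fun x => by simpa using hcov (mem_univ x)
  choose c hc using hmem
  have hsm : s.Small (U (c x₀))ᶜ := by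
    apply s.small_of_closed _ (isClosed_compl_iff.2 (hU _))
    intro h
    have : x₀ ∈ (U (c x₀))ᶜ := by rw [h]; trivial
    exact this (hc x₀)
  obtain ⟨f, hf⟩ := hsm
  -- the points not covered by the first few sets
  have hfin : ((U (c x₀))ᶜ \ ⋃ i ∈ f, U (c (s.lim i))).Finite := by
    have h1 : ((⋃ i ∈ f, (s.A i \ U (c (s.lim i))))).Finite := by
      refine Set.Finite.biUnion f.finite_toSet fun i _ => ?_
      exact hU (c (s.lim i)) i (hc _)
    refine (hf.union h1).subset ?_
    rintro x ⟨hx, hx2⟩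
    by_cases h : x ∈ ⋃ i ∈ f, s.A i
    · right
      simp only [mem_iUnion] at h ⊢
      obtain ⟨i, hi, hxi⟩ := h
      refine ⟨i, hi, hxi, fun hxu => hx2 ?_⟩
      simp only [mem_iUnion]
      exact ⟨i, hi, hxu⟩
    · left
      exact ⟨hx, h⟩
  classical
  refine ⟨insert (c x₀) ((f.image fun i => c (s.lim i)) ∪ hfin.toFinset.image c), ?_⟩
  intro x _
  simp only [mem_iUnion]
  by_cases h1 : x ∈ U (c x₀)
  · exact ⟨c x₀, Finset.mem_insert_self _ _, h1⟩
  · by_cases h2 : x ∈ ⋃ i ∈ f, U (c (s.lim i))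
    · simp only [mem_iUnion] at h2
      obtain ⟨i, hi, hxi⟩ := h2
      refine ⟨c (s.lim i), Finset.mem_insert_of_mem (Finset.mem_union_left _
        (Finset.mem_image_of_mem _ hi)), hxi⟩
    · refine ⟨c x, Finset.mem_insert_of_mem (Finset.mem_union_right _
        (Finset.mem_image_of_mem _ ?_)), hc x⟩
      rw [Set.Finite.mem_toFinset]
      exact ⟨h1, h2⟩

/-- Compact sets are closed. -/
lemma Sys.closed_of_compact (C : Set K) (hC : @IsCompact K s.top C) : IsClosed[s.top] C := by
  let _ := s.top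
  rw [s.isClosed_iff]
  intro i hi
  by_contra hl
  have hcl : ∀ B ⊆ s.A i, IsClosed (B ∪ {s.lim i}) := by
    intro B hB
    rw [s.isClosed_iff]
    intro j hj
    by_cases h : j = i
    · subst h; right; rfl
    · exfalso
      apply hj
      refine ((s.ad j i h).union (finite_singleton (s.lim i))).subset ?_
      rintro x ⟨hx1, hx2 | hx2⟩
      · left; exact ⟨hx1, hB hx2⟩
      · right; exact hx2
  -- cover
  have hopen : ∀ c : K, IsOpen ((s.A i \ {c}) ∪ {s.lim i})ᶜ := fun c =>
    (hcl _ sdiff_subset).isOpen_compl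
  obtain ⟨t, ht⟩ := hC.elim_finite_subcover (fun c : C => ((s.A i \ {(c : K)}) ∪ {s.lim i})ᶜ)
    (fun c => hopen c) (by
      intro c hc
      simp only [mem_iUnion]
      refine ⟨⟨c, hc⟩, ?_⟩
      simp only [mem_compl_iff, mem_union, mem_sdiff, mem_singleton_iff, not_true_eq_false,
        and_false, false_or]
      rintro rfl
      exact hl hc)
  apply hi
  refine ((t.finite_toSet.image (fun c : C => (c : K)))).subset ?_
  rintro x ⟨hxA, hxC⟩
  have := ht hxC
  simp only [mem_iUnion] at this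
  obtain ⟨c, hct, hxc⟩ := this
  refine ⟨c, hct, ?_⟩
  by_contra hne
  apply hxc
  left
  exact ⟨hxA, fun h => hne h.symm⟩

/-- A closed proper set with two points loses an isolated point and stays closed. -/
lemma Sys.exists_isolated (F : Set K) (hF : IsClosed[s.top] F) (hne : F ≠ univ)
    (h2 : F.Nontrivial) : ∃ p ∈ F, IsClosed[s.top] (F \ {p}) := by
  by_cases hfin : F.Finite
  · obtain ⟨p, hp⟩ := h2.nonempty
    exact ⟨p, hp, s.closed_of_finite _ (hfin.subset sdiff_subset)⟩
  · obtain ⟨f, hf⟩ := s.small_of_closed F hF hne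
    have : (F \ (s.lim '' (f : Set ι))).Nonempty := by
      have hfin' : (F : Set K).Infinite := hfin
      exact (hfin'.sdiff (f.finite_toSet.image _)).nonempty
    obtain ⟨p, hpF, hp⟩ := this
    refine ⟨p, hpF, ?_⟩
    rw [s.isClosed_iff]
    intro i hi
    have hiF : (s.A i ∩ F).Infinite := hi.mono (inter_subset_inter_right _ sdiff_subset)
    refine ⟨(s.isClosed_iff F).1 hF i hiF, ?_⟩
    rintro hip
    have hif : i ∈ f := by
      by_contra hif
      apply hiF
      have h1 : (⋃ j ∈ f, (s.A i ∩ s.A j)).Finite := by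
        refine Set.Finite.biUnion f.finite_toSet fun j hj => ?_
        exact s.ad i j (fun h => hif (h ▸ hj))
      refine (hf.union h1).subset ?_
      rintro x ⟨hx1, hx2⟩
      by_cases h : x ∈ ⋃ j ∈ f, s.A j
      · right
        simp only [mem_iUnion] at h ⊢
        obtain ⟨j, hj, hxj⟩ := h
        exact ⟨j, hj, hx1, hxj⟩
      · left; exact ⟨hx2, h⟩
    exact hp ⟨i, hif, hip⟩

/-- The coarser topology in which the point `a` only has cofinite neighbourhoods. -/
@[reducible] def Sys.topAt (a : K) : TopologicalSpace K where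
  IsOpen U := IsOpen[s.top] U ∧ (a ∈ U → Uᶜ.Finite)
  isOpen_univ := ⟨@isOpen_univ _ s.top, fun _ => by simp⟩
  isOpen_inter := fun U V hU hV => ⟨@IsOpen.inter _ s.top _ _ hU.1 hV.1, fun h => by
    rw [compl_inter]
    exact (hU.2 h.1).union (hV.2 h.2)⟩
  isOpen_sUnion := fun 𝒰 h => ⟨@isOpen_sUnion _ s.top _ fun U hU => (h U hU).1, fun ha => by
    obtain ⟨U, hU, haU⟩ := ha
    exact ((h U hU).2 haU).subset (compl_subset_compl.2 (subset_sUnion_of_mem hU))⟩

lemma Sys.topAt_open_iff (a : K) (U : Set K) :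
    IsOpen[s.topAt a] U ↔ IsOpen[s.top] U ∧ (a ∈ U → Uᶜ.Finite) := Iff.rfl

lemma Sys.topAt_t1 (a : K) : @T1Space K (s.topAt a) := by
  let _ := s.topAt a
  refine ⟨fun x => ?_⟩
  rw [← isOpen_compl_iff]
  refine (s.topAt_open_iff a _).2 ⟨s.open_of_cofinite _ (by simp), fun _ => by simp⟩

lemma Sys.topAt_compact_of_mem (a : K) (S : Set K) (ha : a ∈ S) : @IsCompact K (s.topAt a) S := by
  let _ := s.topAt a
  refine isCompact_of_finite_subcover ?_
  intro α U hU hcov
  have hmem : ∀ x ∈ S, ∃ b, x ∈ U b := fun x hx => by simpa using hcov hx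
  obtain ⟨b, hb⟩ := hmem a ha
  have hfin : ((U b)ᶜ ∩ S).Finite := (((s.topAt_open_iff a _).1 (hU b)).2 hb).subset
    inter_subset_left
  have : Nonempty α := ⟨b⟩
  choose! c hc using hmem
  classical
  refine ⟨insert b (hfin.toFinset.image c), ?_⟩
  intro x hx
  simp only [mem_iUnion]
  by_cases h : x ∈ U b
  · exact ⟨b, Finset.mem_insert_self _ _, h⟩
  · refine ⟨c x, Finset.mem_insert_of_mem (Finset.mem_image_of_mem _ ?_), hc x hx⟩
    rw [Set.Finite.mem_toFinset]
    exact ⟨h, hx⟩

lemma Sys.topAt_compact_of_compact (a : K) (C : Set K) (hC : @IsCompact K s.top C) :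
    @IsCompact K (s.topAt a) C := by
  have hle : s.top ≤ s.topAt a := fun U hU => hU.1
  have := @IsCompact.image K K s.top (s.topAt a) C id hC (continuous_id_of_le hle)
  simpa using this

lemma Sys.compact_of_topAt_compact (a : K) (C : Set K) (ha : a ∉ C)
    (hC : @IsCompact K (s.topAt a) C) : @IsCompact K s.top C := by
  refine @isCompact_of_finite_subcover _ s.top _ ?_
  intro α U hU hcov
  have hC' := @IsCompact.elim_finite_subcover _ (s.topAt a) _ _ hC
    (fun b => U b \ {a}) (fun b => by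
      refine (s.topAt_open_iff a _).2 ⟨?_, fun h => absurd rfl h.2⟩
      exact @IsOpen.sdiff _ _ _ s.top (hU b) (s.closed_of_finite _ (finite_singleton a)))
    (by
      intro x hx
      have := hcov hx
      simp only [mem_iUnion] at this ⊢
      obtain ⟨b, hb⟩ := this
      exact ⟨b, hb, fun h => ha (h ▸ hx)⟩)
  obtain ⟨t, ht⟩ := hC'
  refine ⟨t, ht.trans ?_⟩
  exact iUnion₂_mono fun b _ => sdiff_subset

/-! ### Generalities on T1 spaces -/

section t1

variable {X : Type*} [TopologicalSpace X] [T1Space X]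

lemma saturated_t1 (A : Set X) : IsSaturated A := by
  refine ⟨{U | IsOpen U ∧ A ⊆ U}, fun U hU => hU.1, ?_⟩
  ext x
  constructor
  · rintro hx U ⟨-, hU⟩
    exact hU hx
  · intro hx
    by_contra hxA
    have := hx {x}ᶜ ⟨isOpen_compl_singleton, fun y hy h => hxA (h ▸ hy)⟩
    exact this rfl

lemma upSet_t1 (x : X) : upSet x = {x} := by
  ext y
  simp only [upSet, mem_ofPred_eq, closure_singleton, mem_singleton_iff]
  exact eq_comm

/-- In a T1 space co-sobriety means that compact sets with two points split. -/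
lemma coSober_t1 (h : ∀ G : Set X, IsCompact G → G.Nontrivial →
    ∃ p ∈ G, IsCompact (G \ {p})) : CoSober X := by
  refine ⟨inferInstance, ?_⟩
  rintro G ⟨⟨hne, hG, -⟩, hirr⟩
  by_cases hnt : G.Nontrivial
  · exfalso
    obtain ⟨p, hp, hcp⟩ := h G hG hnt
    obtain ⟨q, hq, hqp⟩ := hnt.exists_ne p
    have h1 : IsK ({p} : Set X) := ⟨⟨p, rfl⟩, isCompact_singleton, saturated_t1 _⟩
    have h2 : IsK (G \ {p}) := ⟨⟨q, hq, hqp⟩, hcp, saturated_t1 _⟩
    have h3 : G = {p} ∪ (G \ {p}) := by
      rw [union_sdiff_self, eq_comm, union_eq_right]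
      exact singleton_subset_iff.2 hp
    rcases hirr _ _ h1 h2 h3 with h4 | h4
    · rw [h4] at hq
      exact hqp hq
    · rw [h4] at hp
      exact hp.2 rfl
  · obtain ⟨x, hx⟩ := hne
    refine ⟨x, ?_⟩
    rw [upSet_t1]
    rw [not_nontrivial_iff] at hnt
    exact hnt.eq_singleton_of_mem hx

end t1

/-- The space with the coarser topology is co-sober. -/
lemma Sys.topAt_coSober (a : K) : @CoSober K (s.topAt a) := by
  let _ := s.topAt a
  have := s.topAt_t1 a
  refine coSober_t1 ?_
  intro G hG hnt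
  by_cases ha : a ∈ G
  · obtain ⟨p, hp, hpa⟩ := hnt.exists_ne a
    exact ⟨p, hp, s.topAt_compact_of_mem a _ ⟨ha, fun h => hpa h.symm⟩⟩
  · have hc := s.compact_of_topAt_compact a G ha hG
    have hcl := s.closed_of_compact G hc
    obtain ⟨p, hp, hpc⟩ := s.exists_isolated G hcl (fun h => ha (h ▸ mem_univ a)) hnt
    refine ⟨p, hp, s.topAt_compact_of_compact a _ ?_⟩
    exact @IsClosed.isCompact _ s.top _ s.compact hpc

/-- The product of the two spaces is not co-sober. -/
lemma Sys.not_coSober (a b : K) (hab : a ≠ b)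
    (t : Fin 2 → TopologicalSpace K) (h0 : t 0 = s.topAt a) (h1 : t 1 = s.topAt b) :
    ¬ @CoSober (Fin 2 → K) (@Pi.topologicalSpace (Fin 2) (fun _ => K) t) := by
  let _ : TopologicalSpace (Fin 2 → K) := @Pi.topologicalSpace (Fin 2) (fun _ => K) t
  have ht1 : ∀ i, @T1Space K (t i) := by
    intro i
    fin_cases i
    · show @T1Space K (t 0)
      rw [h0]; exact s.topAt_t1 a
    · show @T1Space K (t 1)
      rw [h1]; exact s.topAt_t1 b
  have hT1 : T1Space (Fin 2 → K) :=
    @instT1SpaceForall (Fin 2) (fun _ => K) t ht1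
  rintro ⟨-, hco⟩
  set Δ : Set (Fin 2 → K) := range (fun x : K => fun _ : Fin 2 => x) with hΔ
  have hle : ∀ i, s.top ≤ t i := by
    intro i
    fin_cases i
    · show s.top ≤ t 0
      rw [h0]; exact fun U hU => hU.1
    · show s.top ≤ t 1
      rw [h1]; exact fun U hU => hU.1
  have hcont : @Continuous K (Fin 2 → K) s.top _ (fun x : K => fun _ : Fin 2 => x) := by
    refine @continuous_pi _ _ _ s.top t _ fun i => ?_
    exact continuous_id_of_le (hle i)
  have hΔc : IsCompact Δ := by
    rw [hΔ, ← image_univ]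
    exact @IsCompact.image _ _ s.top _ _ _ (@CompactSpace.isCompact_univ K s.top s.compact) hcont
  -- traces of compact sets on the diagonal are compact
  have htrace : ∀ C : Set (Fin 2 → K), IsCompact C → C ⊆ Δ →
      @IsCompact K s.top {x | (fun _ : Fin 2 => x) ∈ C} := by
    intro C hC hCΔ
    refine @isCompact_of_finite_subcover _ s.top _ ?_
    intro α U hU hcov
    have hopen : ∀ c, IsOpen ((fun g : Fin 2 → K => g 0) ⁻¹' (U c \ {a}) ∪
        (fun g : Fin 2 → K => g 1) ⁻¹' (U c \ {b})) := by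
      intro c
      have o1 : IsOpen[t 0] (U c \ {a}) := by
        rw [h0]
        refine (s.topAt_open_iff a _).2 ⟨?_, fun h => absurd rfl h.2⟩
        exact @IsOpen.sdiff _ _ _ s.top (hU c) (s.closed_of_finite _ (finite_singleton a))
      have o2 : IsOpen[t 1] (U c \ {b}) := by
        rw [h1]
        refine (s.topAt_open_iff b _).2 ⟨?_, fun h => absurd rfl h.2⟩
        exact @IsOpen.sdiff _ _ _ s.top (hU c) (s.closed_of_finite _ (finite_singleton b))
      have c0 : @Continuous _ _ _ (t 0) (fun g : Fin 2 → K => g 0) :=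
        @continuous_apply (Fin 2) (fun _ => K) t 0
      have c1 : @Continuous _ _ _ (t 1) (fun g : Fin 2 → K => g 1) :=
        @continuous_apply (Fin 2) (fun _ => K) t 1
      exact (@Continuous.isOpen_preimage _ _ _ (t 0) _ c0 _ o1).union
        (@Continuous.isOpen_preimage _ _ _ (t 1) _ c1 _ o2)
    obtain ⟨f, hf⟩ := hC.elim_finite_subcover _ hopen (by
      intro g hg
      obtain ⟨x, rfl⟩ := hCΔ hg
      have := hcov hg
      simp only [mem_iUnion] at this ⊢
      obtain ⟨c, hc⟩ := this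
      refine ⟨c, ?_⟩
      by_cases hxa : x = a
      · right
        exact ⟨hc, fun h => hab (hxa.symm.trans h)⟩
      · left
        exact ⟨hc, hxa⟩)
    refine ⟨f, ?_⟩
    intro x hx
    have := hf hx
    simp only [mem_iUnion] at this ⊢
    obtain ⟨c, hcf, hc | hc⟩ := this
    · exact ⟨c, hcf, hc.1⟩
    · exact ⟨c, hcf, hc.1⟩
  have hirr : KIrreducible Δ := by
    refine ⟨⟨⟨_, a, rfl⟩, hΔc, saturated_t1 _⟩, ?_⟩
    intro C D hC hD hCD
    have hc1 := htrace C hC.2.1 (hCD ▸ subset_union_left)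
    have hd1 := htrace D hD.2.1 (hCD ▸ subset_union_right)
    have hc2 := s.closed_of_compact _ hc1
    have hd2 := s.closed_of_compact _ hd1
    have hunion : {x : K | (fun _ : Fin 2 => x) ∈ C} ∪ {x : K | (fun _ : Fin 2 => x) ∈ D} =
        univ := by
      ext x
      simp only [mem_union, mem_ofPred_eq, mem_univ, iff_true]
      have : (fun _ : Fin 2 => x) ∈ Δ := ⟨x, rfl⟩
      rw [hCD] at this
      exact this
    by_cases hcu : {x : K | (fun _ : Fin 2 => x) ∈ C} = univ
    · left
      apply subset_antisymm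
      · rintro g ⟨x, rfl⟩
        have : x ∈ {x : K | (fun _ : Fin 2 => x) ∈ C} := by rw [hcu]; trivial
        exact this
      · rw [hCD]; exact subset_union_left
    · by_cases hdu : {x : K | (fun _ : Fin 2 => x) ∈ D} = univ
      · right
        apply subset_antisymm
        · rintro g ⟨x, rfl⟩
          have : x ∈ {x : K | (fun _ : Fin 2 => x) ∈ D} := by rw [hdu]; trivial
          exact this
        · rw [hCD]; exact subset_union_right
      · exfalso
        apply s.not_small_univ
        rw [← hunion]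
        exact s.small_union _ _ (s.small_of_closed _ hc2 hcu) (s.small_of_closed _ hd2 hdu)
  obtain ⟨g, hg⟩ := hco Δ hirr
  rw [upSet_t1] at hg
  have ha : (fun _ : Fin 2 => a) ∈ ({g} : Set (Fin 2 → K)) := hg ▸ ⟨a, rfl⟩
  have hb : (fun _ : Fin 2 => b) ∈ ({g} : Set (Fin 2 → K)) := hg ▸ ⟨b, rfl⟩
  exact hab (congrFun (ha.trans hb.symm) 0)

end Pool.Agent.Lib_helper74.CoSoberTop
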