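import Mathlib

/-!
Submanifolds of Euclidean space, the Laplace-Beltrami operator, minimality in the unit sphere,
and the spectrum.
-/

namespace Pool.Agent.Lib_helper74.EigDefs

open scoped ContDiff

variable {E : Type} [NormedAddCommGroup E] [InnerProductSpace ℝ E] [FiniteDimensional ℝ E]

/-- `M` is an `n`-dimensional smooth embedded submanifold (without boundary) of `E`: near each of
its points it is the image of a smooth parametrisation `φ` of an open set of `ℝ^n` which has a
smooth left inverse `ψ` defined on an open set of `E`. -/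
def IsSubmanifold (n : ℕ) (M : Set E) : Prop :=
  ∀ q ∈ M, ∃ (U : Set (EuclideanSpace ℝ (Fin n))) (V : Set E)
    (φ : EuclideanSpace ℝ (Fin n) → E) (ψ : E → EuclideanSpace ℝ (Fin n)),
    IsOpen U ∧ IsOpen V ∧ q ∈ V ∧ ContDiffOn ℝ ∞ φ U ∧ ContDiffOn ℝ ∞ ψ V ∧
    φ '' U = M ∩ V ∧ ∀ u ∈ U, ψ (φ u) = u

/-- The tangent space of `M` at `q`: the span of the velocities at `q` of smooth curves
lying in `M`. -/
def tangent (M : Set E) (q : E) : Submodule ℝ E :=
  Submodule.span ℝ {w | ∃ γ : ℝ → E, ContDiff ℝ ∞ γ ∧ (∀ t, γ t ∈ M) ∧ γ 0 = q ∧ deriv γ 0 = w}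

/-- The tangential divergence of `Y` at `q`: the trace of the bilinear form `⟨DY(q) u, w⟩` over
the tangent space, computed in an orthonormal basis. -/
noncomputable def tdiv (M : Set E) (Y : E → E) (q : E) : ℝ :=
  ∑ i, inner ℝ (fderiv ℝ Y q (stdOrthonormalBasis ℝ (tangent M q) i))
    (stdOrthonormalBasis ℝ (tangent M q) i : E)

/-- `M`, contained in the unit sphere of `E`, is minimal in it: for every smooth vector field `X`
on `E` which along `M` is normal to `M` and tangent to the sphere, the trace of the shape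
operator `- (DX)^T` in the direction `X` vanishes at each point of `M`. -/
def IsMinimalInSphere (M : Set E) : Prop :=
  ∀ X : E → E, ContDiff ℝ ∞ X →
    (∀ q ∈ M, (∀ w ∈ tangent M q, inner ℝ (X q) w = 0) ∧ inner ℝ (X q) q = 0) →
    ∀ q ∈ M, tdiv M X q = 0

/-- `f` is a smooth function on `M` and `g = Δ f = div grad f`: here `F` is a smooth extension of
`f` to `E`, and `Y` a smooth extension to `E` of the gradient of `f` on `M` (the tangent vector
field with `⟨Y, w⟩ = df(w)` for all tangent vectors `w`). -/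
def IsLaplacian (M : Set E) (f g : M → ℝ) : Prop :=
  ∃ (F : E → ℝ) (Y : E → E), ContDiff ℝ ∞ F ∧ ContDiff ℝ ∞ Y ∧ (∀ q : M, F q = f q) ∧
    (∀ q : M, Y q ∈ tangent M q ∧ ∀ w ∈ tangent M q, inner ℝ (Y q) w = fderiv ℝ F q w) ∧
    ∀ q : M, g q = tdiv M Y q

/-- The eigenspace of `Δ f = - μ f`. -/
def eigenspace (M : Set E) (μ : ℝ) : Submodule ℝ (M → ℝ) :=
  Submodule.span ℝ {f | IsLaplacian M f (fun q => -μ * f q)}

/-- `lam` lists the eigenvalues of `Δ f = - μ f` in nondecreasing order, each as often as its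
multiplicity says. -/
def IsSpectrum (M : Set E) (lam : ℕ → ℝ) : Prop :=
  Monotone lam ∧ ∀ μ : ℝ, Module.rank ℝ (eigenspace M μ) = Cardinal.mk {k : ℕ // lam k = μ}

end Pool.Agent.Lib_helper74.EigDefs
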