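import Pool.Agent.Lib_helper74.EigPow

/-!
Explicit eigenfunctions.
-/

namespace Pool.Agent.Lib_helper74.EigVero

open scoped ContDiff
open Finset MeasureTheory Pool.Agent.Lib_helper74.EigDefs

variable {n : ℕ}

/-- Isotropic linear form. -/
noncomputable def zl (b : Fin (n + 1)) : V n →ₗ[ℝ] ℂ where
  toFun x := ⟨x 0, x b⟩
  map_add' x y := by apply Complex.ext <;> simp
  map_smul' c x := by apply Complex.ext <;> simp

/-- Isotropic linear form, continuous. -/
noncomputable def zV (b : Fin (n + 1)) : V n →L[ℝ] ℂ := LinearMap.toContinuousLinearMap (zl b)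

lemma zV_apply (b : Fin (n + 1)) (x : V n) : zV b x = ⟨x 0, x b⟩ := rfl

/-- The square of the isotropic form, as a linear form in the matrix. -/
noncomputable def zEl (b : Fin (n + 1)) : EE n →ₗ[ℝ] ℂ where
  toFun Q := ⟨Q (0, 0) - Q (b, b), 2 * Q (0, b)⟩
  map_add' x y := by
    apply Complex.ext
    · simp; ring
    · simp; ring
  map_smul' c x := by
    apply Complex.ext
    · simp; ring
    · simp; ring

/-- The square of the isotropic form, as a continuous linear form in the matrix. -/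
noncomputable def zE (b : Fin (n + 1)) : EE n →L[ℝ] ℂ := LinearMap.toContinuousLinearMap (zEl b)

lemma zE_apply (b : Fin (n + 1)) (Q : EE n) : zE b Q = ⟨Q (0, 0) - Q (b, b), 2 * Q (0, b)⟩ := rfl

lemma zE_B (b : Fin (n + 1)) (x : V n) : zE b (B x x) = (zV b x) ^ 2 := by
  rw [zE_apply, zV_apply]
  apply Complex.ext
  · simp [sq]
  · simp [sq]; ring

/-- The harmonic function. -/
noncomputable def hf (b : Fin (n + 1)) (d : ℕ) (x : V n) : ℝ := ((zV b x) ^ d).re

/-- The extension to matrices. -/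
noncomputable def Fh (b : Fin (n + 1)) (l : ℕ) (Q : EE n) : ℝ :=
  ((zE b ((sc n)⁻¹ • Q + J n)) ^ l).re

lemma Fh_ver (hn : 0 < n) (b : Fin (n + 1)) (l : ℕ) (x : V n) :
    Fh b l (ver x) = hf b (2 * l) x := by
  have hsc := sc_pos hn
  have : (sc n)⁻¹ • ver x + J n = B x x := by
    unfold ver
    rw [smul_smul, inv_mul_cancel₀ hsc.ne', one_smul]
    abel
  unfold Fh hf
  rw [this, zE_B, pow_mul]

lemma contDiff_hf (b : Fin (n + 1)) (d : ℕ) : ContDiff ℝ ∞ (hf b d : V n → ℝ) := by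
  unfold hf
  exact Complex.reCLM.contDiff.comp ((zV b).contDiff.pow d)

lemma contDiff_Fh (b : Fin (n + 1)) (l : ℕ) : ContDiff ℝ ∞ (Fh b l : EE n → ℝ) := by
  unfold Fh
  refine Complex.reCLM.contDiff.comp (ContDiff.pow ?_ l)
  exact (zE b).contDiff.comp ((ContDiff.const_smul (sc n)⁻¹ contDiff_id).add contDiff_const)

lemma hasDerivAt_zV (b : Fin (n + 1)) (x : V n) (i j : Fin (n + 1)) (t : ℝ) :
    HasDerivAt (fun s => zV b (R i j s x)) (zV b (A i j (R i j t x))) t :=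
  (zV b).hasFDerivAt.comp_hasDerivAt t (hasDerivAt_R i j x t)

lemma hasDerivAt_zVA (b : Fin (n + 1)) (x : V n) (i j : Fin (n + 1)) (t : ℝ) :
    HasDerivAt (fun s => zV b (A i j (R i j s x))) (zV b (A i j (A i j (R i j t x)))) t := by
  have h1 : HasDerivAt (fun s => A i j (R i j s x)) (A i j (A i j (R i j t x))) t :=
    (A i j).hasFDerivAt.comp_hasDerivAt t (hasDerivAt_R i j x t)
  exact (zV b).hasFDerivAt.comp_hasDerivAt t h1

lemma Ld_hf (b : Fin (n + 1)) (d : ℕ) (i j : Fin (n + 1)) (x : V n) :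
    Ld i j (hf b (d + 1)) x = (((d : ℂ) + 1) * (zV b x) ^ d * zV b (A i j x)).re := by
  refine Ld_of_hasDerivAt (contDiff_hf b (d + 1)) ?_
  have := (hasDerivAt_zV b x i j 0).fun_pow (d + 1)
  rw [R_zero] at this
  simp only [Nat.add_sub_cancel, Nat.cast_add, Nat.cast_one] at this
  exact Complex.reCLM.hasFDerivAt.comp_hasDerivAt (0 : ℝ) this

lemma Ld_Ld_hf (b : Fin (n + 1)) (d : ℕ) (i j : Fin (n + 1)) (x : V n) :
    Ld i j (Ld i j (hf b (d + 2))) x =
      (((d : ℂ) + 2) * (((d : ℂ) + 1) * (zV b x) ^ d * (zV b (A i j x)) ^ 2 +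
        (zV b x) ^ (d + 1) * zV b (A i j (A i j x)))).re := by
  refine Ld_of_hasDerivAt (contDiff_Ld i j (contDiff_hf b (d + 2))) ?_
  have h1 : (fun t => Ld i j (hf b (d + 2)) (R i j t x)) =
      fun t => ((((d + 1 : ℕ) : ℂ) + 1) * (zV b (R i j t x)) ^ (d + 1) *
        zV b (A i j (R i j t x))).re := by
    funext t
    exact Ld_hf b (d + 1) i j _
  rw [h1]
  have h2 := ((hasDerivAt_zV b x i j 0).fun_pow (d + 1)).const_mul (((d + 1 : ℕ) : ℂ) + 1)
  have h3 := h2.fun_mul (hasDerivAt_zVA b x i j 0)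
  simp only [R_zero, Nat.add_sub_cancel] at h3
  have h4 := Complex.reCLM.hasFDerivAt.comp_hasDerivAt (0 : ℝ) h3
  refine h4.congr_deriv ?_
  rw [Complex.reCLM_apply]
  congr 1
  push_cast
  ring

lemma sum_zV_sq (b : Fin (n + 1)) (hb : b ≠ 0) (x : V n) :
    ∑ i, ∑ j, (zV b (A i j x)) ^ 2 = -2 * (zV b x) ^ 2 := by
  have h1 : ∀ y : V n, zV b y = ((inner ℝ (e 0) y : ℝ) : ℂ) + ((inner ℝ (e b) y : ℝ) : ℂ) *
      Complex.I := by
    intro y
    rw [inner_e', inner_e', zV_apply]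
    apply Complex.ext <;> simp
  have h2 : ∀ i j, (zV b (A i j x)) ^ 2 =
      ((((inner ℝ (e 0) (A i j x) : ℝ) ^ 2 : ℝ)) : ℂ) -
      ((((inner ℝ (e b) (A i j x) : ℝ) ^ 2 : ℝ)) : ℂ) +
      2 * Complex.I * (((inner ℝ (e 0) (A i j x) * inner ℝ (e b) (A i j x) : ℝ)) : ℂ) := by
    intro i j
    rw [h1]
    push_cast
    linear_combination (((inner ℝ (e b) (A i j x) : ℝ) : ℂ) ^ 2) * Complex.I_sq
  simp only [h2, Finset.sum_add_distrib, Finset.sum_sub_distrib, ← Finset.mul_sum,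
    ← Complex.ofReal_sum]
  rw [sum_inner_A_sq, sum_inner_A_sq, sum_inner_A_mul, h1 x]
  have e1 : (inner ℝ (e 0 : V n) (e 0) : ℝ) = 1 := by rw [inner_e']; simp [e_apply]
  have e2 : (inner ℝ (e b : V n) (e b) : ℝ) = 1 := by rw [inner_e']; simp [e_apply]
  have e3 : (inner ℝ (e 0 : V n) (e b) : ℝ) = 0 := by
    rw [inner_e', e_apply, if_neg (Ne.symm hb)]
  rw [e1, e2, e3]
  push_cast
  linear_combination (2 * ((inner ℝ (e b) x : ℝ) : ℂ) ^ 2) * Complex.I_sq

lemma sum_zV_AA (b : Fin (n + 1)) (x : V n) :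
    ∑ i, ∑ j, zV b (A i j (A i j x)) = -(2 * n) * zV b x := by
  simp only [← map_sum]
  rw [sum_A_sq, map_smul]
  simp

lemma LL_hf (b : Fin (n + 1)) (hb : b ≠ 0) (d : ℕ) (x : V n) :
    LL (hf b (d + 2)) x = -2 * ((d + 2) * (d + 2 + n - 1)) * hf b (d + 2) x := by
  unfold LL
  simp only [Ld_Ld_hf, ← Complex.re_sum, ← Finset.mul_sum, Finset.sum_add_distrib]
  rw [sum_zV_sq b hb, sum_zV_AA]
  unfold hf
  have : (-2 * (((d : ℝ) + 2) * ((d : ℝ) + 2 + n - 1)) * ((zV b x ^ (d + 2)).re)) =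
      ((((-2 * (((d : ℝ) + 2) * ((d : ℝ) + 2 + n - 1)) : ℝ)) : ℂ) * (zV b x ^ (d + 2))).re := by
    rw [Complex.re_ofReal_mul]
  rw [this]
  congr 1
  push_cast
  ring

lemma LL_hf_even (b : Fin (n + 1)) (hb : b ≠ 0) (l : ℕ) (x : V n) :
    LL (hf b (2 * l)) x = -2 * ((2 * l) * (2 * l + n - 1)) * hf b (2 * l) x := by
  cases l with
  | zero =>
    have : (hf b (2 * 0) : V n → ℝ) = fun _ => (1 : ℝ) := by
      funext y
      simp [hf]
    rw [this]
    unfold LL Ld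
    simp
  | succ k =>
    have := LL_hf b hb (2 * k) x
    rw [show 2 * (k + 1) = 2 * k + 2 by ring, this]
    push_cast
    ring

lemma hf_e_self (b : Fin (n + 1)) (hb : b ≠ 0) (l : ℕ) :
    hf b (2 * l) (e b : V n) = (-1) ^ l := by
  unfold hf
  have : zV b (e b : V n) = Complex.I := by
    rw [zV_apply, e_apply, e_apply, if_neg (Ne.symm hb), if_pos rfl]
    apply Complex.ext <;> simp
  rw [this, pow_mul, Complex.I_sq]
  have : ((-1 : ℂ) ^ l) = (((-1 : ℝ) ^ l : ℝ) : ℂ) := by push_cast; rfl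
  rw [this, Complex.ofReal_re]

lemma hf_e_ne (b c : Fin (n + 1)) (hc : c ≠ 0) (hbc : b ≠ c) (l : ℕ) (hl : l ≠ 0) :
    hf b (2 * l) (e c : V n) = 0 := by
  unfold hf
  have : zV b (e c : V n) = 0 := by
    rw [zV_apply, e_apply, e_apply, if_neg (Ne.symm hc), if_neg hbc]
    rfl
  rw [this, zero_pow (by omega)]
  simp

end Pool.Agent.Lib_helper74.EigVero
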