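import Pool.Agent.Lib_helper74.EigSub

/-!
Integration over the sphere; integration by parts for rotation fields.
-/

namespace Pool.Agent.Lib_helper74.EigVero

open scoped ContDiff Pointwise
open Finset MeasureTheory Pool.Agent.Lib_helper74.EigDefs

variable {n : ℕ}

/-- The unit sphere of the source space. -/
abbrev SS (n : ℕ) := Metric.sphere (0 : V n) 1

/-- The surface measure. -/
noncomputable def sig (n : ℕ) : Measure (SS n) := (volume : Measure (V n)).toSphere

instance : IsFiniteMeasure (sig n) := by unfold sig; infer_instance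

instance : (sig n).IsOpenPosMeasure := by unfold sig; infer_instance

/-- The action of an isometry on the sphere. -/
noncomputable def sph (φ : V n ≃ₗᵢ[ℝ] V n) (x : SS n) : SS n := ⟨φ x, by simp⟩

lemma continuous_sph (φ : V n ≃ₗᵢ[ℝ] V n) : Continuous (sph φ) :=
  (φ.continuous.comp continuous_subtype_val).subtype_mk _

lemma measurePreserving_sph (φ : V n ≃ₗᵢ[ℝ] V n) : MeasurePreserving (sph φ) (sig n) (sig n) := by
  refine ⟨(continuous_sph φ).measurable, ?_⟩
  ext s hs
  rw [Measure.map_apply (continuous_sph φ).measurable hs]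
  unfold sig
  rw [Measure.toSphere_apply' _ ((continuous_sph φ).measurable hs), Measure.toSphere_apply' _ hs]
  congr 1
  have : Set.Ioo (0 : ℝ) 1 • (Subtype.val '' (sph φ ⁻¹' s) : Set (V n)) =
      φ ⁻¹' (Set.Ioo (0 : ℝ) 1 • (Subtype.val '' s : Set (V n))) := by
    ext y
    constructor
    · rintro ⟨r, hr, _, ⟨x, hx, rfl⟩, rfl⟩
      refine ⟨r, hr, φ x, ⟨sph φ x, hx, rfl⟩, ?_⟩
      simp
    · rintro ⟨r, hr, _, ⟨x, hx, rfl⟩, hxy⟩
      refine ⟨r, hr, φ.symm x, ⟨sph φ.symm x, ?_, rfl⟩, ?_⟩
      · show sph φ (sph φ.symm x) ∈ s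
        have : sph φ (sph φ.symm x) = x := by
          ext1
          show φ (φ.symm x) = x
          simp
        rw [this]
        exact hx
      · show r • φ.symm x = y
        have h1 : r • (x : V n) = φ y := hxy
        rw [← map_smul, h1]
        simp
  rw [this]
  exact (φ.measurePreserving).measure_preimage_emb φ.toHomeomorph.measurableEmbedding _

lemma integral_sph (φ : V n ≃ₗᵢ[ℝ] V n) (g : V n → ℝ) :
    ∫ x : SS n, g (φ x) ∂(sig n) = ∫ x : SS n, g x ∂(sig n) := by
  have h := (measurePreserving_sph φ).integral_comp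
    (f := sph φ) (μ := sig n) (ν := sig n)
    (?_ : MeasurableEmbedding (sph φ)) (fun x : SS n => g x)
  · exact h
  · have hinv : Function.LeftInverse (sph φ.symm) (sph φ) := by
      intro x
      ext1
      show φ.symm (φ x) = x
      simp
    have hinv2 : Function.RightInverse (sph φ.symm) (sph φ) := by
      intro x
      ext1
      show φ (φ.symm x) = x
      simp
    exact (Homeomorph.mk ⟨sph φ, sph φ.symm, hinv, hinv2⟩ (continuous_sph φ)
      (continuous_sph φ.symm)).measurableEmbedding

lemma integral_R (i j : Fin (n + 1)) (t : ℝ) (g : V n → ℝ) :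
    ∫ x : SS n, g (R i j t x) ∂(sig n) = ∫ x : SS n, g x ∂(sig n) :=
  integral_sph (Re i j t) g

lemma integrable_cont {g : SS n → ℝ} (hg : Continuous g) : Integrable g (sig n) :=
  hg.integrable_of_hasCompactSupport (HasCompactSupport.of_compactSpace g)

lemma integral_Ld (i j : Fin (n + 1)) {G : V n → ℝ} (hG : ContDiff ℝ ∞ G) :
    ∫ x : SS n, Ld i j G x ∂(sig n) = 0 := by
  have hLc : Continuous (fun x : SS n => Ld i j G x) :=
    (contDiff_Ld i j hG).continuous.comp continuous_subtype_val
  obtain ⟨C, hC⟩ := (isCompact_univ (X := SS n)).exists_bound_of_continuousOn hLc.continuousOn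
  have hder := hasDerivAt_integral_of_dominated_loc_of_deriv_le (μ := sig n)
    (F := fun t (x : SS n) => G (R i j t x)) (F' := fun t (x : SS n) => Ld i j G (R i j t x))
    (x₀ := (0 : ℝ)) (s := Set.univ) (bound := fun _ => C) Filter.univ_mem
    (Filter.Eventually.of_forall fun t => by
      have : Continuous (fun x : SS n => G (R i j t x)) :=
        hG.continuous.comp ((Re i j t).continuous.comp continuous_subtype_val)
      exact this.aestronglyMeasurable)
    (by
      have : Continuous (fun x : SS n => G (R i j 0 x)) :=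
        hG.continuous.comp ((Re i j 0).continuous.comp continuous_subtype_val)
      exact integrable_cont this)
    (by
      have : Continuous (fun x : SS n => Ld i j G (R i j 0 x)) :=
        (contDiff_Ld i j hG).continuous.comp ((Re i j 0).continuous.comp continuous_subtype_val)
      exact this.aestronglyMeasurable)
    (Filter.Eventually.of_forall fun x t _ => hC (sph (Re i j t) x) (Set.mem_univ _))
    (integrable_const C)
    (Filter.Eventually.of_forall fun x t _ => hasDerivAt_comp_R i j hG x t)
  have h1 := hder.2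
  have h2 : (fun t => ∫ x : SS n, G (R i j t x) ∂(sig n)) = fun _ => ∫ x : SS n, G x ∂(sig n) := by
    funext t
    exact integral_R i j t G
  rw [h2] at h1
  have h3 := h1.unique (hasDerivAt_const (0 : ℝ) _)
  simp only [R_zero] at h3
  exact h3

lemma Ld_mul (i j : Fin (n + 1)) {G H : V n → ℝ} (hG : ContDiff ℝ ∞ G) (hH : ContDiff ℝ ∞ H)
    (x : V n) : Ld i j (fun y => G y * H y) x = G x * Ld i j H x + Ld i j G x * H x := by
  unfold Ld
  have h1 : DifferentiableAt ℝ G x := (hG.differentiable (by simp)).differentiableAt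
  have h2 : DifferentiableAt ℝ H x := (hH.differentiable (by simp)).differentiableAt
  rw [fderiv_fun_mul h1 h2]
  simp
  ring

lemma Ld_add (i j : Fin (n + 1)) {G H : V n → ℝ} (hG : ContDiff ℝ ∞ G) (hH : ContDiff ℝ ∞ H)
    (x : V n) : Ld i j (fun y => G y + H y) x = Ld i j G x + Ld i j H x := by
  unfold Ld
  have h1 : DifferentiableAt ℝ G x := (hG.differentiable (by simp)).differentiableAt
  have h2 : DifferentiableAt ℝ H x := (hH.differentiable (by simp)).differentiableAt
  rw [fderiv_fun_add h1 h2]
  simp

lemma Ld_const_mul (i j : Fin (n + 1)) (c : ℝ) {G : V n → ℝ} (hG : ContDiff ℝ ∞ G)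
    (x : V n) : Ld i j (fun y => c * G y) x = c * Ld i j G x := by
  unfold Ld
  have h1 : DifferentiableAt ℝ G x := (hG.differentiable (by simp)).differentiableAt
  rw [fderiv_const_mul h1]
  simp

lemma by_parts (i j : Fin (n + 1)) {G H : V n → ℝ} (hG : ContDiff ℝ ∞ G) (hH : ContDiff ℝ ∞ H) :
    ∫ x : SS n, Ld i j G x * H x ∂(sig n) = - ∫ x : SS n, G x * Ld i j H x ∂(sig n) := by
  have h := integral_Ld i j (hG.mul hH)
  have h1 : ∀ x : SS n, Ld i j (fun y => G y * H y) x = G x * Ld i j H x + Ld i j G x * H x :=
    fun x => Ld_mul i j hG hH x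
  rw [integral_congr_ae (Filter.Eventually.of_forall h1), integral_add] at h
  · linarith
  · exact integrable_cont (((hG.continuous.mul (contDiff_Ld i j hH).continuous)).comp
      continuous_subtype_val)
  · exact integrable_cont ((((contDiff_Ld i j hG).continuous.mul hH.continuous)).comp
      continuous_subtype_val)

lemma contDiff_LL {G : V n → ℝ} (hG : ContDiff ℝ ∞ G) : ContDiff ℝ ∞ (LL G) :=
  ContDiff.sum fun i _ => ContDiff.sum fun j _ => contDiff_Ld i j (contDiff_Ld i j hG)

lemma LL_symm {G H : V n → ℝ} (hG : ContDiff ℝ ∞ G) (hH : ContDiff ℝ ∞ H) :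
    ∫ x : SS n, LL G x * H x ∂(sig n) = ∫ x : SS n, G x * LL H x ∂(sig n) := by
  unfold LL
  simp only [Finset.sum_mul, Finset.mul_sum]
  rw [integral_finsetSum, integral_finsetSum]
  · refine Finset.sum_congr rfl fun i _ => ?_
    rw [integral_finsetSum, integral_finsetSum]
    · refine Finset.sum_congr rfl fun j _ => ?_
      rw [by_parts i j (contDiff_Ld i j hG) hH, by_parts i j hG (contDiff_Ld i j hH), neg_neg]
    · intro j _
      exact integrable_cont (((hG.continuous.mul
        (contDiff_Ld i j (contDiff_Ld i j hH)).continuous)).comp continuous_subtype_val)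
    · intro j _
      exact integrable_cont ((((contDiff_Ld i j (contDiff_Ld i j hG)).continuous.mul
        hH.continuous)).comp continuous_subtype_val)
  · intro i _
    refine integrable_finsetSum _ fun j _ => ?_
    exact integrable_cont (((hG.continuous.mul
      (contDiff_Ld i j (contDiff_Ld i j hH)).continuous)).comp continuous_subtype_val)
  · intro i _
    refine integrable_finsetSum _ fun j _ => ?_
    exact integrable_cont ((((contDiff_Ld i j (contDiff_Ld i j hG)).continuous.mul
      hH.continuous)).comp continuous_subtype_val)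

end Pool.Agent.Lib_helper74.EigVero
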