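import Pool.Agent.Lib_helper74.EigRot

/-!
The Laplacian of the Veronese manifold in terms of rotation fields.
-/

namespace Pool.Agent.Lib_helper74.EigVero

open scoped ContDiff
open Finset Pool.Agent.Lib_helper74.EigDefs

variable {n : ℕ}

/-- Derivative along a rotation field. -/
noncomputable def Ld (i j : Fin (n + 1)) (G : V n → ℝ) (x : V n) : ℝ := fderiv ℝ G x (A i j x)

/-- Sum of the squares of the rotation fields. -/
noncomputable def LL (G : V n → ℝ) (x : V n) : ℝ := ∑ i, ∑ j, Ld i j (Ld i j G) x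

lemma contDiff_Ld (i j : Fin (n + 1)) {G : V n → ℝ} (hG : ContDiff ℝ ∞ G) :
    ContDiff ℝ ∞ (Ld i j G) :=
  (hG.fderiv_right (m := ∞) (by simp)).clm_apply (A i j).contDiff

lemma hasDerivAt_comp_R (i j : Fin (n + 1)) {G : V n → ℝ} (hG : ContDiff ℝ ∞ G) (x : V n)
    (t : ℝ) : HasDerivAt (fun s => G (R i j s x)) (Ld i j G (R i j t x)) t := by
  have h1 : HasFDerivAt G (fderiv ℝ G (R i j t x)) (R i j t x) :=
    (hG.differentiable (by simp)).differentiableAt.hasFDerivAt
  exact h1.comp_hasDerivAt t (hasDerivAt_R i j x t)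

lemma key_identity {Z : V n → EE n} {G : V n → ℝ} (hZ : ContDiff ℝ ∞ Z) (hG : ContDiff ℝ ∞ G)
    (h : ∀ y : V n, inner ℝ y y = (1 : ℝ) → ∀ i j,
      inner ℝ (Z y) (dver y (A i j y)) = Ld i j G y) (x : V n) (hx : inner ℝ x x = (1 : ℝ)) :
    ∑ i, ∑ j, (inner ℝ (fderiv ℝ Z x (A i j x)) (dver x (A i j x)) : ℝ) =
      LL G x + 4 * (n + 1) * inner ℝ (Z x) (ver x) := by
  have h1 : ∀ i j, (inner ℝ (fderiv ℝ Z x (A i j x)) (dver x (A i j x)) : ℝ) =
      Ld i j (Ld i j G) x - inner ℝ (Z x)
        (sc n • (B x (A i j (A i j x)) + B (A i j (A i j x)) x +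
          (2 : ℝ) • B (A i j x) (A i j x))) := by
    intro i j
    have d1 : HasDerivAt (fun t => Z (R i j t x)) (fderiv ℝ Z x (A i j x)) 0 := by
      have h1 : HasFDerivAt Z (fderiv ℝ Z (R i j 0 x)) (R i j 0 x) :=
        (hZ.differentiable (by simp)).differentiableAt.hasFDerivAt
      have h2 := h1.comp_hasDerivAt (0 : ℝ) (hasDerivAt_R i j x 0)
      rw [R_zero] at h2
      exact h2
    have d0 := hasDerivAt_R i j x 0
    rw [R_zero] at d0
    have dA : HasDerivAt (fun t => A i j (R i j t x)) (A i j (A i j x)) 0 :=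
      (A i j).hasFDerivAt.comp_hasDerivAt (0 : ℝ) d0
    have d2 : HasDerivAt (fun t => dver (R i j t x) (A i j (R i j t x)))
        (sc n • ((B x (A i j (A i j x)) + B (A i j x) (A i j x)) +
          (B (A i j x) (A i j x) + B (A i j (A i j x)) x))) 0 := by
      have e1 := hasDerivAt_B d0 dA
      have e2 := hasDerivAt_B dA d0
      rw [R_zero] at e1 e2
      exact HasDerivAt.const_smul (sc n) (e1.add e2)
    have d3 := HasDerivAt.inner ℝ d1 d2
    have d4 := hasDerivAt_comp_R i j (contDiff_Ld i j hG) x 0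
    have heq : (fun t => (inner ℝ (Z (R i j t x)) (dver (R i j t x) (A i j (R i j t x))) : ℝ)) =
        fun t => Ld i j G (R i j t x) := by
      funext t
      exact h _ (by rw [inner_R, hx]) i j
    rw [heq] at d3
    have d5 := d3.unique d4
    rw [R_zero] at d5
    rw [← d5]
    have : sc n • ((B x (A i j (A i j x)) + B (A i j x) (A i j x)) +
          (B (A i j x) (A i j x) + B (A i j (A i j x)) x)) =
        sc n • (B x (A i j (A i j x)) + B (A i j (A i j x)) x +
          (2 : ℝ) • B (A i j x) (A i j x)) := by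
      congr 1
      module
    rw [this]
    ring
  rw [Finset.sum_congr rfl fun i _ => Finset.sum_congr rfl fun j _ => h1 i j]
  simp only [Finset.sum_sub_distrib]
  have h2 : ∑ i, ∑ j, (inner ℝ (Z x) (sc n • (B x (A i j (A i j x)) + B (A i j (A i j x)) x +
          (2 : ℝ) • B (A i j x) (A i j x))) : ℝ) = - (4 * (n + 1) * inner ℝ (Z x) (ver x)) := by
    simp only [← inner_sum]
    have h3 : ∑ i, ∑ j, sc n • (B x (A i j (A i j x)) + B (A i j (A i j x)) x +
          (2 : ℝ) • B (A i j x) (A i j x)) = (-(4 * (n + 1)) : ℝ) • ver x := by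
      simp only [← Finset.smul_sum, Finset.sum_add_distrib]
      rw [sum_B_A, hx]
      have e1 : ∑ i, ∑ j, B x (A i j (A i j x)) = (-(2 * n) : ℝ) • B x x := by
        simp only [← B_sum_right]
        rw [sum_A_sq, B_smul_right]
      have e2 : ∑ i, ∑ j, B (A i j (A i j x)) x = (-(2 * n) : ℝ) • B x x := by
        simp only [← B_sum_left]
        rw [sum_A_sq, B_smul_left]
      rw [e1, e2]
      unfold ver
      module
    rw [h3, inner_smul_right]
    ring
  rw [h2]
  unfold LL
  ring

/-- The Veronese manifold. -/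
def Mv (n : ℕ) : Set (EE n) := ver '' (Metric.sphere (0 : V n) 1)

lemma mem_sphere_iff (x : V n) : x ∈ Metric.sphere (0 : V n) 1 ↔ inner ℝ x x = (1 : ℝ) := by
  rw [mem_sphere_zero_iff_norm, real_inner_self_eq_norm_sq]
  constructor
  · intro h; rw [h]; norm_num
  · intro h
    have := norm_nonneg x
    nlinarith

lemma ver_mem {x : V n} (hx : inner ℝ x x = (1 : ℝ)) : ver x ∈ Mv n :=
  ⟨x, (mem_sphere_iff x).2 hx, rfl⟩

/-- The differential as a linear map. -/
noncomputable def dverL (x : V n) : V n →ₗ[ℝ] EE n where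
  toFun := dver x
  map_add' := dver_add x
  map_smul' c u := dver_smul c x u

/-- The tangent space as a concrete subspace. -/
noncomputable def Tx (x : V n) : Submodule ℝ (EE n) := Submodule.map (dverL x) (ℝ ∙ x)ᗮ

lemma mem_Tx (x : V n) (w : EE n) : w ∈ Tx x ↔ ∃ u, inner ℝ x u = (0 : ℝ) ∧ dver x u = w := by
  unfold Tx
  simp only [Submodule.mem_map, Submodule.mem_orthogonal_singleton_iff_inner_right]
  rfl

lemma tangent_eq (hn : 0 < n) {x : V n} (hx : inner ℝ x x = (1 : ℝ)) :
    tangent (Mv n) (ver x) = Tx x := by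
  apply le_antisymm
  · refine Submodule.span_le.2 ?_
    rintro w ⟨γ, hγ, hM, h0, rfl⟩
    -- contraction
    set g : ℝ → V n := fun t => C x ((sc n)⁻¹ • γ t + J n) with hg
    have hscpos := sc_pos hn
    have hγd : HasDerivAt γ (deriv γ 0) 0 :=
      (hγ.differentiable (by simp)).differentiableAt.hasDerivAt
    have hgd : HasDerivAt g (C x ((sc n)⁻¹ • deriv γ 0)) 0 := by
      have h0 : HasDerivAt (fun t => (sc n)⁻¹ • γ t) ((sc n)⁻¹ • deriv γ 0) 0 :=
        HasDerivAt.const_smul (sc n)⁻¹ hγd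
      have h1 : HasDerivAt (fun t => (sc n)⁻¹ • γ t + J n) ((sc n)⁻¹ • deriv γ 0) 0 :=
        h0.add_const _
      exact (LinearMap.toContinuousLinearMap (C x)).hasFDerivAt.comp_hasDerivAt (0 : ℝ) h1
    set g' := C x ((sc n)⁻¹ • deriv γ 0) with hg'
    have hCver : ∀ y : V n, C x ((sc n)⁻¹ • ver y + J n) = (inner ℝ y x : ℝ) • y := by
      intro y
      have : (sc n)⁻¹ • ver y + J n = B y y := by
        unfold ver
        rw [smul_smul, inv_mul_cancel₀ hscpos.ne', one_smul]
        abel
      rw [this, C_B]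
    have hg0 : g 0 = x := by
      show C x ((sc n)⁻¹ • γ 0 + J n) = x
      rw [h0, hCver, hx, one_smul]
    have hnn : HasDerivAt (fun t => (inner ℝ (g t) (g t) : ℝ)) (2 * inner ℝ x g') 0 := by
      have := HasDerivAt.inner ℝ hgd hgd
      rw [hg0] at this
      have e2 : 2 * inner ℝ x g' = (inner ℝ x g' + inner ℝ g' x : ℝ) := by
        rw [real_inner_comm x g']
        ring
      rw [e2]
      exact this
    have hne : (inner ℝ (g 0) (g 0) : ℝ) ≠ 0 := by rw [hg0, hx]; norm_num
    have hBg := hasDerivAt_B hgd hgd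
    have hinv := hnn.inv hne
    have hq := hinv.smul hBg
    have hone : ((fun t => (inner ℝ (g t) (g t) : ℝ))⁻¹ : ℝ → ℝ) 0 = 1 := by
      show (inner ℝ (g 0) (g 0) : ℝ)⁻¹ = 1
      rw [hg0, hx, inv_one]
    rw [hone, hg0, hx] at hq
    have hfull := HasDerivAt.const_smul (sc n) (hq.sub_const (J n))
    -- the curve agrees with this expression near 0
    have hev : (fun t => sc n • ((((fun t => (inner ℝ (g t) (g t) : ℝ))⁻¹ •
        fun s => B (g s) (g s)) t) - J n)) =ᶠ[nhds 0] γ := by
      have hcont : ContinuousAt (fun t => (inner ℝ (g t) (g t) : ℝ)) 0 := hnn.continuousAt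
      filter_upwards [hcont.eventually_ne hne] with t ht
      obtain ⟨y, hy, hyt⟩ := hM t
      rw [mem_sphere_iff] at hy
      have hgt : g t = (inner ℝ y x : ℝ) • y := by
        show C x ((sc n)⁻¹ • γ t + J n) = _
        rw [← hyt, hCver]
      have hi : (inner ℝ (g t) (g t) : ℝ) = (inner ℝ y x : ℝ) * (inner ℝ y x : ℝ) := by
        rw [hgt, inner_smul_left, inner_smul_right, hy]
        simp
      have hne' : (inner ℝ y x : ℝ) ≠ 0 := by
        intro h; apply ht; rw [hi, h]; ring
      show sc n • ((inner ℝ (g t) (g t) : ℝ)⁻¹ • B (g t) (g t) - J n) = γ t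
      rw [hi, hgt, B_smul_left, B_smul_right, smul_smul, smul_smul, ← hyt]
      unfold ver
      congr 2
      rw [← one_smul ℝ (B y y), smul_smul]
      congr 1
      field_simp
    have hfin := (hfull.congr_of_eventuallyEq hev.symm).unique hγd
    show deriv γ 0 ∈ Tx x
    rw [← hfin, mem_Tx]
    refine ⟨g' - (inner ℝ x g' : ℝ) • x, ?_, ?_⟩
    · rw [inner_sub_right, inner_smul_right, hx]; ring
    · unfold dver
      rw [sub_eq_add_neg, B_add_left, B_add_right, ← neg_smul, B_smul_left, B_smul_right]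
      simp only [one_smul, one_pow, div_one]
      module
  · rintro w hw
    obtain ⟨u, hu, rfl⟩ := (mem_Tx x w).1 hw
    by_cases hu0 : u = 0
    · subst hu0
      have : dver x 0 = 0 := (dverL x).map_zero
      rw [this]
      exact Submodule.zero_mem _
    · refine Submodule.subset_span ?_
      have hs : ‖u‖ ≠ 0 := norm_ne_zero_iff.2 hu0
      refine ⟨fun t => ver (Real.cos (‖u‖ * t) • x + (Real.sin (‖u‖ * t) / ‖u‖) • u), ?_, ?_, ?_, ?_⟩
      · refine contDiff_ver.comp ?_
        refine ContDiff.add ?_ ?_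
        · exact (Real.contDiff_cos.comp (contDiff_const.mul contDiff_id)).smul contDiff_const
        · exact ((Real.contDiff_sin.comp (contDiff_const.mul contDiff_id)).div_const _).smul
            contDiff_const
      · intro t
        refine ver_mem ?_
        have hxu : (inner ℝ u x : ℝ) = 0 := by rw [real_inner_comm]; exact hu
        simp only [inner_add_left, inner_add_right, inner_smul_left, inner_smul_right, hx, hu, hxu,
          real_inner_self_eq_norm_sq u, conj_trivial]
        have h5 := Real.sin_sq_add_cos_sq (‖u‖ * t)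
        have h6 : Real.sin (‖u‖ * t) / ‖u‖ * (Real.sin (‖u‖ * t) / ‖u‖ * ‖u‖ ^ 2) =
            Real.sin (‖u‖ * t) ^ 2 := by field_simp
        linarith
      · simp
      · have hd : HasDerivAt (fun t => Real.cos (‖u‖ * t) • x + (Real.sin (‖u‖ * t) / ‖u‖) • u)
            u 0 := by
          have hlin : HasDerivAt (fun t : ℝ => ‖u‖ * t) ‖u‖ 0 := by
            simpa using (hasDerivAt_id (0 : ℝ)).const_mul ‖u‖
          have h1 : HasDerivAt (fun t => Real.cos (‖u‖ * t)) 0 0 := by
            have := hlin.cos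
            simpa using this
          have h2 : HasDerivAt (fun t => Real.sin (‖u‖ * t) / ‖u‖) 1 0 := by
            have := hlin.sin.div_const ‖u‖
            simpa [hs] using this
          have h3 := (h1.smul_const x).add (h2.smul_const u)
          rw [zero_smul, one_smul, zero_add] at h3
          exact h3
        have := (hasDerivAt_ver hd).deriv
        rw [this]
        simp

lemma dver_A_mem (x : V n) (i j : Fin (n + 1)) : dver x (A i j x) ∈ Tx x :=
  (mem_Tx x _).2 ⟨_, inner_A_self' i j x, rfl⟩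

lemma frame_Tx {x : V n} (hx : inner ℝ x x = (1 : ℝ)) {w : EE n} (hw : w ∈ Tx x) :
    ∑ i, ∑ j, (inner ℝ (dver x (A i j x)) w : ℝ) • dver x (A i j x) = (4 * sc n ^ 2) • w := by
  obtain ⟨u, hu, rfl⟩ := (mem_Tx x w).1 hw
  have h1 : ∀ i j, (inner ℝ (dver x (A i j x)) (dver x u) : ℝ) • dver x (A i j x) =
      dverL x ((2 * sc n ^ 2) • ((inner ℝ (A i j x) u : ℝ) • A i j x)) := by
    intro i j
    rw [inner_dver, hx, inner_A_self', map_smul, map_smul, smul_smul]
    show _ = _ • dver x (A i j x)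
    congr 1
    ring
  rw [Finset.sum_congr rfl fun i _ => Finset.sum_congr rfl fun j _ => h1 i j]
  simp only [← map_sum, ← Finset.smul_sum]
  rw [sum_A_frame, hx, hu]
  simp only [one_smul, zero_smul, sub_zero]
  rw [smul_smul, map_smul]
  show _ • dver x u = _
  congr 1
  ring

/-- The tangential divergence in terms of the rotation frame. -/
lemma tdiv_eq (hn : 0 < n) {x : V n} (hx : inner ℝ x x = (1 : ℝ)) (Y : EE n → EE n) :
    4 * sc n ^ 2 * tdiv (Mv n) Y (ver x) =
      ∑ i, ∑ j, (inner ℝ (fderiv ℝ Y (ver x) (dver x (A i j x))) (dver x (A i j x)) : ℝ) := by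
  set K := fderiv ℝ Y (ver x) with hK
  set T := tangent (Mv n) (ver x) with hT
  have hTx : T = Tx x := tangent_eq hn hx
  set b := stdOrthonormalBasis ℝ T with hb
  have hmem : ∀ i j, dver x (A i j x) ∈ T := fun i j => by rw [hTx]; exact dver_A_mem x i j
  have hexp : ∀ i j, dver x (A i j x) =
      ∑ k, (inner ℝ (dver x (A i j x)) (b k : EE n) : ℝ) • (b k : EE n) := by
    intro i j
    have h := b.sum_repr' ⟨dver x (A i j x), hmem i j⟩
    have h2 := congrArg (Subtype.val : T → EE n) h
    rw [Submodule.coe_sum] at h2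
    simp only [Submodule.coe_smul] at h2
    rw [← h2]
    refine Finset.sum_congr rfl fun k _ => ?_
    congr 1
    rw [h2, real_inner_comm]
    rfl
  have h1 : ∀ i j, (inner ℝ (K (dver x (A i j x))) (dver x (A i j x)) : ℝ) =
      ∑ k, (inner ℝ (K ((inner ℝ (dver x (A i j x)) (b k : EE n) : ℝ) • dver x (A i j x)))
        (b k : EE n) : ℝ) := by
    intro i j
    have h := congrArg (fun z => (inner ℝ (K (dver x (A i j x))) z : ℝ)) (hexp i j)
    refine h.trans ?_
    show (inner ℝ _ (∑ k, _) : ℝ) = _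
    rw [inner_sum]
    refine Finset.sum_congr rfl fun k _ => ?_
    rw [inner_smul_right, map_smul, inner_smul_left]
    rfl
  rw [Finset.sum_congr rfl fun i _ => Finset.sum_congr rfl fun j _ => h1 i j]
  have h2 : ∑ i, ∑ j, ∑ k, (inner ℝ (K ((inner ℝ (dver x (A i j x)) (b k : EE n) : ℝ) •
      dver x (A i j x))) (b k : EE n) : ℝ) =
      ∑ k, (inner ℝ (K (∑ i, ∑ j, (inner ℝ (dver x (A i j x)) (b k : EE n) : ℝ) •
        dver x (A i j x))) (b k : EE n) : ℝ) := by
    simp only [map_sum, sum_inner]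
    rw [Finset.sum_congr rfl fun i _ => Finset.sum_comm, Finset.sum_comm]
  rw [h2]
  unfold tdiv
  rw [Finset.mul_sum]
  refine Finset.sum_congr rfl fun k _ => ?_
  have hk : (b k : EE n) ∈ Tx x := hTx ▸ (b k).2
  rw [frame_Tx hx hk, map_smul, inner_smul_left]
  rfl

end Pool.Agent.Lib_helper74.EigVero
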