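import Pool.Agent.Lib_helper74.EigLap

/-!
The Laplacian of the Veronese manifold, continued; minimality.
-/

namespace Pool.Agent.Lib_helper74.EigVero

open scoped ContDiff
open Finset Pool.Agent.Lib_helper74.EigDefs

variable {n : ℕ}

lemma fderiv_comp_ver {W : Type} [NormedAddCommGroup W] [NormedSpace ℝ W] {F : EE n → W}
    (hF : ContDiff ℝ ∞ F) (x : V n) (i j : Fin (n + 1)) :
    fderiv ℝ (fun y => F (ver y)) x (A i j x) = fderiv ℝ F (ver x) (dver x (A i j x)) := by
  have hd := hasDerivAt_R i j x 0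
  have h1 : HasFDerivAt (fun y => F (ver y)) (fderiv ℝ (fun y => F (ver y)) (R i j 0 x))
      (R i j 0 x) :=
    ((hF.comp contDiff_ver).differentiable (by simp)).differentiableAt.hasFDerivAt
  have h2 := h1.comp_hasDerivAt (0 : ℝ) hd
  have h3 : HasFDerivAt F (fderiv ℝ F (ver (R i j 0 x))) (ver (R i j 0 x)) :=
    (hF.differentiable (by simp)).differentiableAt.hasFDerivAt
  have h4 := h3.comp_hasDerivAt (0 : ℝ) (hasDerivAt_ver hd)
  have h5 := h2.unique h4
  rw [R_zero] at h5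
  exact h5

lemma Ld_comp_ver {F : EE n → ℝ} (hF : ContDiff ℝ ∞ F) (x : V n) (i j : Fin (n + 1)) :
    Ld i j (fun y => F (ver y)) x = fderiv ℝ F (ver x) (dver x (A i j x)) :=
  fderiv_comp_ver hF x i j

lemma inner_Tx_ver {x : V n} {w : EE n} (hw : w ∈ Tx x) : inner ℝ w (ver x) = (0 : ℝ) := by
  obtain ⟨u, hu, rfl⟩ := (mem_Tx x w).1 hw
  exact inner_dver_ver x u hu

/-- The tangential divergence of a field with prescribed pairing. -/
lemma tdiv_key (hn : 0 < n) {Y : EE n → EE n} {G : V n → ℝ} (hY : ContDiff ℝ ∞ Y)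
    (hG : ContDiff ℝ ∞ G)
    (h : ∀ y : V n, inner ℝ y y = (1 : ℝ) → ∀ i j,
      inner ℝ (Y (ver y)) (dver y (A i j y)) = Ld i j G y) {x : V n}
    (hx : inner ℝ x x = (1 : ℝ)) :
    4 * sc n ^ 2 * tdiv (Mv n) Y (ver x) = LL G x + 4 * (n + 1) * inner ℝ (Y (ver x)) (ver x) := by
  have h1 := key_identity (Z := fun y => Y (ver y)) (hY.comp contDiff_ver) hG h x hx
  rw [tdiv_eq hn hx]
  refine Eq.trans ?_ h1
  refine Finset.sum_congr rfl fun i _ => Finset.sum_congr rfl fun j _ => ?_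
  rw [← fderiv_comp_ver hY x i j]

lemma laplacian_forward (hn : 0 < n) {f g : Mv n → ℝ} (h : IsLaplacian (Mv n) f g) :
    ∃ F : EE n → ℝ, ContDiff ℝ ∞ F ∧ (∀ q : Mv n, F q = f q) ∧
      ∀ (x : V n) (hx : inner ℝ x x = (1 : ℝ)),
        4 * sc n ^ 2 * g ⟨ver x, ver_mem hx⟩ = LL (fun y => F (ver y)) x := by
  obtain ⟨F, Y, hF, hY, hFf, hYt, hg⟩ := h
  refine ⟨F, hF, hFf, fun x hx => ?_⟩
  rw [hg ⟨ver x, ver_mem hx⟩]
  have h1 := tdiv_key hn hY (hF.comp contDiff_ver) (G := fun y => F (ver y)) (by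
    intro y hy i j
    rw [Ld_comp_ver hF]
    have := (hYt ⟨ver y, ver_mem hy⟩).2 (dver y (A i j y)) (by
      rw [tangent_eq hn hy]; exact dver_A_mem y i j)
    exact this) hx
  have h2 := (hYt ⟨ver x, ver_mem hx⟩).1
  rw [tangent_eq hn hx] at h2
  have h3 : inner ℝ (Y (ver x)) (ver x) = (0 : ℝ) := inner_Tx_ver h2
  rw [h3, mul_zero, add_zero] at h1
  exact h1

/-- The rotation fields on the space of matrices. -/
noncomputable def Xl (i j : Fin (n + 1)) : EE n →ₗ[ℝ] EE n where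
  toFun Q := WithLp.toLp 2 (fun p => (if p.1 = j then Q (i, p.2) else 0) -
    (if p.1 = i then Q (j, p.2) else 0) + (if p.2 = j then Q (p.1, i) else 0) -
    (if p.2 = i then Q (p.1, j) else 0))
  map_add' Q R := by
    ext p
    simp only [PiLp.add_apply]
    split_ifs <;> ring
  map_smul' c Q := by
    ext p
    simp only [PiLp.smul_apply, smul_eq_mul, RingHom.id_apply]
    split_ifs <;> ring

/-- The rotation fields on the space of matrices, continuous. -/
noncomputable def Xc (i j : Fin (n + 1)) : EE n →L[ℝ] EE n :=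
  LinearMap.toContinuousLinearMap (Xl i j)

lemma Xc_apply (i j : Fin (n + 1)) (Q : EE n) (p : Fin (n + 1) × Fin (n + 1)) :
    Xc i j Q p = (if p.1 = j then Q (i, p.2) else 0) -
    (if p.1 = i then Q (j, p.2) else 0) + (if p.2 = j then Q (p.1, i) else 0) -
    (if p.2 = i then Q (p.1, j) else 0) := rfl

lemma Xc_B (i j : Fin (n + 1)) (x y : V n) :
    Xc i j (B x y) = B (A i j x) y + B x (A i j y) := by
  ext p
  rw [Xc_apply]
  simp only [PiLp.add_apply, B_apply, A_apply]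
  split_ifs <;> ring

lemma Xc_J (i j : Fin (n + 1)) : Xc i j (J n) = 0 := by
  ext ⟨k, l⟩
  rw [Xc_apply]
  simp only [J_apply, PiLp.zero_apply]
  by_cases h1 : k = j <;> by_cases h2 : k = i <;> by_cases h3 : l = j <;> by_cases h4 : l = i <;>
    simp_all [eq_comm]

lemma Xc_ver (i j : Fin (n + 1)) (x : V n) : Xc i j (ver x) = dver x (A i j x) := by
  unfold ver dver
  rw [map_smul, map_sub, Xc_B, Xc_J, sub_zero, add_comm (B (A i j x) x)]

lemma laplacian_backward (hn : 0 < n) {F : EE n → ℝ} (hF : ContDiff ℝ ∞ F) {g : Mv n → ℝ}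
    (hg : ∀ (x : V n) (hx : inner ℝ x x = (1 : ℝ)),
        4 * sc n ^ 2 * g ⟨ver x, ver_mem hx⟩ = LL (fun y => F (ver y)) x) :
    IsLaplacian (Mv n) (fun q => F q) g := by
  have hsc := sc_pos hn
  have hsc2 : (4 * sc n ^ 2) ≠ 0 := by positivity
  set Y : EE n → EE n := fun q => (4 * sc n ^ 2)⁻¹ •
    ∑ i, ∑ j, (fderiv ℝ F q (Xc i j q)) • Xc i j q with hYdef
  have hY : ContDiff ℝ ∞ Y := by
    refine ContDiff.const_smul (4 * sc n ^ 2)⁻¹ ?_
    refine ContDiff.sum fun i _ => ContDiff.sum fun j _ => ?_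
    exact ((hF.fderiv_right (m := ∞) (by simp)).clm_apply (Xc i j).contDiff).smul
      (Xc i j).contDiff
  have hYver : ∀ y : V n, Y (ver y) = (4 * sc n ^ 2)⁻¹ •
      ∑ i, ∑ j, (fderiv ℝ F (ver y) (dver y (A i j y))) • dver y (A i j y) := by
    intro y
    rw [hYdef]
    simp only [Xc_ver]
  have hYmem : ∀ y : V n, Y (ver y) ∈ Tx y := by
    intro y
    rw [hYver]
    refine Submodule.smul_mem _ _ (Submodule.sum_mem _ fun i _ => Submodule.sum_mem _ fun j _ =>
      Submodule.smul_mem _ _ (dver_A_mem y i j))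
  have hpair : ∀ y : V n, inner ℝ y y = (1 : ℝ) → ∀ w ∈ Tx y,
      inner ℝ (Y (ver y)) w = fderiv ℝ F (ver y) w := by
    intro y hy w hw
    rw [hYver, inner_smul_left]
    have h1 : (inner ℝ (∑ i, ∑ j, (fderiv ℝ F (ver y) (dver y (A i j y))) • dver y (A i j y)) w : ℝ)
        = fderiv ℝ F (ver y) (∑ i, ∑ j, (inner ℝ (dver y (A i j y)) w : ℝ) • dver y (A i j y)) := by
      simp only [map_sum, sum_inner, inner_smul_left, map_smul, smul_eq_mul]
      refine Finset.sum_congr rfl fun i _ => Finset.sum_congr rfl fun j _ => ?_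
      simp
      ring
    rw [h1, frame_Tx hy hw, map_smul, smul_eq_mul]
    simp only [conj_trivial]
    field_simp
  refine ⟨F, Y, hF, hY, fun q => rfl, ?_, ?_⟩
  · rintro ⟨_, x, hx, rfl⟩
    rw [mem_sphere_iff] at hx
    rw [tangent_eq hn hx]
    exact ⟨hYmem x, hpair x hx⟩
  · rintro ⟨_, x, hx, rfl⟩
    rw [mem_sphere_iff] at hx
    have h1 := tdiv_key hn hY (hF.comp contDiff_ver) (G := fun y => F (ver y)) (by
      intro y hy i j
      rw [Ld_comp_ver hF]
      exact hpair y hy _ (dver_A_mem y i j)) hx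
    rw [inner_Tx_ver (hYmem x), mul_zero, add_zero, ← hg x hx] at h1
    exact (mul_left_cancel₀ hsc2 h1).symm

lemma minimal (hn : 0 < n) : IsMinimalInSphere (Mv n) := by
  rintro X hX hnor _ ⟨x, hx, rfl⟩
  rw [mem_sphere_iff] at hx
  have hsc := sc_pos hn
  have hsc2 : (4 * sc n ^ 2) ≠ 0 := by positivity
  have h1 := tdiv_key hn hX (contDiff_const (c := (0 : ℝ))) (by
    intro y hy i j
    have h2 := (hnor (ver y) (ver_mem hy)).1 (dver y (A i j y)) (by
      rw [tangent_eq hn hy]; exact dver_A_mem y i j)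
    rw [h2]
    unfold Ld
    simp) hx
  have h3 := (hnor (ver x) (ver_mem hx)).2
  have h4 : LL (fun _ : V n => (0 : ℝ)) x = 0 := by
    unfold LL Ld
    simp
  rw [h3, h4, mul_zero, add_zero] at h1
  exact (mul_eq_zero.1 h1).resolve_left hsc2

end Pool.Agent.Lib_helper74.EigVero
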