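import Pool.Agent.Lib_helper74.EigInt

/-!
The operator on powers of linear forms.
-/

namespace Pool.Agent.Lib_helper74.EigVero

open scoped ContDiff
open Finset MeasureTheory Pool.Agent.Lib_helper74.EigDefs

variable {n : ℕ}

lemma Ld_of_hasDerivAt {i j : Fin (n + 1)} {G : V n → ℝ} (hG : ContDiff ℝ ∞ G) {x : V n} {g : ℝ}
    (h : HasDerivAt (fun t => G (R i j t x)) g 0) : Ld i j G x = g := by
  have := hasDerivAt_comp_R i j hG x 0
  rw [R_zero] at this
  exact this.unique h

/-- Power of a linear form. -/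
noncomputable def pw (a : V n) (d : ℕ) (x : V n) : ℝ := (inner ℝ a x : ℝ) ^ d

lemma contDiff_pw (a : V n) (d : ℕ) : ContDiff ℝ ∞ (pw a d) := by
  unfold pw
  exact (contDiff_const.inner ℝ contDiff_id).pow d

lemma hasDerivAt_inner_R (a x : V n) (i j : Fin (n + 1)) (t : ℝ) :
    HasDerivAt (fun s => (inner ℝ a (R i j s x) : ℝ)) (inner ℝ a (A i j (R i j t x))) t := by
  have := (hasDerivAt_const t a).inner ℝ (hasDerivAt_R i j x t)
  simpa using this

lemma hasDerivAt_inner_AR (a x : V n) (i j : Fin (n + 1)) (t : ℝ) :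
    HasDerivAt (fun s => (inner ℝ a (A i j (R i j s x)) : ℝ))
      (inner ℝ a (A i j (A i j (R i j t x)))) t := by
  have h1 : HasDerivAt (fun s => A i j (R i j s x)) (A i j (A i j (R i j t x))) t :=
    (A i j).hasFDerivAt.comp_hasDerivAt t (hasDerivAt_R i j x t)
  have := (hasDerivAt_const t a).inner ℝ h1
  simpa using this

lemma Ld_pw (a : V n) (d : ℕ) (i j : Fin (n + 1)) (x : V n) :
    Ld i j (pw a (d + 1)) x = (d + 1) * (inner ℝ a x) ^ d * inner ℝ a (A i j x) := by
  refine Ld_of_hasDerivAt (contDiff_pw a (d + 1)) ?_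
  have := (hasDerivAt_inner_R a x i j 0).fun_pow (d + 1)
  rw [R_zero] at this
  simp only [Nat.add_sub_cancel, Nat.cast_add, Nat.cast_one] at this
  exact this

lemma Ld_Ld_pw (a : V n) (d : ℕ) (i j : Fin (n + 1)) (x : V n) :
    Ld i j (Ld i j (pw a (d + 2))) x =
      (d + 2) * ((d + 1) * (inner ℝ a x) ^ d * (inner ℝ a (A i j x)) ^ 2 +
        (inner ℝ a x) ^ (d + 1) * inner ℝ a (A i j (A i j x))) := by
  refine Ld_of_hasDerivAt (contDiff_Ld i j (contDiff_pw a (d + 2))) ?_
  have h1 : (fun t => Ld i j (pw a (d + 2)) (R i j t x)) =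
      fun t => (((d + 1 : ℕ) : ℝ) + 1) * (inner ℝ a (R i j t x)) ^ (d + 1) *
        inner ℝ a (A i j (R i j t x)) := by
    funext t
    exact Ld_pw a (d + 1) i j _
  rw [h1]
  have h2 := ((hasDerivAt_inner_R a x i j 0).fun_pow (d + 1)).const_mul (((d + 1 : ℕ) : ℝ) + 1)
  have h3 := h2.fun_mul (hasDerivAt_inner_AR a x i j 0)
  simp only [R_zero, Nat.add_sub_cancel] at h3
  refine h3.congr_deriv ?_
  push_cast
  ring

lemma sum_inner_A_sq (a x : V n) :
    ∑ i, ∑ j, (inner ℝ a (A i j x) : ℝ) ^ 2 =
      2 * (inner ℝ x x * inner ℝ a a - (inner ℝ a x) ^ 2) := by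
  have h := congrArg (fun z => (inner ℝ a z : ℝ)) (sum_A_frame x a)
  simp only [inner_sum, inner_smul_right, inner_sub_right] at h
  rw [← real_inner_comm a x] at h
  rw [show ∑ i, ∑ j, (inner ℝ a (A i j x) : ℝ) ^ 2 =
    ∑ i, ∑ j, (inner ℝ (A i j x) a : ℝ) * inner ℝ a (A i j x) from
    Finset.sum_congr rfl fun i _ => Finset.sum_congr rfl fun j _ => by
      rw [real_inner_comm a (A i j x)]; ring, h]
  rw [real_inner_comm a x]
  ring

lemma sum_inner_A_mul (a b x : V n) :
    ∑ i, ∑ j, (inner ℝ a (A i j x) : ℝ) * inner ℝ b (A i j x) =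
      2 * (inner ℝ x x * inner ℝ a b - inner ℝ a x * inner ℝ b x) := by
  have h := congrArg (fun z => (inner ℝ b z : ℝ)) (sum_A_frame x a)
  simp only [inner_sum, inner_smul_right, inner_sub_right] at h
  rw [show ∑ i, ∑ j, (inner ℝ a (A i j x) : ℝ) * inner ℝ b (A i j x) =
    ∑ i, ∑ j, (inner ℝ (A i j x) a : ℝ) * inner ℝ b (A i j x) from
    Finset.sum_congr rfl fun i _ => Finset.sum_congr rfl fun j _ => by
      rw [real_inner_comm a (A i j x)], h]
  rw [real_inner_comm a x, real_inner_comm b a]

lemma sum_inner_AA (a x : V n) :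
    ∑ i, ∑ j, (inner ℝ a (A i j (A i j x)) : ℝ) = -(2 * n) * inner ℝ a x := by
  have h := congrArg (fun z => (inner ℝ a z : ℝ)) (sum_A_sq x)
  simp only [inner_sum, inner_smul_right] at h
  exact h

lemma LL_pw (a : V n) (d : ℕ) (x : V n) (hx : inner ℝ x x = (1 : ℝ)) :
    LL (pw a (d + 2)) x = -2 * ((d + 2) * (d + 2 + n - 1)) * pw a (d + 2) x +
      2 * (d + 2) * (d + 1) * inner ℝ a a * pw a d x := by
  unfold LL
  simp only [Ld_Ld_pw, ← Finset.mul_sum, Finset.sum_add_distrib]
  rw [sum_inner_A_sq, sum_inner_AA, hx]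
  unfold pw
  ring

lemma LL_pw_zero (a : V n) (x : V n) : LL (pw a 0) x = 0 := by
  have : pw a 0 = fun _ => (1 : ℝ) := by
    funext y
    simp [pw]
  rw [this]
  unfold LL Ld
  simp

/-- Orthogonality to all powers of linear forms. -/
lemma orth {G : V n → ℝ} (hG : ContDiff ℝ ∞ G) {ν : ℝ}
    (hL : ∀ x : V n, inner ℝ x x = (1 : ℝ) → LL G x = -2 * ν * G x)
    (hev : ∀ x : V n, G (-x) = G x)
    (h0 : ∀ k : ℕ, (2 * k : ℝ) * (2 * k + n - 1) = ν → ∀ a : V n,
      ∫ x : SS n, G x * pw a (2 * k) x ∂(sig n) = 0) (d : ℕ) (a : V n) :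
    ∫ x : SS n, G x * pw a d x ∂(sig n) = 0 := by
  have hLx : ∀ x : SS n, LL G x = -2 * ν * G x := fun x => hL x ((mem_sphere_iff _).1 x.2)
  have hint : ∀ k, Integrable (fun x : SS n => G x * pw a k x) (sig n) := fun k =>
    integrable_cont ((hG.continuous.mul (contDiff_pw a k).continuous).comp continuous_subtype_val)
  have hsym : ∀ k, -2 * ν * ∫ x : SS n, G x * pw a k x ∂(sig n) =
      ∫ x : SS n, G x * LL (pw a k) x ∂(sig n) := by
    intro k
    rw [← LL_symm hG (contDiff_pw a k), ← integral_const_mul]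
    refine integral_congr_ae (Filter.Eventually.of_forall fun x => ?_)
    show -2 * ν * (G x * pw a k x) = LL G x * pw a k x
    rw [hLx]
    ring
  rcases Nat.even_or_odd' d with ⟨k, hk | hk⟩
  · subst hk
    induction k with
    | zero =>
      by_cases hν : ν = 0
      · exact h0 0 (by rw [hν]; push_cast; ring) a
      · have h1 := hsym 0
        have h2 : ∫ x : SS n, G x * LL (pw a 0) x ∂(sig n) = 0 := by
          have : ∀ x : SS n, G x * LL (pw a 0) x = 0 := fun x => by rw [LL_pw_zero, mul_zero]
          rw [integral_congr_ae (Filter.Eventually.of_forall this)]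
          simp
        rw [h2] at h1
        have h3 : -2 * ν ≠ 0 := mul_ne_zero (by norm_num) hν
        exact (mul_eq_zero.1 h1).resolve_left h3
    | succ k ih =>
      by_cases hν : (2 * (k + 1 : ℕ) : ℝ) * (2 * (k + 1 : ℕ) + n - 1) = ν
      · exact h0 (k + 1) hν a
      · have h1 := hsym (2 * (k + 1))
        have h2 : ∀ x : SS n, G x * LL (pw a (2 * (k + 1))) x =
            -2 * ((2 * (k + 1 : ℕ) : ℝ) * (2 * (k + 1 : ℕ) + n - 1)) *
              (G x * pw a (2 * (k + 1)) x) +
            2 * (2 * k + 2) * (2 * k + 1) * inner ℝ a a * (G x * pw a (2 * k) x) := by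
          intro x
          have h3 := LL_pw a (2 * k) x ((mem_sphere_iff _).1 x.2)
          rw [show 2 * (k + 1) = 2 * k + 2 by ring, h3]
          push_cast
          ring
        rw [integral_congr_ae (Filter.Eventually.of_forall h2), integral_add, integral_const_mul,
          integral_const_mul, ih, mul_zero, add_zero] at h1
        · have h4 : (ν - (2 * (k + 1 : ℕ) : ℝ) * (2 * (k + 1 : ℕ) + n - 1)) *
              ∫ x : SS n, G x * pw a (2 * (k + 1)) x ∂(sig n) = 0 := by linarith
          exact (mul_eq_zero.1 h4).resolve_left (sub_ne_zero.2 (Ne.symm hν))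
        · exact (hint _).const_mul _
        · exact (hint _).const_mul _
  · have h1 := integral_sph (LinearIsometryEquiv.neg ℝ) (fun x : V n => G x * pw a d x)
    have h2 : ∀ x : SS n, G (LinearIsometryEquiv.neg ℝ (x : V n)) *
        pw a d (LinearIsometryEquiv.neg ℝ (x : V n)) = - (G x * pw a d x) := by
      intro x
      show G (-x) * pw a d (-x) = _
      rw [hev]
      unfold pw
      rw [inner_neg_right, hk, Odd.neg_pow ⟨k, rfl⟩]
      ring
    rw [integral_congr_ae (Filter.Eventually.of_forall h2), integral_neg] at h1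
    linarith

/-- Continuous functions orthogonal to all powers of linear forms vanish. -/
lemma dens (g : C(SS n, ℝ)) (h : ∀ (d : ℕ) (a : V n), ∫ x : SS n, g x * pw a d x ∂(sig n) = 0) :
    g = 0 := by
  -- exponentials
  have hexp : ∀ a : V n, ∫ x : SS n, g x * Real.exp (inner ℝ a (x : V n)) ∂(sig n) = 0 := by
    intro a
    have hterm : ∀ d : ℕ, ∫ x : SS n, g x * (pw a d x / (d.factorial : ℝ)) ∂(sig n) = 0 := by
      intro d
      have : ∀ x : SS n, g x * (pw a d x / (d.factorial : ℝ)) =
          (d.factorial : ℝ)⁻¹ * (g x * pw a d x) := fun x => by ring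
      rw [integral_congr_ae (Filter.Eventually.of_forall this), integral_const_mul, h, mul_zero]
    have hcont : ∀ d : ℕ, Continuous (fun x : SS n => g x * (pw a d x / (d.factorial : ℝ))) :=
      fun d => g.continuous.mul (((contDiff_pw a d).continuous.comp
        continuous_subtype_val).div_const _)
    have hbound : ∀ (d : ℕ) (x : SS n), ‖g x * (pw a d x / (d.factorial : ℝ))‖ ≤
        ‖g‖ * (‖a‖ ^ d / (d.factorial : ℝ)) := by
      intro d x
      rw [norm_mul, norm_div, Real.norm_natCast]
      have h1 : ‖g x‖ ≤ ‖g‖ := g.norm_coe_le_norm x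
      have h2 : ‖pw a d x‖ ≤ ‖a‖ ^ d := by
        unfold pw
        rw [norm_pow]
        refine pow_le_pow_left₀ (norm_nonneg _) ?_ d
        have h3 := norm_inner_le_norm (𝕜 := ℝ) a (x : V n)
        have h4 : ‖(x : V n)‖ = 1 := mem_sphere_zero_iff_norm.1 x.2
        rw [h4, mul_one] at h3
        exact h3
      gcongr
    have hs := hasSum_integral_of_summable_integral_norm (μ := sig n)
      (F := fun (d : ℕ) (x : SS n) => g x * (pw a d x / (d.factorial : ℝ)))
      (fun d => integrable_cont (hcont d)) (by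
        refine Summable.of_nonneg_of_le (fun d => integral_nonneg fun x => norm_nonneg _)
          (fun d => ?_) (((Real.summable_pow_div_factorial ‖a‖).mul_left ‖g‖).mul_left
            ((sig n).real Set.univ))
        have := integral_mono (μ := sig n) (integrable_cont (hcont d).norm)
          (integrable_const (‖g‖ * (‖a‖ ^ d / (d.factorial : ℝ)))) (fun x => hbound d x)
        refine this.trans (le_of_eq ?_)
        rw [integral_const, smul_eq_mul])
    simp only [hterm] at hs
    have h5 := hs.unique hasSum_zero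
    rw [← h5]
    refine integral_congr_ae (Filter.Eventually.of_forall fun x => ?_)
    show g x * Real.exp (inner ℝ a (x : V n)) = ∑' d : ℕ, g x * (pw a d x / (d.factorial : ℝ))
    rw [tsum_mul_left, Real.exp_eq_exp_ℝ, NormedSpace.exp_eq_tsum_div]
    rfl
  set E : V n → C(SS n, ℝ) := fun a =>
    ⟨fun x => Real.exp (inner ℝ a (x : V n)), by fun_prop⟩ with hE
  set S : Subalgebra ℝ C(SS n, ℝ) := Algebra.adjoin ℝ (Set.range E) with hS
  have hsep : S.SeparatesPoints := by
    intro x y hxy
    refine ⟨fun z => Real.exp (inner ℝ ((x : V n) - y) (z : V n)), ⟨E (x - y),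
      Algebra.subset_adjoin ⟨_, rfl⟩, rfl⟩, ?_⟩
    intro heq
    have h1 := Real.exp_injective heq
    have h2 : (inner ℝ ((x : V n) - y) ((x : V n) - y) : ℝ) = 0 := by
      rw [inner_sub_right, h1, sub_self]
    have h3 := inner_self_eq_zero.1 h2
    exact hxy (Subtype.ext (sub_eq_zero.1 h3))
  have htop := ContinuousMap.subalgebra_topologicalClosure_eq_top_of_separatesPoints S hsep
  -- the functional
  set L : C(SS n, ℝ) →ₗ[ℝ] ℝ :=
    { toFun := fun f => ∫ x : SS n, g x * f x ∂(sig n)
      map_add' := fun f1 f2 => by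
        have : ∀ x : SS n, g x * (f1 + f2) x = g x * f1 x + g x * f2 x := fun x => by
          simp [mul_add]
        rw [integral_congr_ae (Filter.Eventually.of_forall this)]
        exact integral_add (integrable_cont (g.continuous.mul f1.continuous))
          (integrable_cont (g.continuous.mul f2.continuous))
      map_smul' := fun c f1 => by
        have : ∀ x : SS n, g x * (c • f1) x = c * (g x * f1 x) := fun x => by
          simp
          ring
        rw [integral_congr_ae (Filter.Eventually.of_forall this), integral_const_mul]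
        rfl } with hL
  have hLc : Continuous L := by
    refine (L.mkContinuous (‖g‖ * (sig n).real Set.univ) fun f => ?_).continuous
    have := norm_integral_le_of_norm_le_const (μ := sig n) (f := fun x : SS n => g x * f x)
      (C := ‖g‖ * ‖f‖) (Filter.Eventually.of_forall fun x => by
        rw [norm_mul]
        have h1 : ‖g x‖ ≤ ‖g‖ := g.norm_coe_le_norm x
        have h2 : ‖f x‖ ≤ ‖f‖ := f.norm_coe_le_norm x
        gcongr)
    refine this.trans (le_of_eq ?_)
    ring
  set K : Set C(SS n, ℝ) := {f | L f = 0} with hK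
  have hKclosed : IsClosed K := isClosed_eq hLc continuous_const
  have hSK : (S : Set C(SS n, ℝ)) ⊆ K := by
    intro f hf
    have hf' : f ∈ Subalgebra.toSubmodule S := hf
    rw [hS, Algebra.adjoin_eq_span] at hf'
    have h3 : Submodule.span ℝ (Submonoid.closure (Set.range E) : Set C(SS n, ℝ)) ≤
        LinearMap.ker L := by
      refine Submodule.span_le.2 ?_
      intro f hf
      have : ∃ a, E a = f := by
        refine Submonoid.closure_induction (fun y hy => hy) ⟨0, ?_⟩ ?_ hf
        · ext x
          simp [hE]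
        · rintro _ _ _ _ ⟨a, rfl⟩ ⟨b, rfl⟩
          refine ⟨a + b, ?_⟩
          ext x
          simp [hE, inner_add_left, Real.exp_add]
      obtain ⟨a, rfl⟩ := this
      exact hexp a
    exact h3 hf'
  have hg : g ∈ K := by
    have h1 : g ∈ S.topologicalClosure := by rw [htop]; trivial
    have h2 : g ∈ closure (S : Set C(SS n, ℝ)) := h1
    exact hKclosed.closure_subset_iff.2 hSK h2
  have hgg : ∫ x : SS n, g x * g x ∂(sig n) = 0 := hg
  have hae := (integral_eq_zero_iff_of_nonneg (fun x => mul_self_nonneg (g x))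
    (integrable_cont (g.continuous.mul g.continuous))).1 hgg
  have hfun := (g.continuous.mul g.continuous).ae_eq_iff_eq (sig n)
    (continuous_const (y := (0 : ℝ))) |>.1 hae
  ext x
  have := congrFun hfun x
  exact mul_self_eq_zero.1 this

end Pool.Agent.Lib_helper74.EigVero
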