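import Pool.Agent.Lib_helper74.EigVero

/-!
Rotation fields.
-/

namespace Pool.Agent.Lib_helper74.EigVero

open scoped ContDiff
open Finset Pool.Agent.Lib_helper74.EigDefs

variable {n : ℕ}

/-- Standard basis vector. -/
noncomputable def e (i : Fin (n + 1)) : V n := EuclideanSpace.single i 1

lemma e_apply (i j : Fin (n + 1)) : (e i : V n) j = if j = i then 1 else 0 := by
  simp [e]

/-- Infinitesimal rotation. -/
noncomputable def Al (i j : Fin (n + 1)) : V n →ₗ[ℝ] V n where
  toFun x := x i • e j - x j • e i
  map_add' x y := by simp only [PiLp.add_apply]; module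
  map_smul' c x := by simp only [PiLp.smul_apply, smul_eq_mul, RingHom.id_apply]; module

/-- Infinitesimal rotation, continuous. -/
noncomputable def A (i j : Fin (n + 1)) : V n →L[ℝ] V n := LinearMap.toContinuousLinearMap (Al i j)

lemma A_def (i j : Fin (n + 1)) (x : V n) : A i j x = x i • e j - x j • e i := rfl

lemma A_apply (i j k : Fin (n + 1)) (x : V n) :
    A i j x k = x i * (if k = j then 1 else 0) - x j * (if k = i then 1 else 0) := by
  rw [A_def]
  simp only [PiLp.sub_apply, PiLp.smul_apply, smul_eq_mul, e_apply]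

lemma inner_e (x : V n) (i : Fin (n + 1)) : inner ℝ x (e i) = x i := by
  rw [inner_eq]; simp [e_apply]

lemma inner_e' (x : V n) (i : Fin (n + 1)) : inner ℝ (e i) x = x i := by
  rw [inner_eq]; simp [e_apply]

lemma inner_A (i j : Fin (n + 1)) (x y : V n) : inner ℝ (A i j x) y = x i * y j - x j * y i := by
  rw [A_def, inner_sub_left, inner_smul_left, inner_smul_left, inner_e', inner_e']
  simp

lemma inner_A' (i j : Fin (n + 1)) (x y : V n) : inner ℝ y (A i j x) = x i * y j - x j * y i := by
  rw [real_inner_comm, inner_A]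

lemma A_skew (i j : Fin (n + 1)) (x y : V n) : inner ℝ (A i j x) y = - inner ℝ x (A i j y) := by
  rw [inner_A, inner_A']
  ring

lemma inner_A_self (i j : Fin (n + 1)) (x : V n) : inner ℝ (A i j x) x = 0 := by
  rw [inner_A]; ring

lemma inner_A_self' (i j : Fin (n + 1)) (x : V n) : inner ℝ x (A i j x) = 0 := by
  rw [inner_A']; ring

lemma A_cube (i j : Fin (n + 1)) (x : V n) : A i j (A i j (A i j x)) = - A i j x := by
  by_cases h : i = j
  · subst h
    ext k
    simp [A_apply]
  · have h' : j ≠ i := fun hh => h hh.symm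
    ext k
    simp only [A_apply, PiLp.neg_apply, h, h', if_true, if_false]
    ring

/-- Rotation by the angle `t`. -/
noncomputable def R (i j : Fin (n + 1)) (t : ℝ) (x : V n) : V n :=
  x + Real.sin t • A i j x + (1 - Real.cos t) • A i j (A i j x)

lemma R_zero (i j : Fin (n + 1)) (x : V n) : R i j 0 x = x := by
  simp [R]

lemma hasDerivAt_R (i j : Fin (n + 1)) (x : V n) (t : ℝ) :
    HasDerivAt (fun s => R i j s x) (A i j (R i j t x)) t := by
  have h1 : HasDerivAt (fun s => Real.sin s • A i j x) (Real.cos t • A i j x) t :=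
    (Real.hasDerivAt_sin t).smul_const _
  have h2 : HasDerivAt (fun s => (1 - Real.cos s) • A i j (A i j x))
      ((0 - -Real.sin t) • A i j (A i j x)) t :=
    ((hasDerivAt_const t (1 : ℝ)).sub (Real.hasDerivAt_cos t)).smul_const _
  have h3 := ((hasDerivAt_const t x).add h1).add h2
  have h4 : A i j (R i j t x) =
      0 + Real.cos t • A i j x + (0 - -Real.sin t) • A i j (A i j x) := by
    unfold R
    rw [map_add, map_add, map_smul, map_smul, A_cube]
    module
  rw [h4]
  exact h3

lemma inner_R (i j : Fin (n + 1)) (t : ℝ) (x : V n) :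
    inner ℝ (R i j t x) (R i j t x) = (inner ℝ x x : ℝ) := by
  have hc := Real.sin_sq_add_cos_sq t
  have h0 : inner ℝ x (A i j x) = (0 : ℝ) := inner_A_self' i j x
  have h0' : inner ℝ (A i j x) x = (0 : ℝ) := inner_A_self i j x
  have h1 : inner ℝ x (A i j (A i j x)) = -(inner ℝ (A i j x) (A i j x) : ℝ) := by
    rw [A_skew i j x]; ring
  have h1' : inner ℝ (A i j (A i j x)) x = -(inner ℝ (A i j x) (A i j x) : ℝ) := by
    rw [real_inner_comm, h1]
  have h2 : inner ℝ (A i j x) (A i j (A i j x)) = (0 : ℝ) := inner_A_self' i j _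
  have h2' : inner ℝ (A i j (A i j x)) (A i j x) = (0 : ℝ) := inner_A_self i j _
  have h3 : inner ℝ (A i j (A i j x)) (A i j (A i j x)) = (inner ℝ (A i j x) (A i j x) : ℝ) := by
    rw [A_skew, A_cube, inner_neg_right, neg_neg]
  unfold R
  simp only [inner_add_left, inner_add_right, inner_smul_left, inner_smul_right, h0, h0', h1, h1',
    h2, h2', h3, conj_trivial]
  have : (Real.sin t ^ 2 + Real.cos t ^ 2 - 1) * (inner ℝ (A i j x) (A i j x) : ℝ) = 0 := by
    rw [hc]; ring
  linarith [this]

/-- Rotation as a linear isometry. -/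
noncomputable def Rl (i j : Fin (n + 1)) (t : ℝ) : V n →ₗ[ℝ] V n where
  toFun := R i j t
  map_add' x y := by unfold R; simp only [map_add]; module
  map_smul' c x := by unfold R; simp only [map_smul, RingHom.id_apply]; module

lemma norm_R (i j : Fin (n + 1)) (t : ℝ) (x : V n) : ‖R i j t x‖ = ‖x‖ := by
  have h := inner_R i j t x
  rw [real_inner_self_eq_norm_sq, real_inner_self_eq_norm_sq] at h
  have h1 := norm_nonneg (R i j t x)
  have h2 := norm_nonneg x
  nlinarith

/-- Rotation as a linear isometric equivalence. -/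
noncomputable def Re (i j : Fin (n + 1)) (t : ℝ) : V n ≃ₗᵢ[ℝ] V n :=
  LinearIsometry.toLinearIsometryEquiv ⟨Rl i j t, norm_R i j t⟩ rfl

lemma Re_apply (i j : Fin (n + 1)) (t : ℝ) (x : V n) : Re i j t x = R i j t x := rfl

/-! ### Frame identities -/

lemma sum_pick (f : Fin (n + 1) → Fin (n + 1) → ℝ) (x : V n) (k : Fin (n + 1)) :
    ∑ i, ∑ j, f i j * (A i j x k) = ∑ i, f i k * x i - ∑ j, f k j * x j := by
  have h1 : ∀ i, ∑ j, f i j * (A i j x k) =
      f i k * x i - (if k = i then ∑ j, f i j * x j else 0) := by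
    intro i
    have : ∀ j, f i j * (A i j x k) =
        (if k = j then f i j * x i else 0) - (if k = i then f i j * x j else 0) := by
      intro j
      rw [A_apply]
      split_ifs <;> ring
    rw [Finset.sum_congr rfl fun j _ => this j, Finset.sum_sub_distrib, Finset.sum_ite_eq]
    simp only [Finset.mem_univ, if_true]
    congr 1
    split_ifs <;> simp
  rw [Finset.sum_congr rfl fun i _ => h1 i, Finset.sum_sub_distrib, Finset.sum_ite_eq]
  simp

lemma sum_A_frame (x u : V n) :
    ∑ i, ∑ j, (inner ℝ (A i j x) u : ℝ) • A i j x =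
      (2 : ℝ) • ((inner ℝ x x : ℝ) • u - (inner ℝ x u : ℝ) • x) := by
  ext k
  simp only [WithLp.ofLp_sum, Finset.sum_apply, PiLp.smul_apply, smul_eq_mul, PiLp.sub_apply]
  rw [sum_pick, inner_eq, inner_eq]
  simp only [inner_A]
  have e1 : ∑ i, (x i * u k - x k * u i) * x i =
      (∑ i, x i * x i) * u k - (∑ i, x i * u i) * x k := by
    rw [Finset.sum_mul, Finset.sum_mul, ← Finset.sum_sub_distrib]
    exact Finset.sum_congr rfl fun i _ => by ring
  have e2 : ∑ j, (x k * u j - x j * u k) * x j =
      (∑ i, x i * u i) * x k - (∑ i, x i * x i) * u k := by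
    rw [Finset.sum_mul, Finset.sum_mul, ← Finset.sum_sub_distrib]
    exact Finset.sum_congr rfl fun i _ => by ring
  rw [e1, e2]
  ring

lemma sum_A_sq (x : V n) : ∑ i, ∑ j, A i j (A i j x) = (-(2 * n) : ℝ) • x := by
  ext k
  simp only [WithLp.ofLp_sum, Finset.sum_apply, PiLp.smul_apply, smul_eq_mul]
  have h : ∀ i j, A i j (A i j x) k = (if k = j then -x k else 0) + (if k = i then -x k else 0) +
      (if i = j then (if k = i then 2 * x k else 0) else 0) := by
    intro i j
    by_cases hij : i = j
    · subst hij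
      by_cases hk : k = i
      · subst hk; simp [A_apply]; ring
      · simp [A_apply, hk]
    · have hji : j ≠ i := fun hh => hij hh.symm
      by_cases hk : k = i
      · subst hk
        simp only [A_apply, hij, if_neg hji, if_false, if_true]
        ring
      · by_cases hk' : k = j
        · subst hk'; simp [A_apply, hij, hji]
        · simp [A_apply, hk, hk', hij, hji]
  rw [Finset.sum_congr rfl fun i _ => Finset.sum_congr rfl fun j _ => h i j]
  simp only [Finset.sum_add_distrib, Finset.sum_ite_eq, Finset.mem_univ, if_true,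
    Finset.sum_const, Finset.card_univ, Fintype.card_fin, nsmul_eq_mul]
  have h2 : ∑ x_1 : Fin (n + 1), ∑ _x_2 : Fin (n + 1), (if k = x_1 then -x k else 0) =
      -((n + 1 : ℝ) * x k) := by
    simp only [Finset.sum_const, Finset.card_univ, Fintype.card_fin, nsmul_eq_mul, mul_ite,
      mul_zero, Finset.sum_ite_eq, Finset.mem_univ, if_true]
    push_cast
    ring
  simp only [mul_ite, mul_zero, Finset.sum_ite_eq, Finset.mem_univ, if_true]
  push_cast
  ring

lemma sum_B_A (x : V n) : ∑ i, ∑ j, B (A i j x) (A i j x) =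
    (2 : ℝ) • (((n + 1 : ℝ) * inner ℝ x x) • J n - B x x) := by
  ext ⟨k, l⟩
  simp only [WithLp.ofLp_sum, Finset.sum_apply, PiLp.smul_apply, smul_eq_mul, PiLp.sub_apply,
    B_apply, J_apply]
  rw [sum_pick (fun i j => A i j x k) x l]
  have hN : (n + 1 : ℝ) ≠ 0 := by positivity
  have e1 : ∑ i, A i l x k * x i =
      (if k = l then ∑ i, x i * x i else 0) - x l * x k := by
    have : ∀ i, A i l x k * x i = (if k = l then x i * x i else 0) -
        (if k = i then x l * x i else 0) := by
      intro i
      rw [A_apply]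
      split_ifs <;> ring
    rw [Finset.sum_congr rfl fun i _ => this i, Finset.sum_sub_distrib, Finset.sum_ite_eq]
    simp only [Finset.mem_univ, if_true]
    congr 1
    split_ifs <;> simp
  have e2 : ∑ j, A l j x k * x j =
      x l * x k - (if k = l then ∑ i, x i * x i else 0) := by
    have : ∀ j, A l j x k * x j = (if k = j then x l * x j else 0) -
        (if k = l then x j * x j else 0) := by
      intro i
      rw [A_apply]
      split_ifs <;> ring
    rw [Finset.sum_congr rfl fun i _ => this i, Finset.sum_sub_distrib, Finset.sum_ite_eq]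
    simp only [Finset.mem_univ, if_true]
    congr 1
    split_ifs <;> simp
  rw [e1, e2, inner_eq]
  split_ifs
  · field_simp
    ring
  · ring

end Pool.Agent.Lib_helper74.EigVero
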