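import Pool.Agent.Lib_helper74.EigHarm

/-!
The spectrum of the Veronese manifold.
-/

namespace Pool.Agent.Lib_helper74.EigVero

open scoped ContDiff
open Finset MeasureTheory Pool.Agent.Lib_helper74.EigDefs

variable {n : ℕ}

lemma contDiff_comp_ver {F : EE n → ℝ} (hF : ContDiff ℝ ∞ F) :
    ContDiff ℝ ∞ (fun y : V n => F (ver y)) := hF.comp contDiff_ver

lemma LL_add {G H : V n → ℝ} (hG : ContDiff ℝ ∞ G) (hH : ContDiff ℝ ∞ H) (x : V n) :
    LL (fun y => G y + H y) x = LL G x + LL H x := by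
  unfold LL
  simp only [← Finset.sum_add_distrib]
  refine Finset.sum_congr rfl fun i _ => Finset.sum_congr rfl fun j _ => ?_
  have h1 : Ld i j (fun y => G y + H y) = fun y => Ld i j G y + Ld i j H y := by
    funext y
    exact Ld_add i j hG hH y
  rw [h1, Ld_add i j (contDiff_Ld i j hG) (contDiff_Ld i j hH)]

lemma LL_const_mul (c : ℝ) {G : V n → ℝ} (hG : ContDiff ℝ ∞ G) (x : V n) :
    LL (fun y => c * G y) x = c * LL G x := by
  unfold LL
  simp only [Finset.mul_sum]
  refine Finset.sum_congr rfl fun i _ => Finset.sum_congr rfl fun j _ => ?_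
  have h1 : Ld i j (fun y => c * G y) = fun y => c * Ld i j G y := by
    funext y
    exact Ld_const_mul i j c hG y
  rw [h1, Ld_const_mul i j c (contDiff_Ld i j hG)]

/-- The eigenfunctions, seen on the sphere. -/
noncomputable def Eig (n : ℕ) (μ : ℝ) : Submodule ℝ (Mv n → ℝ) where
  carrier := {f | ∃ F : EE n → ℝ, ContDiff ℝ ∞ F ∧ (∀ q : Mv n, F q = f q) ∧
    ∀ x : V n, inner ℝ x x = (1 : ℝ) →
      LL (fun y => F (ver y)) x = -(4 * sc n ^ 2 * μ) * F (ver x)}
  add_mem' := by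
    rintro f g ⟨F, hF, hFf, hL⟩ ⟨G, hG, hGg, hM⟩
    refine ⟨fun q => F q + G q, hF.add hG, fun q => ?_, fun x hx => ?_⟩
    · show F q + G q = f q + g q
      rw [hFf, hGg]
    rw [LL_add (contDiff_comp_ver hF) (contDiff_comp_ver hG), hL x hx, hM x hx]
    ring
  zero_mem' := ⟨fun _ => 0, contDiff_const, fun q => rfl, fun x hx => by
    unfold LL Ld
    simp⟩
  smul_mem' := by
    rintro c f ⟨F, hF, hFf, hL⟩
    refine ⟨fun q => c * F q, contDiff_const.mul hF, fun q => ?_, fun x hx => ?_⟩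
    · show c * F q = c * f q
      rw [hFf]
    rw [LL_const_mul c (contDiff_comp_ver hF), hL x hx]
    ring

lemma eigenspace_eq (hn : 0 < n) (μ : ℝ) : eigenspace (Mv n) μ = Eig n μ := by
  have hsc := sc_pos hn
  have hsc2 : (4 * sc n ^ 2) ≠ 0 := by positivity
  apply le_antisymm
  · refine Submodule.span_le.2 ?_
    intro f hf
    obtain ⟨F, hF, hFf, hL⟩ := laplacian_forward hn hf
    refine ⟨F, hF, hFf, fun x hx => ?_⟩
    rw [← hL x hx, ← hFf ⟨ver x, ver_mem hx⟩]
    ring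
  · rintro f ⟨F, hF, hFf, hL⟩
    refine Submodule.subset_span ?_
    have h1 := laplacian_backward hn hF (g := fun q => -μ * F q) (fun x hx => by
      rw [hL x hx]
      ring)
    have h2 : (fun q : Mv n => F q) = f := funext hFf
    show IsLaplacian (Mv n) f (fun q => -μ * f q)
    have h3 : (fun q : Mv n => -μ * F q) = fun q => -μ * f q := by
      funext q
      rw [hFf]
    rw [← h2]
    exact h1

/-- The covering of the manifold by the sphere. -/
noncomputable def vS (x : SS n) : Mv n := ⟨ver x, x, x.2, rfl⟩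

lemma vS_surj (q : Mv n) : ∃ x : SS n, vS x = q := by
  obtain ⟨_, x, hx, rfl⟩ := q
  exact ⟨⟨x, hx⟩, rfl⟩

lemma ver_neg (x : V n) : ver (-x) = ver x := by
  unfold ver
  congr 2
  ext p
  simp

/-- The eigenvalues. -/
noncomputable def mu (n : ℕ) (l : ℕ) : ℝ := l * (2 * l + n - 1) * n / (n + 1)

lemma two_sc_mu (hn : 0 < n) (l : ℕ) : 2 * sc n ^ 2 * mu n l = (2 * l) * (2 * l + n - 1) := by
  have : (0 : ℝ) < n := by exact_mod_cast hn
  rw [sc_sq hn]
  unfold mu
  field_simp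

lemma mu_strictMono (hn : 0 < n) : StrictMono (mu n) := by
  refine strictMono_nat_of_lt_succ fun l => ?_
  unfold mu
  have h1 : (1 : ℝ) ≤ n := by exact_mod_cast hn
  have h2 : (0 : ℝ) ≤ l := Nat.cast_nonneg l
  have h3 : (0 : ℝ) < n := by linarith
  rw [div_lt_div_iff_of_pos_right (by linarith)]
  refine mul_lt_mul_of_pos_right ?_ h3
  push_cast
  nlinarith

/-- A function in an eigenspace orthogonal to the relevant powers vanishes. -/
lemma vanish (hn : 0 < n) {μ : ℝ} {f : Mv n → ℝ} (hf : f ∈ Eig n μ)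
    (h0 : ∀ k : ℕ, (2 * k : ℝ) * (2 * k + n - 1) = 2 * sc n ^ 2 * μ → ∀ a : V n,
      ∫ x : SS n, f (vS x) * pw a (2 * k) x ∂(sig n) = 0) : f = 0 := by
  obtain ⟨F, hF, hFf, hL⟩ := hf
  have hG : ContDiff ℝ ∞ (fun y : V n => F (ver y)) := contDiff_comp_ver hF
  have hfv : ∀ x : SS n, f (vS x) = F (ver x) := fun x => (hFf (vS x)).symm
  have h1 := fun d a => orth (G := fun y : V n => F (ver y)) hG (ν := 2 * sc n ^ 2 * μ)
    (fun x hx => by rw [hL x hx]; ring) (fun x => by rw [ver_neg])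
    (fun k hk a => by
      have := h0 k hk a
      simp only [hfv] at this
      exact this) d a
  have h2 := dens (⟨fun x : SS n => F (ver x),
    hG.continuous.comp continuous_subtype_val⟩ : C(SS n, ℝ)) h1
  funext q
  obtain ⟨x, rfl⟩ := vS_surj q
  rw [hfv]
  exact congrArg (fun g : C(SS n, ℝ) => g x) h2

lemma Eig_bot (hn : 0 < n) {μ : ℝ} (hμ : ∀ l, mu n l ≠ μ) : Eig n μ = ⊥ := by
  rw [eq_bot_iff]
  intro f hf
  rw [Submodule.mem_bot]
  refine vanish hn hf fun k hk => ?_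
  exfalso
  apply hμ k
  rw [← two_sc_mu hn k] at hk
  have hsc := sc_pos hn
  have hsc2 : (2 * sc n ^ 2) ≠ 0 := by positivity
  exact mul_left_cancel₀ hsc2 hk

lemma continuous_of_mem {μ : ℝ} {f : Mv n → ℝ} (hf : f ∈ Eig n μ) :
    Continuous (fun x : SS n => f (vS x)) := by
  obtain ⟨F, hF, hFf, -⟩ := hf
  have : (fun x : SS n => f (vS x)) = fun x : SS n => F (ver x) := by
    funext x
    exact (hFf (vS x)).symm
  rw [this]
  exact (contDiff_comp_ver hF).continuous.comp continuous_subtype_val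

/-- Monomial. -/
noncomputable def mon {d : ℕ} (τ : Fin d → Fin (n + 1)) (x : V n) : ℝ := ∏ k, x (τ k)

lemma continuous_mon {d : ℕ} (τ : Fin d → Fin (n + 1)) : Continuous (mon τ : V n → ℝ) := by
  unfold mon
  fun_prop

/-- Moments of a function. -/
noncomputable def mom (n : ℕ) (μ : ℝ) (d : ℕ) :
    Eig n μ →ₗ[ℝ] ((Fin d → Fin (n + 1)) → ℝ) where
  toFun f τ := ∫ x : SS n, (f : Mv n → ℝ) (vS x) * mon τ x ∂(sig n)
  map_add' f g := by
    funext τ
    have h1 : Integrable (fun x : SS n => (f : Mv n → ℝ) (vS x) * mon τ x) (sig n) :=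
      integrable_cont ((continuous_of_mem f.2).mul ((continuous_mon τ).comp
        continuous_subtype_val))
    have h2 : Integrable (fun x : SS n => (g : Mv n → ℝ) (vS x) * mon τ x) (sig n) :=
      integrable_cont ((continuous_of_mem g.2).mul ((continuous_mon τ).comp
        continuous_subtype_val))
    rw [Pi.add_apply, ← integral_add h1 h2]
    refine integral_congr_ae (Filter.Eventually.of_forall fun x => ?_)
    simp [add_mul]
  map_smul' c f := by
    funext τ
    rw [Pi.smul_apply, smul_eq_mul, ← integral_const_mul]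
    refine integral_congr_ae (Filter.Eventually.of_forall fun x => ?_)
    simp [mul_assoc]

lemma pw_eq_sum (a : V n) (d : ℕ) (x : V n) :
    pw a d x = ∑ τ : Fin d → Fin (n + 1), (∏ k, a (τ k)) * mon τ x := by
  unfold pw mon
  rw [inner_eq, ← Fin.prod_const, Finset.prod_univ_sum, Fintype.piFinset_univ]
  refine Finset.sum_congr rfl fun τ _ => ?_
  rw [← Finset.prod_mul_distrib]

lemma mom_injective (hn : 0 < n) (l : ℕ) : Function.Injective (mom n (mu n l) (2 * l)) := by
  rw [← LinearMap.ker_eq_bot, LinearMap.ker_eq_bot']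
  rintro ⟨f, hf⟩ h
  have h' : ∀ τ : Fin (2 * l) → Fin (n + 1),
      ∫ x : SS n, f (vS x) * mon τ x ∂(sig n) = 0 := fun τ => congrFun h τ
  have : f = 0 := by
    refine vanish hn hf fun k hk a => ?_
    rw [two_sc_mu hn, ← two_sc_mu hn k, ← two_sc_mu hn l] at hk
    have hsc := sc_pos hn
    have hsc2 : (2 * sc n ^ 2) ≠ 0 := by positivity
    have hkl := (mu_strictMono hn).injective (mul_left_cancel₀ hsc2 hk)
    subst hkl
    have h1 : ∀ x : SS n, f (vS x) * pw a (2 * k) x =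
        ∑ τ : Fin (2 * k) → Fin (n + 1), (∏ k, a (τ k)) * (f (vS x) * mon τ x) := by
      intro x
      rw [pw_eq_sum, Finset.mul_sum]
      refine Finset.sum_congr rfl fun τ _ => ?_
      ring
    rw [integral_congr_ae (Filter.Eventually.of_forall h1), integral_finsetSum]
    · refine Finset.sum_eq_zero fun τ _ => ?_
      rw [integral_const_mul, h', mul_zero]
    · intro τ _
      exact (integrable_cont ((continuous_of_mem hf).mul ((continuous_mon τ).comp
        continuous_subtype_val))).const_mul _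
  exact Subtype.ext this

lemma finite_Eig (hn : 0 < n) (l : ℕ) : Module.Finite ℝ (Eig n (mu n l)) :=
  Module.Finite.of_injective (mom n (mu n l) (2 * l)) (mom_injective hn l)

/-- The multiplicities. -/
noncomputable def dd (n l : ℕ) : ℕ := Module.finrank ℝ (Eig n (mu n l))

lemma dd_zero_le (hn : 0 < n) : dd n 0 ≤ 1 := by
  have h := LinearMap.finrank_le_finrank_of_injective (mom_injective hn 0)
  have h2 : Module.finrank ℝ ((Fin (2 * 0) → Fin (n + 1)) → ℝ) = 1 := by
    rw [Module.finrank_fintype_fun_eq_card]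
    simp
  rw [h2] at h
  exact h

lemma Fh_mem (hn : 0 < n) (b : Fin (n + 1)) (hb : b ≠ 0) (l : ℕ) :
    (fun q : Mv n => Fh b l q) ∈ Eig n (mu n l) := by
  refine ⟨Fh b l, contDiff_Fh b l, fun q => rfl, fun x hx => ?_⟩
  have h1 : (fun y : V n => Fh b l (ver y)) = hf b (2 * l) := by
    funext y
    exact Fh_ver hn b l y
  rw [h1, LL_hf_even b hb, Fh_ver hn]
  have h2 := two_sc_mu hn l
  have h3 : 4 * sc n ^ 2 * mu n l = 2 * (2 * l * (2 * l + n - 1)) := by rw [← h2]; ring
  rw [h3]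
  ring

lemma le_dd (hn : 0 < n) (l : ℕ) (hl : l ≠ 0) : n ≤ dd n l := by
  have := finite_Eig hn l
  have hli : LinearIndependent ℝ (fun b : Fin n =>
      (⟨fun q : Mv n => Fh b.succ l q, Fh_mem hn b.succ (Fin.succ_ne_zero b) l⟩ :
        Eig n (mu n l))) := by
    rw [Fintype.linearIndependent_iff]
    intro g hg c
    have h1 := congrArg (Subtype.val : Eig n (mu n l) → (Mv n → ℝ)) hg
    rw [Submodule.coe_sum] at h1
    have hec : inner ℝ (e c.succ : V n) (e c.succ) = (1 : ℝ) := by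
      rw [inner_e']; simp [e_apply]
    have h2 := congrFun h1 ⟨ver (e c.succ), ver_mem hec⟩
    simp only [Finset.sum_apply, Submodule.coe_smul, Pi.smul_apply, smul_eq_mul] at h2
    rw [Finset.sum_eq_single c] at h2
    · rw [Fh_ver hn, hf_e_self _ (Fin.succ_ne_zero c)] at h2
      have h3 : ((-1 : ℝ) ^ l) ≠ 0 := pow_ne_zero _ (by norm_num)
      have h4 : g c * (-1 : ℝ) ^ l = 0 := h2
      exact (mul_eq_zero.1 h4).resolve_right h3
    · intro b _ hbc
      rw [Fh_ver hn, hf_e_ne _ _ (Fin.succ_ne_zero c) (fun h => hbc (Fin.succ_injective _ h)) l hl,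
        mul_zero]
    · intro h
      exact absurd (Finset.mem_univ c) h
  have := hli.fintype_card_le_finrank
  rw [Fintype.card_fin] at this
  exact this

lemma one_le_dd_zero (hn : 0 < n) : 1 ≤ dd n 0 := by
  have := finite_Eig hn 0
  refine Nat.one_le_iff_ne_zero.2 fun h => ?_
  have h1 : Subsingleton (Eig n (mu n 0)) := Module.finrank_zero_iff.1 h
  have hmem : (fun _ : Mv n => (1 : ℝ)) ∈ Eig n (mu n 0) := by
    refine ⟨fun _ => 1, contDiff_const, fun q => rfl, fun x hx => ?_⟩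
    unfold LL Ld mu
    simp
  have h2 : (⟨_, hmem⟩ : Eig n (mu n 0)) = 0 := Subsingleton.elim _ _
  have h3 := congrArg (Subtype.val : Eig n (mu n 0) → (Mv n → ℝ)) h2
  have he : inner ℝ (e 0 : V n) (e 0) = (1 : ℝ) := by
    rw [inner_e']; simp [e_apply]
  have h4 := congrFun h3 ⟨ver (e 0), ver_mem he⟩
  exact one_ne_zero h4

lemma dd_pos (hn : 0 < n) (l : ℕ) : 1 ≤ dd n l := by
  by_cases hl : l = 0
  · subst hl
    exact one_le_dd_zero hn
  · exact le_trans hn (le_dd hn l hl)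

/-! ### Enumeration -/

/-- Partial sums. -/
def Sm (d : ℕ → ℕ) (l : ℕ) : ℕ := ∑ i ∈ Finset.range l, d i

lemma Sm_succ (d : ℕ → ℕ) (l : ℕ) : Sm d (l + 1) = Sm d l + d l := Finset.sum_range_succ _ _

lemma Sm_mono (d : ℕ → ℕ) : Monotone (Sm d) :=
  monotone_nat_of_le_succ fun l => by rw [Sm_succ]; omega

lemma le_Sm (d : ℕ → ℕ) (hd : ∀ l, 1 ≤ d l) (l : ℕ) : l ≤ Sm d l := by
  induction l with
  | zero => exact Nat.zero_le _
  | succ l ih => rw [Sm_succ]; have := hd l; omega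

lemma exists_level (d : ℕ → ℕ) (hd : ∀ l, 1 ≤ d l) (k : ℕ) : ∃ l, k < Sm d (l + 1) :=
  ⟨k, lt_of_lt_of_le (Nat.lt_succ_self k) (le_Sm d hd (k + 1))⟩

/-- The level of an index. -/
noncomputable def lev (d : ℕ → ℕ) (hd : ∀ l, 1 ≤ d l) (k : ℕ) : ℕ := Nat.find (exists_level d hd k)

lemma lev_eq_iff (d : ℕ → ℕ) (hd : ∀ l, 1 ≤ d l) (k l : ℕ) :
    lev d hd k = l ↔ Sm d l ≤ k ∧ k < Sm d (l + 1) := by
  unfold lev
  rw [Nat.find_eq_iff]
  constructor
  · rintro ⟨h1, h2⟩
    refine ⟨?_, h1⟩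
    cases l with
    | zero => exact Nat.zero_le _
    | succ l =>
      have := h2 l (Nat.lt_succ_self l)
      omega
  · rintro ⟨h1, h2⟩
    refine ⟨h2, fun m hm => ?_⟩
    have := Sm_mono d (show m + 1 ≤ l from hm)
    omega

lemma lev_mono (d : ℕ → ℕ) (hd : ∀ l, 1 ≤ d l) : Monotone (lev d hd) := by
  intro k k' hkk
  have h1 := (lev_eq_iff d hd k (lev d hd k)).1 rfl
  have h2 := (lev_eq_iff d hd k' (lev d hd k')).1 rfl
  by_contra h
  have h3 := Sm_mono d (show lev d hd k' + 1 ≤ lev d hd k by omega)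
  omega

/-- The enumeration of the spectrum. -/
noncomputable def lam (hn : 0 < n) (k : ℕ) : ℝ := mu n (lev (dd n) (dd_pos hn) k)

lemma isSpectrum (hn : 0 < n) : IsSpectrum (Mv n) (lam hn) := by
  refine ⟨fun k k' h => (mu_strictMono hn).monotone (lev_mono _ _ h), fun μ => ?_⟩
  rw [eigenspace_eq hn]
  by_cases h : ∃ l, mu n l = μ
  · obtain ⟨l, rfl⟩ := h
    have := finite_Eig hn l
    rw [← Module.finrank_eq_rank]
    have h1 : {k : ℕ | lam hn k = mu n l} =
        (Finset.Ico (Sm (dd n) l) (Sm (dd n) (l + 1)) : Set ℕ) := by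
      ext k
      simp only [Set.mem_ofPred_eq, Finset.coe_Ico, Set.mem_Ico]
      rw [← lev_eq_iff (dd n) (dd_pos hn)]
      exact (mu_strictMono hn).injective.eq_iff
    have h2 : Cardinal.mk {k : ℕ // lam hn k = mu n l} =
        Cardinal.mk (Finset.Ico (Sm (dd n) l) (Sm (dd n) (l + 1)) : Set ℕ) := by
      rw [← h1]
      rfl
    rw [h2]
    have h3 := Cardinal.mk_coe_finset (s := Finset.Ico (Sm (dd n) l) (Sm (dd n) (l + 1)))
    rw [Nat.card_Ico] at h3
    have h4 : Sm (dd n) (l + 1) - Sm (dd n) l = Module.finrank ℝ (Eig n (mu n l)) := by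
      rw [Sm_succ, Nat.add_sub_cancel_left]
      rfl
    rw [h4] at h3
    exact h3.symm
  · have h' : ∀ l, mu n l ≠ μ := fun l hl => h ⟨l, hl⟩
    rw [Eig_bot hn h', rank_bot]
    have : IsEmpty {k : ℕ // lam hn k = μ} := ⟨fun k => h' _ k.2⟩
    exact (Cardinal.mk_eq_zero _).symm

/-- The violation of the inequality. -/
lemma violation (hn : 6 ≤ n) (hn0 : 0 < n) : ∃ j : ℕ,
    ((n : ℝ) + 3) * lam hn0 j + lam hn0 j ^ 2 / lam hn0 (j + 1) + (n : ℝ) ^ 2 <
      ∑ k ∈ Finset.Icc 1 n, lam hn0 (j + k) := by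
  have h0 : dd n 0 = 1 := le_antisymm (dd_zero_le hn0) (one_le_dd_zero hn0)
  have h1 : n ≤ dd n 1 := le_dd hn0 1 one_ne_zero
  have h2 : n ≤ dd n 2 := le_dd hn0 2 two_ne_zero
  have hS1 : Sm (dd n) 1 = 1 := by rw [Sm_succ, h0]; rfl
  have hS2 : Sm (dd n) 2 = 1 + dd n 1 := by rw [Sm_succ, hS1]
  have hS3 : Sm (dd n) 3 = 1 + dd n 1 + dd n 2 := by rw [Sm_succ, hS2]
  have e1 : lam hn0 (dd n 1) = mu n 1 := by
    unfold lam
    congr 1
    rw [lev_eq_iff]
    constructor
    · rw [hS1]; omega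
    · rw [hS2]; omega
  have e2 : ∀ k ∈ Finset.Icc 1 n, lam hn0 (dd n 1 + k) = mu n 2 := by
    intro k hk
    rw [Finset.mem_Icc] at hk
    unfold lam
    congr 1
    rw [lev_eq_iff]
    constructor
    · rw [hS2]; omega
    · rw [hS3]; omega
  refine ⟨dd n 1, ?_⟩
  rw [Finset.sum_congr rfl e2, e2 1 (Finset.mem_Icc.2 ⟨le_rfl, hn0⟩), e1]
  simp only [Finset.sum_const, Nat.card_Icc, Nat.add_sub_cancel, nsmul_eq_mul]
  unfold mu
  have hn' : (6 : ℝ) ≤ n := by exact_mod_cast hn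
  push_cast
  have hpos : (0 : ℝ) < n := by linarith
  have e3 : (1 : ℝ) * (2 * 1 + n - 1) * n / (n + 1) = n := by field_simp; ring
  have e4 : (2 : ℝ) * (2 * 2 + n - 1) * n / (n + 1) = 2 * (n + 3) * n / (n + 1) := by
    congr 2; ring
  rw [e3, e4]
  have e5 : (n : ℝ) ^ 2 / (2 * (n + 3) * n / (n + 1)) = n * (n + 1) / (2 * (n + 3)) := by
    field_simp
  rw [e5]
  have key : (n : ℝ) * (2 * (n + 3) * n / (n + 1)) -
      ((n + 3) * n + n * (n + 1) / (2 * (n + 3)) + n ^ 2) =
      n * (n ^ 2 - 2 * n - 19) / (2 * (n + 1) * (n + 3)) := by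
    field_simp
    ring
  have hp : 0 < (n : ℝ) * (n ^ 2 - 2 * n - 19) / (2 * (n + 1) * (n + 3)) := by
    apply div_pos
    · apply mul_pos hpos
      nlinarith
    · positivity
  linarith

end Pool.Agent.Lib_helper74.EigVero
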