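import Pool.Agent.Lib_helper74.EigLap2

/-!
The Veronese manifold is a compact connected submanifold.
-/

namespace Pool.Agent.Lib_helper74.EigVero

open scoped ContDiff
open Finset Pool.Agent.Lib_helper74.EigDefs

variable {n : ℕ}

lemma V_finrank : Module.finrank ℝ (V n) = n + 1 := by simp

instance factV : Fact (Module.finrank ℝ (V n) = n + 1) := ⟨V_finrank⟩

lemma isSubmanifold (hn : 0 < n) : IsSubmanifold n (Mv n) := by
  rintro _ ⟨x, hx, rfl⟩
  rw [mem_sphere_iff] at hx
  have hsc := sc_pos hn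
  have hx0 : x ≠ 0 := by
    rintro rfl
    simp at hx
  set b : OrthonormalBasis (Fin n) ℝ (ℝ ∙ x)ᗮ :=
    OrthonormalBasis.fromOrthogonalSpanSingleton n hx0 with hb
  have hbx : ∀ i, (inner ℝ x (b i : V n) : ℝ) = 0 := by
    intro i
    have := (b i).2
    rw [Submodule.mem_orthogonal_singleton_iff_inner_right] at this
    exact this
  have hbb : ∀ i j, (inner ℝ (b i : V n) (b j : V n) : ℝ) = if i = j then 1 else 0 := by
    intro i j
    have := orthonormal_iff_ite.1 b.orthonormal i j
    exact this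
  -- the affine chart
  set z : EuclideanSpace ℝ (Fin n) → V n := fun u => x + ∑ i, u i • (b i : V n) with hz
  have hzx : ∀ u, (inner ℝ (z u) x : ℝ) = 1 := by
    intro u
    simp only [hz, inner_add_left, hx, sum_inner, inner_smul_left, conj_trivial]
    have : ∀ i, (inner ℝ (b i : V n) x : ℝ) = 0 := fun i => by rw [real_inner_comm]; exact hbx i
    simp [this]
  have hzb : ∀ u i, (inner ℝ (z u) (b i : V n) : ℝ) = u i := by
    intro u i
    simp only [hz, inner_add_left, hbx, sum_inner, inner_smul_left, conj_trivial, hbb]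
    simp
  have hz0 : ∀ u, z u ≠ 0 := by
    intro u h
    have := hzx u
    rw [h, inner_zero_left] at this
    exact zero_ne_one this
  have hzz : ∀ u, (inner ℝ (z u) (z u) : ℝ) ≠ 0 := fun u => inner_self_ne_zero.2 (hz0 u)
  have hzsmooth : ContDiff ℝ ∞ z := by
    refine contDiff_const.add (ContDiff.sum fun i _ => ?_)
    have h1 : ContDiff ℝ ∞ (fun u : EuclideanSpace ℝ (Fin n) => u i) := contDiff_piLp_apply 2
    exact h1.smul_const (b i : V n)
  -- the contraction
  set Cx : EE n →L[ℝ] V n := LinearMap.toContinuousLinearMap (C x) with hCx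
  set D : EE n → V n := fun Q => Cx ((sc n)⁻¹ • Q + J n) with hD
  have hDver : ∀ y : V n, D (ver y) = (inner ℝ y x : ℝ) • y := by
    intro y
    have : (sc n)⁻¹ • ver y + J n = B y y := by
      unfold ver
      rw [smul_smul, inv_mul_cancel₀ hsc.ne', one_smul]
      abel
    show C x ((sc n)⁻¹ • ver y + J n) = _
    rw [this, C_B]
  have hDsmooth : ContDiff ℝ ∞ D :=
    Cx.contDiff.comp ((ContDiff.const_smul (sc n)⁻¹ contDiff_id).add contDiff_const)
  set φ : EuclideanSpace ℝ (Fin n) → EE n :=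
    fun u => sc n • ((inner ℝ (z u) (z u) : ℝ)⁻¹ • B (z u) (z u) - J n) with hφ
  have hφver : ∀ u, φ u = ver (‖z u‖⁻¹ • z u) := by
    intro u
    simp only [hφ]
    unfold ver
    rw [B_smul_left, B_smul_right, smul_smul, real_inner_self_eq_norm_sq, sq, mul_inv]
  have hnorm : ∀ u, inner ℝ (‖z u‖⁻¹ • z u) (‖z u‖⁻¹ • z u) = (1 : ℝ) := by
    intro u
    have h1 : ‖z u‖ ≠ 0 := norm_ne_zero_iff.2 (hz0 u)
    rw [inner_smul_left, inner_smul_right, real_inner_self_eq_norm_sq]
    simp only [conj_trivial]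
    field_simp
  have hDφ : ∀ u, D (φ u) = (inner ℝ (z u) (z u) : ℝ)⁻¹ • z u := by
    intro u
    rw [hφver, hDver, inner_smul_left, hzx, smul_smul, real_inner_self_eq_norm_sq]
    simp only [conj_trivial, mul_one]
    rw [sq, mul_inv]
  have hDφx : ∀ u, (inner ℝ (D (φ u)) x : ℝ) = (inner ℝ (z u) (z u) : ℝ)⁻¹ := by
    intro u
    rw [hDφ, inner_smul_left, hzx]
    simp
  refine ⟨Set.univ, {Q | (inner ℝ (D Q) x : ℝ) ≠ 0}, φ,
    fun Q => WithLp.toLp 2 (fun i => (inner ℝ (D Q) (b i : V n) : ℝ) / inner ℝ (D Q) x),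
    isOpen_univ, ?_, ?_, ?_, ?_, ?_, ?_⟩
  · exact isOpen_ne_fun (hDsmooth.continuous.inner continuous_const) continuous_const
  · show (inner ℝ (D (ver x)) x : ℝ) ≠ 0
    rw [hDver, hx, one_smul, hx]
    exact one_ne_zero
  · refine ContDiff.contDiffOn ?_
    refine ContDiff.const_smul (sc n) (ContDiff.sub ?_ contDiff_const)
    have h1 : ContDiff ℝ ∞ (fun u => (inner ℝ (z u) (z u) : ℝ)⁻¹) :=
      (hzsmooth.inner ℝ hzsmooth).inv hzz
    have h2 : ContDiff ℝ ∞ (fun u => B (z u) (z u)) := contDiff_B.comp (hzsmooth.prodMk hzsmooth)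
    exact h1.smul h2
  · rw [contDiffOn_piLp]
    intro i
    refine ContDiffOn.div ?_ ?_ ?_
    · exact ((hDsmooth.inner ℝ contDiff_const)).contDiffOn
    · exact ((hDsmooth.inner ℝ contDiff_const)).contDiffOn
    · intro Q hQ
      exact hQ
  · ext Q
    constructor
    · rintro ⟨u, _, rfl⟩
      refine ⟨?_, ?_⟩
      · rw [hφver]
        exact ver_mem (hnorm u)
      · show (inner ℝ (D (φ u)) x : ℝ) ≠ 0
        rw [hDφx]
        exact inv_ne_zero (hzz u)
    · rintro ⟨⟨y, hy, rfl⟩, hQ⟩
      rw [mem_sphere_iff] at hy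
      have hQ' : (inner ℝ (D (ver y)) x : ℝ) ≠ 0 := hQ
      rw [hDver, inner_smul_left] at hQ'
      have hyx : (inner ℝ y x : ℝ) ≠ 0 := by
        intro h
        apply hQ'
        rw [h]
        simp
      set c := (inner ℝ y x : ℝ) with hc
      set w : V n := c⁻¹ • y - x with hw
      have hwx : w ∈ (ℝ ∙ x)ᗮ := by
        rw [Submodule.mem_orthogonal_singleton_iff_inner_left, hw, inner_sub_left, inner_smul_left,
          hx, ← hc]
        simp only [conj_trivial]
        rw [inv_mul_cancel₀ hyx, sub_self]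
      have hsum := b.sum_repr' ⟨w, hwx⟩
      have h2 := congrArg (Subtype.val : (ℝ ∙ x)ᗮ → V n) hsum
      rw [Submodule.coe_sum] at h2
      simp only [Submodule.coe_smul] at h2
      refine ⟨WithLp.toLp 2 (fun i => (inner ℝ (b i : V n) w : ℝ)), trivial, ?_⟩
      have hzu : z (WithLp.toLp 2 (fun i => (inner ℝ (b i : V n) w : ℝ))) = c⁻¹ • y := by
        show x + ∑ i, (inner ℝ (b i : V n) w : ℝ) • (b i : V n) = c⁻¹ • y
        have h3 : ∑ i, (inner ℝ (b i : V n) w : ℝ) • (b i : V n) = w := h2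
        rw [h3, hw]
        abel
      simp only [hφ]
      rw [hzu, B_smul_left, B_smul_right, inner_smul_left, inner_smul_right, hy]
      unfold ver
      congr 2
      rw [smul_smul, smul_smul]
      simp only [conj_trivial]
      nth_rewrite 2 [← one_smul ℝ (B y y)]
      congr 1
      field_simp
  · intro u _
    ext i
    show (inner ℝ (D (φ u)) (b i : V n) : ℝ) / inner ℝ (D (φ u)) x = u i
    rw [hDφx, hDφ, inner_smul_left, hzb]
    simp only [conj_trivial]
    have := hzz u
    field_simp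

lemma isCompact_Mv : IsCompact (Mv n) :=
  (isCompact_sphere (0 : V n) 1).image contDiff_ver.continuous

lemma isConnected_Mv (hn : 0 < n) : IsConnected (Mv n) := by
  refine IsConnected.image ?_ _ contDiff_ver.continuous.continuousOn
  refine isConnected_sphere ?_ (0 : V n) zero_le_one
  rw [← Module.finrank_eq_rank, V_finrank]
  exact_mod_cast Nat.lt_add_of_pos_left hn

lemma norm_Mv (hn : 0 < n) : ∀ q ∈ Mv n, ‖q‖ = 1 := by
  rintro _ ⟨x, hx, rfl⟩
  exact norm_ver hn x ((mem_sphere_iff x).1 hx)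

end Pool.Agent.Lib_helper74.EigVero
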