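import Pool.Agent.Lib_helper74.EigDefs

/-!
The Veronese map and the rotation fields.
-/

namespace Pool.Agent.Lib_helper74.EigVero

open scoped ContDiff
open Finset Pool.Agent.Lib_helper74.EigDefs

variable {n : ℕ}

/-- The source space. -/
abbrev V (n : ℕ) := EuclideanSpace ℝ (Fin (n + 1))

/-- The target space of matrices. -/
abbrev EE (n : ℕ) := EuclideanSpace ℝ (Fin (n + 1) × Fin (n + 1))

/-- The tensor product map as a bilinear map. -/
noncomputable def Bl (n : ℕ) : V n →ₗ[ℝ] V n →ₗ[ℝ] EE n :=
  LinearMap.mk₂ ℝ (fun x y => WithLp.toLp 2 (fun p => x p.1 * y p.2))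
    (fun x y z => by ext p; simp [add_mul])
    (fun c x y => by ext p; simp [mul_assoc])
    (fun x y z => by ext p; simp [mul_add])
    (fun c x y => by ext p; simp; ring)

/-- The tensor product map as a continuous bilinear map. -/
noncomputable def Bc (n : ℕ) : V n →L[ℝ] V n →L[ℝ] EE n := (Bl n).toContinuousBilinearMap

/-- The tensor product map. -/
noncomputable def B (x y : V n) : EE n := Bc n x y

@[simp] lemma B_apply (x y : V n) (p : Fin (n + 1) × Fin (n + 1)) : B x y p = x p.1 * y p.2 := rfl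

lemma B_add_left (x y z : V n) : B (x + y) z = B x z + B y z := by
  ext p; simp [add_mul]

lemma B_add_right (x y z : V n) : B x (y + z) = B x y + B x z := by
  ext p; simp [mul_add]

lemma B_smul_left (c : ℝ) (x z : V n) : B (c • x) z = c • B x z := by
  ext p; simp [mul_assoc]

lemma B_smul_right (c : ℝ) (x z : V n) : B x (c • z) = c • B x z := by
  ext p; simp; ring

lemma B_sum_left {ι : Type*} (s : Finset ι) (f : ι → V n) (z : V n) :
    B (∑ i ∈ s, f i) z = ∑ i ∈ s, B (f i) z := by
  unfold B; simp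

lemma B_sum_right {ι : Type*} (s : Finset ι) (f : ι → V n) (z : V n) :
    B z (∑ i ∈ s, f i) = ∑ i ∈ s, B z (f i) := by
  unfold B; simp

lemma inner_eq (x y : V n) : inner ℝ x y = ∑ i, x i * y i := by
  rw [PiLp.inner_apply]
  refine Finset.sum_congr rfl fun i _ => ?_
  simp [mul_comm]

lemma inner_B (x y z w : V n) : inner ℝ (B x y) (B z w) = inner ℝ x z * inner ℝ y w := by
  rw [PiLp.inner_apply, inner_eq, inner_eq, Finset.sum_mul_sum, Fintype.sum_prod_type]
  refine Finset.sum_congr rfl fun i _ => Finset.sum_congr rfl fun j _ => ?_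
  simp
  ring

/-- The normalised identity matrix. -/
noncomputable def J (n : ℕ) : EE n := WithLp.toLp 2 (fun p => if p.1 = p.2 then 1 / (n + 1 : ℝ) else 0)

lemma J_apply (p : Fin (n + 1) × Fin (n + 1)) :
    J n p = if p.1 = p.2 then 1 / (n + 1 : ℝ) else 0 := rfl

lemma inner_B_J (x y : V n) : inner ℝ (B x y) (J n) = inner ℝ x y / (n + 1) := by
  rw [PiLp.inner_apply, inner_eq, Fintype.sum_prod_type, Finset.sum_div]
  refine Finset.sum_congr rfl fun i _ => ?_
  simp [J_apply]
  ring

lemma inner_J_J : inner ℝ (J n) (J n) = 1 / (n + 1 : ℝ) := by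
  rw [PiLp.inner_apply, Fintype.sum_prod_type]
  have h : ((n : ℝ) + 1) ≠ 0 := by positivity
  simp [J_apply]
  field_simp

/-- Contraction with a vector. -/
noncomputable def C (x : V n) : EE n →ₗ[ℝ] V n where
  toFun Q := WithLp.toLp 2 (fun i => ∑ j, Q (i, j) * x j)
  map_add' Q R := by ext i; simp [add_mul, Finset.sum_add_distrib]
  map_smul' c Q := by ext i; simp [Finset.mul_sum, mul_assoc]

lemma C_apply (x : V n) (Q : EE n) (i : Fin (n + 1)) : C x Q i = ∑ j, Q (i, j) * x j := rfl

lemma C_B (x y z : V n) : C x (B y z) = (inner ℝ z x : ℝ) • y := by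
  ext i
  rw [C_apply, inner_eq]
  simp only [B_apply, PiLp.smul_apply, smul_eq_mul, Finset.sum_mul]
  refine Finset.sum_congr rfl fun j _ => ?_
  ring

lemma C_J (x : V n) : C x (J n) = (1 / (n + 1 : ℝ)) • x := by
  ext i
  rw [C_apply]
  simp [J_apply]

/-- Scale factor. -/
noncomputable def sc (n : ℕ) : ℝ := Real.sqrt ((n + 1) / n)

lemma sc_pos (hn : 0 < n) : 0 < sc n := by
  unfold sc
  have : (0 : ℝ) < n := by exact_mod_cast hn
  positivity

lemma sc_sq (hn : 0 < n) : sc n ^ 2 = (n + 1) / n := by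
  unfold sc
  have : (0 : ℝ) < n := by exact_mod_cast hn
  rw [Real.sq_sqrt (by positivity)]

/-- The Veronese map. -/
noncomputable def ver (x : V n) : EE n := sc n • (B x x - J n)

/-- Its differential. -/
noncomputable def dver (x u : V n) : EE n := sc n • (B x u + B u x)

lemma dver_add (x u w : V n) : dver x (u + w) = dver x u + dver x w := by
  unfold dver
  rw [B_add_left, B_add_right]
  module

lemma dver_smul (c : ℝ) (x u : V n) : dver x (c • u) = c • dver x u := by
  unfold dver
  rw [B_smul_left, B_smul_right]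
  module

lemma inner_dver (x u w : V n) :
    inner ℝ (dver x u) (dver x w) =
      2 * sc n ^ 2 * (inner ℝ x x * inner ℝ u w + inner ℝ x u * inner ℝ x w) := by
  unfold dver
  rw [inner_smul_left, inner_smul_right, inner_add_left, inner_add_right, inner_add_right,
    inner_B, inner_B, inner_B, inner_B, real_inner_comm u x, real_inner_comm w x]
  simp
  ring

lemma inner_dver_ver (x u : V n) (hu : inner ℝ x u = (0 : ℝ)) :
    inner ℝ (dver x u) (ver x) = 0 := by
  unfold dver ver
  rw [inner_smul_left, inner_smul_right, inner_add_left, inner_sub_right, inner_sub_right,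
    inner_B, inner_B, inner_B_J, inner_B_J, real_inner_comm x u, hu]
  simp

lemma norm_ver (hn : 0 < n) (x : V n) (hx : inner ℝ x x = (1 : ℝ)) : ‖ver x‖ = 1 := by
  have h : inner ℝ (ver x) (ver x) = (1 : ℝ) := by
    unfold ver
    rw [inner_smul_left, inner_smul_right, inner_sub_left, inner_sub_right, inner_sub_right,
      inner_B, inner_B_J, real_inner_comm (B x x) (J n), inner_B_J, inner_J_J, hx]
    have h1 := sc_sq hn
    have h2 : (0 : ℝ) < n := by exact_mod_cast hn
    have h3 : sc n * (sc n * (1 * 1 - 1 / ((n : ℝ) + 1) - (1 / ((n : ℝ) + 1) - 1 / ((n : ℝ) + 1))))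
        = sc n ^ 2 * (1 - 1 / ((n : ℝ) + 1)) := by ring
    simp only [conj_trivial]
    rw [h3, h1]
    field_simp
    ring
  rw [real_inner_self_eq_norm_sq] at h
  have := norm_nonneg (ver x)
  nlinarith

lemma contDiff_B : ContDiff ℝ ∞ (fun p : V n × V n => B p.1 p.2) :=
  (Bc n).isBoundedBilinearMap.contDiff

lemma contDiff_ver : ContDiff ℝ ∞ (ver : V n → EE n) := by
  unfold ver
  exact ((contDiff_B.comp (contDiff_id.prodMk contDiff_id)).sub contDiff_const).const_smul _

lemma hasDerivAt_B {f g : ℝ → V n} {f' g' : V n} {t : ℝ} (hf : HasDerivAt f f' t)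
    (hg : HasDerivAt g g' t) : HasDerivAt (fun s => B (f s) (g s)) (B (f t) g' + B f' (g t)) t :=
  ContinuousLinearMap.hasDerivAt_of_bilinear (B := Bc n) (fun _ => hf) (fun _ => hg)

lemma hasDerivAt_ver {f : ℝ → V n} {f' : V n} {t : ℝ} (hf : HasDerivAt f f' t) :
    HasDerivAt (fun s => ver (f s)) (dver (f t) f') t := by
  unfold ver dver
  exact HasDerivAt.const_smul (sc n) ((hasDerivAt_B hf hf).sub_const (J n))

end Pool.Agent.Lib_helper74.EigVero
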