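import Mathlib

/-!
Algebra behind the evaluation of alternated products of orientation cocycles.
-/

namespace Pool.Agent.Lib_helper74.OrAlg

open Finset

section alg

variable {R : Type*} [Ring R] {ι : Type*} [Fintype ι]

/-- The chain sums. -/
def chain (e : ι → R) : (n : ℕ) → (ℕ → ι → ι → ι → ℤ) → ι → R
  | 0, _, _ => 1
  | n + 1, F, a => ∑ b, ∑ c, F 0 a b c • (e b * e c * chain e n (fun i => F (i + 1)) c)

/-- The two-form attached to a matrix. -/
def Om (e : ι → R) (s : ι → ι → ℤ) : R := ∑ b, ∑ c, s b c • (e b * e c)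

/-- Product of two-forms. -/
def W (e : ι → R) : (n : ℕ) → (ℕ → ι → ι → ℤ) → R
  | 0, _ => 1
  | n + 1, s => Om e (s 0) * W e n (fun i => s (i + 1))

/-- Sum of the generators. -/
def eta (e : ι → R) : R := ∑ a, e a

variable {e : ι → R}

lemma eta_mul (hanti : ∀ a b, e a * e b = -(e b * e a)) (a : ι) :
    eta e * e a = -(e a * eta e) := by
  unfold eta
  rw [Finset.sum_mul, Finset.mul_sum, ← Finset.sum_neg_distrib]
  exact Finset.sum_congr rfl fun b _ => hanti b a

lemma eta_mul_two (hanti : ∀ a b, e a * e b = -(e b * e a)) (a b : ι) (x : R) :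
    eta e * (e a * e b * x) = e a * e b * (eta e * x) := by
  have h1 := eta_mul hanti a
  have h2 := eta_mul hanti b
  calc eta e * (e a * e b * x) = (eta e * e a) * e b * x := by noncomm_ring
    _ = -(e a * (eta e * e b)) * x := by rw [h1]; noncomm_ring
    _ = e a * e b * (eta e * x) := by rw [h2]; noncomm_ring

lemma eta_Om (hanti : ∀ a b, e a * e b = -(e b * e a)) (s : ι → ι → ℤ) (x : R) :
    eta e * (Om e s * x) = Om e s * (eta e * x) := by
  unfold Om
  simp only [Finset.sum_mul, Finset.mul_sum]
  refine Finset.sum_congr rfl fun b _ => Finset.sum_congr rfl fun c _ => ?_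
  rw [smul_mul_assoc, mul_smul_comm, eta_mul_two hanti, smul_mul_assoc]

lemma chain_key (hanti : ∀ a b, e a * e b = -(e b * e a)) (hη : eta e * eta e = 0) (n : ℕ) :
    ∀ (F : ℕ → ι → ι → ι → ℤ) (s : ℕ → ι → ι → ℤ),
      (∀ i a b, s i b a = - s i a b) →
      (∀ i a b c, F i a b c = s i a b + s i b c + s i c a) →
      (∀ a, eta e * chain e n F a = eta e * W e n s) ∧
      ∑ a, e a * chain e n F a = (2 * n + 1) • (eta e * W e n s) := by
  induction n with
  | zero =>
    intro F s _ _
    refine ⟨fun a => rfl, ?_⟩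
    simp [chain, W, eta]
  | succ n ih =>
    intro F s hs hF
    obtain ⟨ih1, ih2⟩ := ih (fun i => F (i + 1)) (fun i => s (i + 1)) (fun i => hs (i + 1))
      (fun i => hF (i + 1))
    set Y := chain e n (fun i => F (i + 1)) with hY
    set V := W e n (fun i => s (i + 1)) with hV
    -- the sum R
    set Rr : R := ∑ b, ∑ c, s 0 b c • (e b * e c * Y c) with hR
    have hηR : eta e * Rr = eta e * (Om e (s 0) * V) := by
      rw [hR, eta_Om hanti]
      unfold Om
      simp only [Finset.sum_mul, Finset.mul_sum]
      refine Finset.sum_congr rfl fun b _ => Finset.sum_congr rfl fun c _ => ?_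
      rw [mul_smul_comm, eta_mul_two hanti, ih1, smul_mul_assoc]
    -- expansion of the chain
    have hX : ∀ a, chain e (n + 1) F a =
        (∑ b, s 0 a b • e b) * (∑ c, e c * Y c) + Rr + eta e * ∑ c, s 0 c a • (e c * Y c) := by
      intro a
      have e1 : (∑ b, s 0 a b • e b) * (∑ c, e c * Y c) =
          ∑ b, ∑ c, s 0 a b • (e b * e c * Y c) := by
        rw [Finset.sum_mul_sum]
        refine Finset.sum_congr rfl fun b _ => Finset.sum_congr rfl fun c _ => ?_
        rw [smul_mul_assoc, mul_assoc]
      have e3 : eta e * ∑ c, s 0 c a • (e c * Y c) =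
          ∑ b, ∑ c, s 0 c a • (e b * e c * Y c) := by
        unfold eta
        rw [Finset.sum_mul_sum]
        refine Finset.sum_congr rfl fun b _ => Finset.sum_congr rfl fun c _ => ?_
        rw [mul_smul_comm, mul_assoc]
      rw [e1, e3, hR]
      simp only [chain, ← Finset.sum_add_distrib]
      refine Finset.sum_congr rfl fun b _ => Finset.sum_congr rfl fun c _ => ?_
      rw [hF 0 a b c, add_smul, add_smul]
    have hηη : ∀ x : R, eta e * (eta e * x) = 0 := fun x => by rw [← mul_assoc, hη, zero_mul]
    have hWe : W e (n + 1) s = Om e (s 0) * V := rfl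
    constructor
    · intro a
      rw [hX a, mul_add, mul_add, hηη, add_zero, hηR, hWe, ih2]
      have : eta e * ((∑ b, s 0 a b • e b) * ((2 * n + 1) • (eta e * V))) = 0 := by
        simp only [Finset.sum_mul, Finset.mul_sum]
        refine Finset.sum_eq_zero fun b _ => ?_
        rw [smul_mul_assoc, mul_smul_comm, mul_smul_comm, mul_smul_comm, ← mul_assoc,
          eta_mul hanti b, neg_mul, mul_assoc, hηη]
        simp
      rw [this, zero_add]
    · have h1 : ∑ a, e a * ((∑ b, s 0 a b • e b) * (∑ c, e c * Y c)) =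
          (2 * n + 1) • (eta e * (Om e (s 0) * V)) := by
        rw [ih2, eta_Om hanti]
        unfold Om
        rw [Finset.sum_mul, Finset.smul_sum]
        refine Finset.sum_congr rfl fun a _ => ?_
        rw [← mul_assoc, mul_smul_comm, Finset.mul_sum]
        simp only [mul_smul_comm]
      have h2 : ∑ a, e a * Rr = eta e * (Om e (s 0) * V) := by
        rw [← Finset.sum_mul, ← hηR]; rfl
      have h3 : ∑ a, e a * (eta e * ∑ c, s 0 c a • (e c * Y c)) =
          eta e * (Om e (s 0) * V) := by
        rw [← hηR, hR, Finset.mul_sum]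
        refine Finset.sum_congr rfl fun a _ => ?_
        rw [← mul_assoc, show e a * eta e = -(eta e * e a) by rw [eta_mul hanti, neg_neg],
          neg_mul, mul_assoc, ← mul_neg, Finset.mul_sum, ← Finset.sum_neg_distrib]
        congr 1
        refine Finset.sum_congr rfl fun c _ => ?_
        rw [hs 0 a c, mul_smul_comm, neg_smul, neg_neg, mul_assoc]
      calc ∑ a, e a * chain e (n + 1) F a
          = ∑ a, (e a * ((∑ b, s 0 a b • e b) * (∑ c, e c * Y c)) + e a * Rr +
              e a * (eta e * ∑ c, s 0 c a • (e c * Y c))) := by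
            refine Finset.sum_congr rfl fun a _ => ?_
            rw [hX a, mul_add, mul_add]
        _ = (2 * (n + 1) + 1) • (eta e * W e (n + 1) s) := by
            rw [Finset.sum_add_distrib, Finset.sum_add_distrib, h1, h2, h3, hWe,
              show 2 * (n + 1) + 1 = (2 * n + 1) + 1 + 1 by ring, add_smul (2 * n + 1 + 1) 1,
              add_smul (2 * n + 1) 1, one_smul]

/-- The weighted sum over all words equals the weighted chain sum. -/
lemma sum_words_aux (e : ι → R) (n : ℕ) :
    ∀ (m : ℕ) (hm : m = 2 * n + 1) (F : ℕ → ι → ι → ι → ℤ) (g : ι → ℤ),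
      ∑ a : Fin m → ι,
        (g (a ⟨0, by omega⟩) * ∏ i : Fin n, F i (a ⟨2 * i, by omega⟩) (a ⟨2 * i + 1, by omega⟩)
          (a ⟨2 * i + 2, by omega⟩)) • (List.ofFn (fun k => e (a k))).prod =
      ∑ a, g a • (e a * chain e n F a) := by
  induction n with
  | zero =>
    intro m hm F g
    subst hm
    simp only [Nat.mul_zero, Nat.zero_add]
    rw [← (Equiv.funUnique (Fin 1) ι).symm.sum_comp]
    simp [chain, Equiv.funUnique]
  | succ n ih =>
    intro m hm F g
    obtain rfl : m = (2 * n + 1) + 1 + 1 := by omega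
    rw [← (Fin.consEquiv (fun _ : Fin (2 * n + 1 + 1 + 1) => ι)).sum_comp]
    rw [Fintype.sum_prod_type]
    refine Finset.sum_congr rfl fun a _ => ?_
    rw [← (Fin.consEquiv (fun _ : Fin (2 * n + 1 + 1) => ι)).sum_comp]
    rw [Fintype.sum_prod_type]
    simp only [chain]
    rw [Finset.mul_sum, Finset.smul_sum]
    refine Finset.sum_congr rfl fun b _ => ?_
    have ih' := ih (2 * n + 1) rfl (fun i => F (i + 1)) (fun c => g a * F 0 a b c)
    have hr : g a • (e a * ∑ c, F 0 a b c • (e b * e c * chain e n (fun i => F (i + 1)) c)) =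
        (e a * e b) * ∑ c, (g a * F 0 a b c) • (e c * chain e n (fun i => F (i + 1)) c) := by
      rw [Finset.mul_sum, Finset.mul_sum, Finset.smul_sum]
      refine Finset.sum_congr rfl fun c _ => ?_
      rw [mul_smul_comm, mul_smul_comm, smul_smul]
      noncomm_ring
    rw [hr, ← ih', Finset.mul_sum]
    refine Finset.sum_congr rfl fun y _ => ?_
    rw [mul_smul_comm]
    congr 1
    · rw [Fin.prod_univ_succ, mul_assoc]
      rfl
    · simp only [List.ofFn_succ, List.prod_cons]
      rw [mul_assoc]
      rfl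

/-- The sum over all words equals the chain sum. -/
lemma sum_words (e : ι → R) (n : ℕ) (F : ℕ → ι → ι → ι → ℤ) :
      ∑ a : Fin (2 * n + 1) → ι,
        (∏ i : Fin n, F i (a ⟨2 * i, by omega⟩) (a ⟨2 * i + 1, by omega⟩)
          (a ⟨2 * i + 2, by omega⟩)) • (List.ofFn (fun k => e (a k))).prod =
      ∑ a, e a * chain e n F a := by
  have := sum_words_aux e n (2 * n + 1) rfl F (fun _ => 1)
  simpa using this

end alg

end Pool.Agent.Lib_helper74.OrAlg
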