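import Mathlib

/-!
Definitions for the problem MP_89dd65_gt: the orientation cocycle of the circle and the
alternation of its products over the factors of the torus.
-/

namespace Pool.Agent.Lib_helper74.OrDefs

/-- The points `a, b, c` of the unit circle are distinct and in counterclockwise cyclic order:
they have arguments `x < y < z < x + 2 * π`. -/
def IsCCW (a b c : Circle) : Prop :=
  ∃ x y z : ℝ, x < y ∧ y < z ∧ z < x + 2 * Real.pi ∧
    Circle.exp x = a ∧ Circle.exp y = b ∧ Circle.exp z = c

open Classical in
/-- The orientation cocycle: `1` on distinct points in counterclockwise cyclic order, `-1` on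
distinct points in clockwise cyclic order, `0` otherwise. -/
noncomputable def orient (a b c : Circle) : ℝ :=
  if IsCCW a b c then 1 else if IsCCW a c b then -1 else 0

/-- `Θ_n` of the problem. The circle with index `i : Fin n` is the `(i + 1)`-st circle, so the
product runs over the orientation cocycles at `σ (2 i), σ (2 i + 1), σ (2 i + 2)`. -/
noncomputable def Theta (n : ℕ) (θ : Fin (2 * n + 1) → Fin n → Circle) : ℝ :=
  Real.pi ^ n / (Nat.factorial (2 * n + 1) : ℝ) *
    ∑ σ : Equiv.Perm (Fin (2 * n + 1)), ((Equiv.Perm.sign σ : ℤ) : ℝ) *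
      ∏ i : Fin n, orient (θ (σ ⟨2 * i, by omega⟩) i) (θ (σ ⟨2 * i + 1, by omega⟩) i)
        (θ (σ ⟨2 * i + 2, by omega⟩) i)

/-- The configuration `θ*`: its `j`-th point has `k`-th coordinate `ζ ^ (k j)` for `1 ≤ k ≤ n`,
with `ζ = exp (2 π i / (2 n + 1))`; here `k = i + 1` with `i : Fin n`. -/
noncomputable def thetaStar (n : ℕ) : Fin (2 * n + 1) → Fin n → Circle :=
  fun j i => Circle.exp (2 * Real.pi / (2 * n + 1)) ^ (((i : ℕ) + 1) * (j : ℕ))

end Pool.Agent.Lib_helper74.OrDefs
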