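import Pool.Agent.Lib_helper74.OrTree

/-!
Pruned trees and their evaluation.
-/

namespace Pool.Agent.Lib_helper74.OrEval

open Finset Pool.Agent.Lib_helper74.OrAlg Pool.Agent.Lib_helper74.OrTree

/-- Pruned trees. -/
inductive Tr : Type
  | z : Tr
  | l : ℤ → Tr
  | n : Tr → Tr → Tr

namespace Tr

/-- Node with pruning. -/
def mk : Tr → Tr → Tr
  | z, z => z
  | x, y => n x y

/-- Addition. -/
def add : Tr → Tr → Tr
  | z, t => t
  | l a, l b => l (a + b)
  | n a b, n c d => mk (add a c) (add b d)
  | t, _ => t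

/-- Negation. -/
def neg : Tr → Tr
  | z => z
  | l a => l (-a)
  | n a b => n (neg a) (neg b)

end Tr

open Tr

/-- Signs. -/
inductive Sg : Type
  | o : Sg
  | p : Sg
  | m : Sg
  deriving DecidableEq

/-- Value of a sign. -/
def Sg.val : Sg → ℤ
  | .o => 0
  | .p => 1
  | .m => -1

/-- Multiplication by a sign (`b = true` means an additional minus sign). -/
def scale : Sg → Bool → Tr → Tr
  | .o, _, _ => z
  | .p, false, t => t
  | .p, true, t => neg t
  | .m, true, t => t
  | .m, false, t => neg t

/-- `mvTr v b x` is `± mv v x`. -/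
def mvTr : List Sg → Bool → Tr → Tr
  | [], _, _ => z
  | c :: v, b, n x y => mk (mvTr v b x) (add (scale c b x) (mvTr v (!b) y))
  | _ :: _, _, _ => z

/-- `mw`. -/
def mwTr : List (List Sg) → Tr → Tr
  | [], _ => z
  | u :: rows, n x y => mk (mwTr rows x) (add (mvTr u false x) (mwTr rows y))
  | _ :: _, _ => z

/-- The unit. -/
def oneTr : ℕ → Tr
  | 0 => l 1
  | k + 1 => n (oneTr k) z

/-- The top coefficient. -/
def topTr : ℕ → Tr → ℤ
  | 0, l a => a
  | 0, _ => 0
  | k + 1, n _ y => topTr k y
  | _ + 1, _ => 0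

/-- The evaluation. -/
def ev (N : ℕ) (ones : List Sg) (ps : List (List (List Sg))) : ℤ :=
  topTr N (mvTr ones false (ps.foldr mwTr (oneTr N)))

/-- Row of values of a function. -/
def rowF (v : ℕ → Sg) : ℕ → List Sg
  | 0 => []
  | k + 1 => v k :: rowF v k

/-- Rows of a matrix. -/
def rowsF (s : ℕ → ℕ → Sg) : ℕ → List (List Sg)
  | 0 => []
  | k + 1 => rowF (s k) k :: rowsF s k

/-! ### Semantics -/

/-- Well-formed trees of depth `k`. -/
def wf : ℕ → Tr → Prop
  | _, z => True
  | 0, l _ => True
  | k + 1, n x y => wf k x ∧ wf k y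
  | 0, n _ _ => False
  | _ + 1, l _ => False

/-- Value at a leaf. -/
def leafV : Tr → ℤ
  | l a => a
  | z => 0
  | n _ _ => 0

/-- The element represented by a tree. -/
def sem : (k : ℕ) → Tr → T k
  | 0, t => (leafV t : ℤ)
  | k + 1, t => match t with
    | n x y => pr (sem k x) (sem k y)
    | z => 0
    | l _ => 0

lemma sem_n (k : ℕ) (x y : Tr) : sem (k + 1) (n x y) = pr (sem k x) (sem k y) := rfl

lemma sem_z (k : ℕ) : sem k z = 0 := by cases k <;> rfl

lemma wf_z (k : ℕ) : wf k z := by cases k <;> trivial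

lemma wf_mk (k : ℕ) (x y : Tr) (hx : wf k x) (hy : wf k y) : wf (k + 1) (Tr.mk x y) := by
  cases x <;> cases y <;> first | exact ⟨hx, hy⟩ | trivial

lemma sem_mk (k : ℕ) (x y : Tr) : sem (k + 1) (Tr.mk x y) = pr (sem k x) (sem k y) := by
  cases x <;> cases y <;> first | rfl | (simp only [Tr.mk, sem_z]; rfl)

lemma add_spec (k : ℕ) : ∀ s t : Tr, wf k s → wf k t →
    wf k (add s t) ∧ sem k (add s t) = sem k s + sem k t := by
  induction k with
  | zero =>
    intro s t hs ht
    cases s with
    | z => exact ⟨ht, (zero_add (sem 0 t)).symm⟩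
    | l a =>
      cases t with
      | z => exact ⟨trivial, (add_zero (sem 0 (l a))).symm⟩
      | l b => exact ⟨trivial, rfl⟩
      | n c d => exact ht.elim
    | n a b => exact hs.elim
  | succ k ih =>
    intro s t hs ht
    cases s with
    | z => simp [add, sem_z, ht]
    | l a => exact hs.elim
    | n a b =>
      cases t with
      | z => simp only [add, sem_z, add_zero]; exact ⟨hs, trivial⟩
      | l a => exact ht.elim
      | n c d =>
        obtain ⟨ha, hb⟩ := hs
        obtain ⟨hc, hd⟩ := ht
        obtain ⟨h1, h2⟩ := ih a c ha hc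
        obtain ⟨h3, h4⟩ := ih b d hb hd
        refine ⟨wf_mk k _ _ h1 h3, ?_⟩
        simp only [add]
        rw [sem_mk, h2, h4, sem_n, sem_n, pr_add]

lemma neg_spec (k : ℕ) : ∀ s : Tr, wf k s → wf k (neg s) ∧ sem k (neg s) = - sem k s := by
  induction k with
  | zero =>
    intro s hs
    cases s with
    | z => exact ⟨trivial, rfl⟩
    | l a => exact ⟨trivial, rfl⟩
    | n a b => exact hs.elim
  | succ k ih =>
    intro s hs
    cases s with
    | z => simp [neg, sem_z, wf_z]
    | l a => exact hs.elim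
    | n a b =>
      obtain ⟨ha, hb⟩ := hs
      obtain ⟨h1, h2⟩ := ih a ha
      obtain ⟨h3, h4⟩ := ih b hb
      refine ⟨⟨h1, h3⟩, ?_⟩
      simp only [neg]
      rw [sem_n, h2, h4, sem_n, pr_neg]

/-- Value of the sign flag. -/
def bv (b : Bool) : ℤ := if b then -1 else 1

lemma scale_spec (k : ℕ) (c : Sg) (b : Bool) (t : Tr) (ht : wf k t) :
    wf k (scale c b t) ∧ sem k (scale c b t) = (bv b * c.val) • sem k t := by
  have h := neg_spec k t ht
  cases c <;> cases b <;> simp [scale, bv, Sg.val, sem_z, wf_z, ht, h.1, h.2]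

/-- Decoding a row. -/
def dec : List Sg → ℕ → ℤ
  | [], _ => 0
  | c :: v, j => if j = v.length then c.val else dec v j

/-- Decoding rows. -/
def decM : List (List Sg) → ℕ → ℕ → ℤ
  | [], _, _ => 0
  | u :: rows, i, j => if i = rows.length then dec u j else decM rows i j

/-- Well-formed rows. -/
def wfR : List (List Sg) → Prop
  | [] => True
  | u :: rows => u.length = rows.length ∧ wfR rows

lemma mv_cons (c : Sg) (v : List Sg) (x : T v.length) :
    mv v.length (dec (c :: v)) x = mv v.length (dec v) x :=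
  mv_congr _ _ _ (fun j hj => by simp [dec, Nat.ne_of_lt hj]) x

lemma mvTr_spec : ∀ (v : List Sg) (k : ℕ) (_ : v.length = k) (b : Bool) (t : Tr), wf k t →
    wf k (mvTr v b t) ∧ sem k (mvTr v b t) = bv b • mv k (dec v) (sem k t) := by
  intro v
  induction v with
  | nil =>
    intro k hk b t _
    subst hk
    exact ⟨trivial, (smul_zero _).symm⟩
  | cons c v ih =>
    intro k hk b t ht
    subst hk
    have hbb : bv (!b) = - bv b := by cases b <;> simp [bv]
    cases t with
    | z =>
      refine ⟨wf_z _, ?_⟩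
      rw [sem_z, mv_zero, smul_zero]; exact sem_z _
    | l a => exact ht.elim
    | n x y =>
      obtain ⟨hx, hy⟩ := ht
      obtain ⟨h1, h2⟩ := ih v.length rfl b x hx
      obtain ⟨h3, h4⟩ := ih v.length rfl (!b) y hy
      obtain ⟨h5, h6⟩ := scale_spec v.length c b x hx
      obtain ⟨h7, h8⟩ := add_spec v.length _ _ h5 h3
      refine ⟨wf_mk _ _ _ h1 h7, ?_⟩
      have hm : sem (c :: v).length (mvTr (c :: v) b (n x y)) =
          pr (sem v.length (mvTr v b x)) (sem v.length (add (scale c b x) (mvTr v (!b) y))) :=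
        sem_mk _ _ _
      have hs : sem (c :: v).length (n x y) = pr (sem v.length x) (sem v.length y) := rfl
      rw [hm, hs]
      show _ = bv b • mv (v.length + 1) (dec (c :: v)) (pr (sem v.length x) (sem v.length y))
      rw [mv_succ, pr_smul, h2, h8, h6, h4, mv_cons, mv_cons, hbb, smul_sub, smul_smul,
        show dec (c :: v) v.length = c.val by simp [dec], neg_smul, sub_eq_add_neg]

lemma mwTr_spec : ∀ (r : List (List Sg)) (k : ℕ) (_ : r.length = k) (_ : wfR r) (t : Tr),
    wf k t → wf k (mwTr r t) ∧ sem k (mwTr r t) = mw k (decM r) (sem k t) := by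
  intro r
  induction r with
  | nil =>
    intro k hk _ t _
    subst hk
    exact ⟨trivial, rfl⟩
  | cons u r ih =>
    intro k hk hr t ht
    subst hk
    obtain ⟨hu, hr⟩ := hr
    have hc : ∀ x : T r.length, mw r.length (decM (u :: r)) x = mw r.length (decM r) x :=
      fun x => mw_congr _ _ _ (fun i hi j _ => by simp [decM, Nat.ne_of_lt hi]) x
    cases t with
    | z =>
      refine ⟨wf_z _, ?_⟩
      rw [sem_z]
      have : ∀ k (s : ℕ → ℕ → ℤ), mw k s 0 = 0 := by
        intro k s
        induction k with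
        | zero => rfl
        | succ k ih => rw [pr_zero, mw_succ, ih, mv_zero, add_zero]
      rw [this]; exact sem_z _
    | l a => exact ht.elim
    | n x y =>
      obtain ⟨hx, hy⟩ := ht
      obtain ⟨h1, h2⟩ := ih r.length rfl hr x hx
      obtain ⟨h3, h4⟩ := ih r.length rfl hr y hy
      obtain ⟨h5, h6⟩ := mvTr_spec u r.length hu false x hx
      obtain ⟨h7, h8⟩ := add_spec r.length _ _ h5 h3
      refine ⟨wf_mk _ _ _ h1 h7, ?_⟩
      have hm : sem (u :: r).length (mwTr (u :: r) (n x y)) =
          pr (sem r.length (mwTr r x)) (sem r.length (add (mvTr u false x) (mwTr r y))) :=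
        sem_mk _ _ _
      have hs : sem (u :: r).length (n x y) = pr (sem r.length x) (sem r.length y) := rfl
      rw [hm, hs]
      show _ = mw (r.length + 1) (decM (u :: r)) (pr (sem r.length x) (sem r.length y))
      rw [mw_succ, h2, h8, h6, h4, hc, hc,
        show decM (u :: r) r.length = dec u by funext j; simp [decM]]
      simp [bv]

lemma oneTr_spec (k : ℕ) : wf k (oneTr k) ∧ sem k (oneTr k) = one k := by
  induction k with
  | zero => exact ⟨trivial, rfl⟩
  | succ k ih =>
    refine ⟨⟨ih.1, wf_z k⟩, ?_⟩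
    show pr (sem k (oneTr k)) (sem k z) = pr (one k) 0
    rw [ih.2, sem_z]

lemma top_zero (k : ℕ) : top k 0 = 0 := by
  induction k with
  | zero => rfl
  | succ k ih => exact ih

lemma topTr_spec (k : ℕ) : ∀ t : Tr, wf k t → topTr k t = top k (sem k t) := by
  induction k with
  | zero => intro t ht; cases t <;> rfl
  | succ k ih =>
    intro t ht
    cases t with
    | z => rw [sem_z, top_zero]; rfl
    | l a => exact ht.elim
    | n x y => exact ih y ht.2

lemma rowF_length (v : ℕ → Sg) (k : ℕ) : (rowF v k).length = k := by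
  induction k with
  | zero => rfl
  | succ k ih => simp [rowF, ih]

lemma rowsF_length (s : ℕ → ℕ → Sg) (k : ℕ) : (rowsF s k).length = k := by
  induction k with
  | zero => rfl
  | succ k ih => simp [rowsF, ih]

lemma dec_rowF (v : ℕ → Sg) (k : ℕ) : ∀ j < k, dec (rowF v k) j = (v j).val := by
  induction k with
  | zero => intro j hj; omega
  | succ k ih =>
    intro j hj
    simp only [rowF, dec, rowF_length]
    split_ifs with h
    · rw [h]
    · exact ih j (by omega)

lemma decM_rowsF (s : ℕ → ℕ → Sg) (k : ℕ) :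
    ∀ i < k, ∀ j < i, decM (rowsF s k) i j = (s i j).val := by
  induction k with
  | zero => intro i hi; omega
  | succ k ih =>
    intro i hi j hj
    simp only [rowsF, decM, rowsF_length]
    split_ifs with h
    · subst h; exact dec_rowF _ _ j hj
    · exact ih i (by omega) j hj

lemma wfR_rowsF (s : ℕ → ℕ → Sg) (k : ℕ) : wfR (rowsF s k) := by
  induction k with
  | zero => trivial
  | succ k ih => exact ⟨by rw [rowF_length, rowsF_length], ih⟩

/-- Iterated two-forms applied to the unit. -/
def mws (N : ℕ) : (q : ℕ) → (ℕ → ℕ → ℕ → ℤ) → T N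
  | 0, _ => one N
  | q + 1, s => mw N (s 0) (mws N q (fun i => s (i + 1)))

lemma foldr_spec (N : ℕ) (n : ℕ) : ∀ (s : ℕ → ℕ → ℕ → Sg),
    wf N (((List.range n).map (fun i => rowsF (s i) N)).foldr mwTr (oneTr N)) ∧
    sem N (((List.range n).map (fun i => rowsF (s i) N)).foldr mwTr (oneTr N)) =
      mws N n (fun i a b => (s i a b).val) := by
  induction n with
  | zero => intro s; exact oneTr_spec N
  | succ n ih =>
    intro s
    have h := ih (fun i => s (i + 1))
    have hl : (List.range (n + 1)).map (fun i => rowsF (s i) N) =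
        rowsF (s 0) N :: (List.range n).map (fun i => rowsF (s (i + 1)) N) := by
      rw [List.range_succ_eq_map]; simp
    rw [hl, List.foldr_cons]
    obtain ⟨h1, h2⟩ := mwTr_spec (rowsF (s 0) N) N (rowsF_length _ _) (wfR_rowsF _ _) _ h.1
    refine ⟨h1, ?_⟩
    rw [h2, h.2]
    exact mw_congr N _ _ (decM_rowsF (s 0) N) _

lemma ev_spec (N n : ℕ) (s : ℕ → ℕ → ℕ → Sg) :
    ev N (rowF (fun _ => Sg.p) N) ((List.range n).map (fun i => rowsF (s i) N)) =
      top N (mv N (fun _ => 1) (mws N n (fun i a b => (s i a b).val))) := by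
  obtain ⟨h1, h2⟩ := foldr_spec N n s
  obtain ⟨h3, h4⟩ := mvTr_spec (rowF (fun _ => Sg.p) N) N (rowF_length _ _) false _ h1
  unfold ev
  rw [topTr_spec N _ h3, h4, h2]
  simp only [bv, Bool.false_eq_true, if_false, one_smul]
  rw [mv_congr N _ (fun _ => 1) (fun j hj => by rw [dec_rowF _ _ j hj]; rfl)]

end Pool.Agent.Lib_helper74.OrEval
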