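import Pool.Agent.Lib_helper74.OrMain

/-!
From the evaluation to the sup norm.
-/

namespace Pool.Agent.Lib_helper74.OrFinal

open Finset Pool.Agent.Lib_helper74.OrAlg Pool.Agent.Lib_helper74.OrTree
  Pool.Agent.Lib_helper74.OrEval Pool.Agent.Lib_helper74.OrDefs Pool.Agent.Lib_helper74.OrMain

lemma isCCW_iff {x y z : ℝ} (hx : 0 ≤ x) (hx' : x < 2 * Real.pi) (hy : 0 ≤ y)
    (hy' : y < 2 * Real.pi) (hz : 0 ≤ z) (hz' : z < 2 * Real.pi) :
    IsCCW (Circle.exp x) (Circle.exp y) (Circle.exp z) ↔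
      (x < y ∧ y < z) ∨ (y < z ∧ z < x) ∨ (z < x ∧ x < y) := by
  have hpi := Real.pi_pos
  constructor
  · rintro ⟨X, Y, Z, h1, h2, h3, hX, hY, hZ⟩
    obtain ⟨k, hk⟩ := Circle.exp_eq_exp.1 hX
    obtain ⟨l, hl⟩ := Circle.exp_eq_exp.1 hY
    obtain ⟨m, hm⟩ := Circle.exp_eq_exp.1 hZ
    have a1 : k ≤ l := by
      by_contra h
      have : (l : ℝ) + 1 ≤ k := by exact_mod_cast (by omega : l + 1 ≤ k)
      nlinarith
    have a2 : l ≤ m := by
      by_contra h
      have : (m : ℝ) + 1 ≤ l := by exact_mod_cast (by omega : m + 1 ≤ l)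
      nlinarith
    have a3 : m ≤ k + 1 := by
      by_contra h
      have : (k : ℝ) + 2 ≤ m := by exact_mod_cast (by omega : k + 2 ≤ m)
      nlinarith
    rcases (by omega : (l = k ∧ m = k) ∨ (l = k ∧ m = k + 1) ∨ (l = k + 1 ∧ m = k + 1)) with
      ⟨rfl, rfl⟩ | ⟨rfl, rfl⟩ | ⟨rfl, rfl⟩
    · left; constructor <;> linarith
    · right; right; push_cast at *; constructor <;> linarith
    · right; left; push_cast at *; constructor <;> linarith
  · rintro (⟨h1, h2⟩ | ⟨h1, h2⟩ | ⟨h1, h2⟩)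
    · exact ⟨x, y, z, h1, h2, by linarith, rfl, rfl, rfl⟩
    · exact ⟨x, y + 2 * Real.pi, z + 2 * Real.pi, by linarith, by linarith, by linarith, rfl,
        Circle.exp_eq_exp.2 ⟨1, by push_cast; ring⟩, Circle.exp_eq_exp.2 ⟨1, by push_cast; ring⟩⟩
    · exact ⟨x, y, z + 2 * Real.pi, by linarith, by linarith, by linarith, rfl, rfl,
        Circle.exp_eq_exp.2 ⟨1, by push_cast; ring⟩⟩

/-- Sign of the difference of two positions. -/
def sg (a b : ℕ) : Sg := if a < b then .p else if b < a then .m else .o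

lemma sg_anti (a b : ℕ) : (sg b a).val = - (sg a b).val := by
  unfold sg
  rcases lt_trichotomy a b with h | h | h
  · simp [h, h.le.not_gt, Sg.val]
  · simp [h, Sg.val]
  · simp [h, h.le.not_gt, Sg.val]

/-- Configuration given by positions. -/
noncomputable def cfg (n : ℕ) (pos : ℕ → ℕ → ℕ) : Fin (2 * n + 1) → Fin n → Circle :=
  fun j i => Circle.exp (2 * Real.pi * (pos i j) / (2 * n + 1))

lemma orient_pos {N p q r : ℕ} (hp : p < N) (hq : q < N) (hr : r < N) :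
    orient (Circle.exp (2 * Real.pi * p / N)) (Circle.exp (2 * Real.pi * q / N))
      (Circle.exp (2 * Real.pi * r / N)) =
      (((sg p q).val + (sg q r).val + (sg r p).val : ℤ) : ℝ) := by
  have hpi := Real.pi_pos
  have hN : (0 : ℝ) < N := by exact_mod_cast (by omega : 0 < N)
  have key : ∀ a : ℕ, a < N → 0 ≤ 2 * Real.pi * a / N ∧ 2 * Real.pi * a / N < 2 * Real.pi := by
    intro a ha
    refine ⟨by positivity, ?_⟩
    rw [div_lt_iff₀ hN]
    have : (a : ℝ) < N := by exact_mod_cast ha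
    nlinarith
  have hlt : ∀ a b : ℕ, 2 * Real.pi * a / N < 2 * Real.pi * b / N ↔ a < b := by
    intro a b
    rw [div_lt_div_iff_of_pos_right hN]
    constructor
    · intro h
      have : (a : ℝ) < b := lt_of_mul_lt_mul_left h (by positivity)
      exact_mod_cast this
    · intro h
      have : (a : ℝ) < b := by exact_mod_cast h
      nlinarith
  obtain ⟨p1, p2⟩ := key p hp
  obtain ⟨q1, q2⟩ := key q hq
  obtain ⟨r1, r2⟩ := key r hr
  unfold orient
  rw [isCCW_iff p1 p2 q1 q2 r1 r2, isCCW_iff p1 p2 r1 r2 q1 q2]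
  simp only [hlt]
  unfold sg
  rcases lt_trichotomy p q with h1 | h1 | h1 <;> rcases lt_trichotomy q r with h2 | h2 | h2 <;>
    rcases lt_trichotomy r p with h3 | h3 | h3 <;>
    first
    | (exfalso; omega)
    | (subst h1; subst h2; simp [Sg.val])
    | (subst h1; simp [h2, h3, h2.not_gt, h3.not_gt, Sg.val])
    | (subst h2; simp [h1, h3, h1.not_gt, h3.not_gt, Sg.val])
    | (subst h3; simp [h2, h1, h2.not_gt, h1.not_gt, Sg.val])
    | (simp [h1, h2, h3, h1.not_gt, h2.not_gt, h3.not_gt, Sg.val])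

lemma Theta_cfg (n : ℕ) (pos : ℕ → ℕ → ℕ) (hpos : ∀ i < n, ∀ j < 2 * n + 1, pos i j < 2 * n + 1) :
    Theta n (cfg n pos) = Real.pi ^ n / (Nat.factorial (2 * n + 1) : ℝ) *
      (altSum n (fun i a b c => (sg (pos i a) (pos i b)).val + (sg (pos i b) (pos i c)).val +
        (sg (pos i c) (pos i a)).val) : ℤ) := by
  unfold Theta altSum
  congr 1
  push_cast
  refine Finset.sum_congr rfl fun σ _ => ?_
  congr 1
  refine Finset.prod_congr rfl fun i _ => ?_
  have h := orient_pos (hpos i i.2 (σ ⟨2 * i, by omega⟩) (σ _).2)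
    (hpos i i.2 (σ ⟨2 * i + 1, by omega⟩) (σ _).2)
    (hpos i i.2 (σ ⟨2 * i + 2, by omega⟩) (σ _).2)
  unfold cfg
  push_cast at h
  exact h

lemma thetaStar_eq (n : ℕ) :
    thetaStar n = cfg n (fun i j => ((i + 1) * j) % (2 * n + 1)) := by
  funext j i
  unfold thetaStar cfg
  rw [← Circle.exp_nsmul]
  refine Circle.exp_eq_exp.2 ⟨(((i : ℕ) + 1) * (j : ℕ)) / (2 * n + 1), ?_⟩
  have h := Nat.div_add_mod (((i : ℕ) + 1) * (j : ℕ)) (2 * n + 1)
  have h' : (((2 * n + 1 : ℕ) : ℝ) * ((((i : ℕ) + 1) * (j : ℕ)) / (2 * n + 1) : ℕ) +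
    ((((i : ℕ) + 1) * (j : ℕ)) % (2 * n + 1) : ℕ) : ℝ) = ((((i : ℕ) + 1) * (j : ℕ) : ℕ) : ℝ) := by
    exact_mod_cast h
  have hN : (0 : ℝ) < 2 * n + 1 := by positivity
  have hN' : ((2 * n + 1 : ℕ) : ℝ) = 2 * n + 1 := by push_cast; ring
  rw [nsmul_eq_mul, ← h', hN']
  have h2 : (((((i : ℕ) : ℤ) + 1) * ((j : ℕ) : ℤ) / (2 * (n : ℤ) + 1) : ℤ) : ℝ) =
      ((((((i : ℕ) + 1) * (j : ℕ)) / (2 * n + 1) : ℕ)) : ℝ) := by
    norm_cast
  rw [h2]
  field_simp
  ring

lemma abs_Theta_le (n : ℕ) (θ : Fin (2 * n + 1) → Fin n → Circle) :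
    |Theta n θ| ≤ Real.pi ^ n := by
  have ho : ∀ a b c, |orient a b c| ≤ 1 := by
    intro a b c
    unfold orient
    split_ifs <;> simp
  unfold Theta
  rw [abs_mul, abs_of_nonneg (by positivity)]
  have hf : (0 : ℝ) < Nat.factorial (2 * n + 1) := by positivity
  rw [div_mul_eq_mul_div, div_le_iff₀ hf]
  refine mul_le_mul_of_nonneg_left ?_ (by positivity)
  refine (Finset.abs_sum_le_sum_abs _ _).trans ?_
  calc _ ≤ ∑ σ : Equiv.Perm (Fin (2 * n + 1)), (1 : ℝ) := by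
        refine Finset.sum_le_sum fun σ _ => ?_
        rw [abs_mul, Finset.abs_prod]
        have h1 : |((Equiv.Perm.sign σ : ℤ) : ℝ)| = 1 := by
          rcases Int.units_eq_one_or (Equiv.Perm.sign σ) with h | h <;> simp [h]
        rw [h1, one_mul]
        exact Finset.prod_le_one (fun _ _ => abs_nonneg _) (fun i _ => ho _ _ _)
    _ = _ := by
        rw [Finset.sum_const, nsmul_eq_mul, mul_one, Finset.card_univ, Fintype.card_perm,
          Fintype.card_fin]

/-- The matrices of a position function. -/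
def mats (n : ℕ) (pos : ℕ → ℕ → ℕ) : List (List (List Sg)) :=
  (List.range n).map (fun i => rowsF (fun a b => sg (pos i a) (pos i b)) (2 * n + 1))

/-- The evaluation of a position function. -/
def evp (n : ℕ) (pos : ℕ → ℕ → ℕ) : ℤ :=
  ev (2 * n + 1) (rowF (fun _ => Sg.p) (2 * n + 1)) (mats n pos)

lemma Theta_lt (n : ℕ) (pos pos' : ℕ → ℕ → ℕ)
    (hpos : ∀ i < n, ∀ j < 2 * n + 1, pos i j < 2 * n + 1)
    (hpos' : ∀ i < n, ∀ j < 2 * n + 1, pos' i j < 2 * n + 1)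
    (h : |evp n pos| < |evp n pos'|) :
    |Theta n (cfg n pos)| < |Theta n (cfg n pos')| := by
  set τ := top (2 * n + 1) (Phi (2 * n + 1) (List.ofFn (fun k => E (2 * n + 1) k)).prod
          (one (2 * n + 1))) with hτ
  have e1 := altSum_eq n (fun i a b => (sg (pos i a) (pos i b)).val)
    (fun i a b => sg_anti _ _)
  have e2 := altSum_eq n (fun i a b => (sg (pos' i a) (pos' i b)).val)
    (fun i a b => sg_anti _ _)
  rw [← ev_spec (2 * n + 1) n (fun i a b => sg (pos i a) (pos i b))] at e1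
  rw [← ev_spec (2 * n + 1) n (fun i a b => sg (pos' i a) (pos' i b))] at e2
  change _ * τ = ((2 * n + 1 : ℕ) : ℤ) * (2 ^ n * evp n pos) at e1
  change _ * τ = ((2 * n + 1 : ℕ) : ℤ) * (2 ^ n * evp n pos') at e2
  rw [Theta_cfg n pos hpos, Theta_cfg n pos' hpos', abs_mul, abs_mul]
  have hc : 0 < |Real.pi ^ n / (Nat.factorial (2 * n + 1) : ℝ)| := by
    have := Real.pi_pos
    positivity
  refine mul_lt_mul_of_pos_left ?_ hc
  rw [← Int.cast_abs, ← Int.cast_abs]
  have e1' := congrArg abs e1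
  have e2' := congrArg abs e2
  rw [abs_mul, abs_mul, abs_mul] at e1' e2'
  have hpow : 0 < |((2 * n + 1 : ℕ) : ℤ)| * |(2 ^ n : ℤ)| := by positivity
  have hlt : |((2 * n + 1 : ℕ) : ℤ)| * (|(2 ^ n : ℤ)| * |evp n pos|) <
      |((2 * n + 1 : ℕ) : ℤ)| * (|(2 ^ n : ℤ)| * |evp n pos'|) := by
    rw [← mul_assoc, ← mul_assoc]
    exact mul_lt_mul_of_pos_left h hpow
  rw [← e1', ← e2'] at hlt
  exact_mod_cast lt_of_mul_lt_mul_right hlt (abs_nonneg τ)

lemma lt_iSup (n : ℕ) (θ θ' : Fin (2 * n + 1) → Fin n → Circle)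
    (h : |Theta n θ| < |Theta n θ'|) : |Theta n θ| < ⨆ θ, |Theta n θ| := by
  refine lt_of_lt_of_le h (le_ciSup (f := fun θ => |Theta n θ|) ?_ θ')
  exact ⟨Real.pi ^ n, by rintro _ ⟨θ, rfl⟩; exact abs_Theta_le n θ⟩

end Pool.Agent.Lib_helper74.OrFinal
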