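import Pool.Agent.Lib_helper74.OrEval
import Pool.Agent.Lib_helper74.OrDefs

/-!
The alternated product of orientation cocycles as a tree evaluation.
-/

namespace Pool.Agent.Lib_helper74.OrMain

open Finset Pool.Agent.Lib_helper74.OrAlg Pool.Agent.Lib_helper74.OrTree
  Pool.Agent.Lib_helper74.OrEval Pool.Agent.Lib_helper74.OrDefs

/-- Extension by zero. -/
def exf (N : ℕ) (v : Fin N → ℤ) : ℕ → ℤ := fun j => if h : j < N then v ⟨j, h⟩ else 0

/-- Left multiplication as a linear map. -/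
def MV (N : ℕ) : (Fin N → ℤ) →ₗ[ℤ] Module.End ℤ (T N) where
  toFun v :=
    { toFun := fun x => mv N (exf N v) x
      map_add' := fun x y => mv_add N _ x y
      map_smul' := fun c x => mv_zsmul N _ c x }
  map_add' v w := by
    ext x
    show mv N (exf N (v + w)) x = mv N (exf N v) x + mv N (exf N w) x
    rw [← mv_add_left]
    exact mv_congr N _ _ (fun j hj => by simp [exf, hj]) x
  map_smul' c v := by
    ext x
    show mv N (exf N (c • v)) x = c • mv N (exf N v) x
    rw [← mv_smul_left]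
    exact mv_congr N _ _ (fun j hj => by simp [exf, hj]) x

lemma MV_apply (N : ℕ) (v : Fin N → ℤ) (x : T N) : MV N v x = mv N (exf N v) x := rfl

lemma MV_sq (N : ℕ) (v : Fin N → ℤ) : MV N v * MV N v = 0 := by
  ext x
  exact mv_sq N _ x

/-- The representation of the exterior algebra. -/
noncomputable def Phi (N : ℕ) : ExteriorAlgebra ℤ (Fin N → ℤ) →ₐ[ℤ] Module.End ℤ (T N) :=
  ExteriorAlgebra.lift ℤ ⟨MV N, MV_sq N⟩

/-- The generators. -/
noncomputable def E (N : ℕ) (j : Fin N) : ExteriorAlgebra ℤ (Fin N → ℤ) :=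
  ExteriorAlgebra.ι ℤ (Pi.single j (1 : ℤ))

lemma E_anti (N : ℕ) (a b : Fin N) : E N a * E N b = -(E N b * E N a) := by
  have := ExteriorAlgebra.ι_add_mul_swap (R := ℤ) (Pi.single a (1 : ℤ) : Fin N → ℤ)
    (Pi.single b (1 : ℤ))
  exact eq_neg_of_add_eq_zero_left this

lemma E_eta (N : ℕ) : eta (E N) * eta (E N) = 0 := by
  unfold eta E
  rw [← map_sum]
  exact ExteriorAlgebra.ι_sq_zero _

lemma Phi_E (N : ℕ) (j : Fin N) (x : T N) : Phi N (E N j) x = mv N (dl j) x := by
  unfold Phi E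
  rw [ExteriorAlgebra.lift_ι_apply, MV_apply]
  refine mv_congr N _ _ (fun i hi => ?_) x
  simp only [exf, hi, dif_pos, dl, Pi.single_apply, Fin.ext_iff]

lemma Phi_eta (N : ℕ) (x : T N) : Phi N (eta (E N)) x = mv N (fun _ => 1) x := by
  unfold eta Phi E
  rw [← map_sum, ExteriorAlgebra.lift_ι_apply, MV_apply]
  refine mv_congr N _ _ (fun i hi => ?_) x
  simp [exf, hi, Finset.sum_apply, Pi.single_apply]

lemma Phi_Om (N : ℕ) (s : ℕ → ℕ → ℤ) (hs : ∀ a b, s b a = - s a b) (x : T N) :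
    Phi N (Om (E N) (fun a b => s a b)) x = (2 : ℤ) • mw N s x := by
  unfold Om
  rw [← two_mw N s hs, map_sum, LinearMap.sum_apply, Finset.sum_range]
  refine Finset.sum_congr rfl fun b _ => ?_
  rw [map_sum, LinearMap.sum_apply, Finset.sum_range]
  refine Finset.sum_congr rfl fun c _ => ?_
  rw [map_zsmul, map_mul]
  show s b c • Phi N (E N b) (Phi N (E N c) x) = _
  rw [Phi_E, Phi_E]

lemma Phi_W (N : ℕ) (q : ℕ) : ∀ (s : ℕ → ℕ → ℕ → ℤ) (_ : ∀ i a b, s i b a = - s i a b),
    Phi N (W (E N) q (fun i a b => s i a b)) (one N) = (2 ^ q : ℤ) • mws N q s := by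
  induction q with
  | zero => intro s _; simp [W, mws]
  | succ q ih =>
    intro s hs
    show Phi N (Om (E N) (fun a b => s 0 a b) * W (E N) q (fun i a b => s (i + 1) a b)) (one N) = _
    rw [map_mul]
    show Phi N (Om (E N) (fun a b => s 0 a b))
      (Phi N (W (E N) q (fun i a b => s (i + 1) a b)) (one N)) = _
    rw [ih (fun i => s (i + 1)) (fun i => hs (i + 1)), map_zsmul, Phi_Om N (s 0) (hs 0), smul_smul,
      pow_succ]
    rfl

/-- The alternated sum. -/
def altSum (n : ℕ) (F : ℕ → Fin (2 * n + 1) → Fin (2 * n + 1) → Fin (2 * n + 1) → ℤ) : ℤ :=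
  ∑ σ : Equiv.Perm (Fin (2 * n + 1)), (Equiv.Perm.sign σ : ℤ) *
      ∏ i : Fin n, F i (σ ⟨2 * i, by omega⟩) (σ ⟨2 * i + 1, by omega⟩) (σ ⟨2 * i + 2, by omega⟩)

lemma sum_words_perm (N : ℕ) (G : (Fin N → Fin N) → ℤ) :
    ∑ a : Fin N → Fin N, G a • (List.ofFn (fun k => E N (a k))).prod =
      (∑ σ : Equiv.Perm (Fin N), (Equiv.Perm.sign σ : ℤ) * G σ) •
        (List.ofFn (fun k => E N k)).prod := by
  have hι : ∀ a : Fin N → Fin N, (List.ofFn (fun k => E N (a k))).prod =
      ExteriorAlgebra.ιMulti ℤ N (fun k => (Pi.single (a k) (1 : ℤ) : Fin N → ℤ)) := by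
    intro a; rw [ExteriorAlgebra.ιMulti_apply]; rfl
  have hinj : ∀ a : Fin N → Fin N, ¬ Function.Injective a →
      (List.ofFn (fun k => E N (a k))).prod = 0 := by
    intro a ha
    rw [hι]
    refine AlternatingMap.map_eq_zero_of_not_injective _ _ (fun h => ha ?_)
    intro x y hxy
    exact h (by simp [hxy])
  rw [Finset.sum_smul]
  symm
  refine Finset.sum_of_injOn (fun σ : Equiv.Perm (Fin N) => (σ : Fin N → Fin N)) ?_ ?_ ?_ ?_
  · intro σ _ τ _ h
    exact DFunLike.coe_injective h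
  · intro σ _; simp
  · intro a _ ha
    have : ¬ Function.Injective a := by
      intro hinj
      apply ha
      refine ⟨Equiv.ofBijective a (Finite.injective_iff_bijective.1 hinj), by simp, rfl⟩
    rw [hinj a this, smul_zero]
  · intro σ _
    have hid : (List.ofFn (fun k => E N k)).prod =
      ExteriorAlgebra.ιMulti ℤ N (fun k => (Pi.single k (1 : ℤ) : Fin N → ℤ)) := hι id
    rw [hid, hι σ]
    have := AlternatingMap.map_perm (ExteriorAlgebra.ιMulti ℤ N (M := Fin N → ℤ))
      (fun k => (Pi.single k (1 : ℤ) : Fin N → ℤ)) σ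
    have h2 : ((fun k => (Pi.single k (1 : ℤ) : Fin N → ℤ)) ∘ σ) =
      (fun k => (Pi.single (σ k) (1 : ℤ) : Fin N → ℤ)) := rfl
    rw [h2] at this
    rw [this, mul_comm, mul_smul]
    rfl

/-- The alternated sum, up to a nonzero constant depending only on `n`, is the evaluation. -/
lemma altSum_eq (n : ℕ) (s : ℕ → ℕ → ℕ → ℤ) (hs : ∀ i a b, s i b a = - s i a b) :
    altSum n (fun i a b c => s i a b + s i b c + s i c a) *
        top (2 * n + 1) (Phi (2 * n + 1) (List.ofFn (fun k => E (2 * n + 1) k)).prod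
          (one (2 * n + 1))) =
      ((2 * n + 1 : ℕ) : ℤ) * (2 ^ n *
        top (2 * n + 1) (mv (2 * n + 1) (fun _ => 1) (mws (2 * n + 1) n s))) := by
  set N := 2 * n + 1 with hN
  have h1 := (chain_key (e := E N) (E_anti N) (E_eta N) n
    (fun i a b c => s i a b + s i b c + s i c a) (fun i a b => s i a b)
    (fun i a b => hs i a b) (fun i a b c => rfl)).2
  have h2 := sum_words (E N) n (fun i a b c => s i a b + s i b c + s i c a)
  rw [h1] at h2
  have h3 := sum_words_perm N (fun a => ∏ i : Fin n,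
    (s i (a ⟨2 * i, by omega⟩) (a ⟨2 * i + 1, by omega⟩) +
      s i (a ⟨2 * i + 1, by omega⟩) (a ⟨2 * i + 2, by omega⟩) +
      s i (a ⟨2 * i + 2, by omega⟩) (a ⟨2 * i, by omega⟩)))
  have h4 : (altSum n (fun i a b c => s i a b + s i b c + s i c a)) •
      (List.ofFn (fun k => E N k)).prod =
      (2 * n + 1) • (eta (E N) * W (E N) n (fun i a b => s i a b)) := by
    rw [← h2]; exact h3.symm
  have h5 := congrArg (fun y => top N (Phi N y (one N))) h4
  rw [map_zsmul, LinearMap.smul_apply, top_smul, map_nsmul, LinearMap.smul_apply,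
    ← natCast_zsmul, top_smul, map_mul] at h5
  rw [h5]
  congr 1
  show top N (Phi N (eta (E N)) (Phi N (W (E N) n (fun i a b => s i a b)) (one N))) = _
  rw [Phi_W N n s hs, map_zsmul, top_smul, Phi_eta]

end Pool.Agent.Lib_helper74.OrMain
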