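import Pool.Agent.Lib_helper74.OrAlg

/-!
A concrete model of the exterior algebra on which the alternated products can be computed.
-/

namespace Pool.Agent.Lib_helper74.OrTree

open Finset Pool.Agent.Lib_helper74.OrAlg

/-- The exterior algebra on `k` generators as iterated pairs. -/
def T : ℕ → Type
  | 0 => ℤ
  | k + 1 => T k × T k

instance instT : (k : ℕ) → AddCommGroup (T k)
  | 0 => inferInstanceAs (AddCommGroup ℤ)
  | k + 1 => letI := instT k; inferInstanceAs (AddCommGroup (T k × T k))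

/-- `pr x y` stands for `x + e_k ∧ y`. -/
def pr {k : ℕ} (x y : T k) : T (k + 1) := ((x, y) : T k × T k)

/-- First component. -/
def p1 {k : ℕ} (x : T (k + 1)) : T k := (x : T k × T k).1

/-- Second component. -/
def p2 {k : ℕ} (x : T (k + 1)) : T k := (x : T k × T k).2

lemma pr_eta {k : ℕ} (x : T (k + 1)) : pr (p1 x) (p2 x) = x := rfl
lemma p1_pr {k : ℕ} (x y : T k) : p1 (pr x y) = x := rfl
lemma p2_pr {k : ℕ} (x y : T k) : p2 (pr x y) = y := rfl
lemma pr_add {k : ℕ} (x y x' y' : T k) : pr x y + pr x' y' = pr (x + x') (y + y') := rfl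
lemma pr_zero {k : ℕ} : (0 : T (k + 1)) = pr 0 0 := rfl
lemma pr_neg {k : ℕ} (x y : T k) : - pr x y = pr (-x) (-y) := rfl
lemma pr_sub {k : ℕ} (x y x' y' : T k) : pr x y - pr x' y' = pr (x - x') (y - y') := rfl
lemma pr_smul {k : ℕ} (c : ℤ) (x y : T k) : c • pr x y = pr (c • x) (c • y) := rfl

lemma pr_sum {k : ℕ} (s : Finset ℕ) (f g : ℕ → T k) :
    ∑ i ∈ s, pr (f i) (g i) = pr (∑ i ∈ s, f i) (∑ i ∈ s, g i) := by
  classical
  induction s using Finset.induction_on with
  | empty => simp [pr_zero]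
  | insert a s ha ih => rw [Finset.sum_insert ha, Finset.sum_insert ha, Finset.sum_insert ha, ih,
      pr_add]

/-- Left multiplication by the vector `∑ v j e_j`. -/
def mv : (k : ℕ) → (ℕ → ℤ) → T k → T k
  | 0, _, _ => 0
  | k + 1, v, x => pr (mv k v (p1 x)) (v k • p1 x - mv k v (p2 x))

/-- Left multiplication by the two-form `∑_{b<c} s b c e_b e_c`. -/
def mw : (k : ℕ) → (ℕ → ℕ → ℤ) → T k → T k
  | 0, _, _ => 0
  | k + 1, s, x => pr (mw k s (p1 x)) (mv k (s k) (p1 x) + mw k s (p2 x))

/-- The unit. -/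
def one : (k : ℕ) → T k
  | 0 => (1 : ℤ)
  | k + 1 => pr (one k) 0

/-- The top coefficient. -/
def top : (k : ℕ) → T k → ℤ
  | 0, x => x
  | k + 1, x => top k (p2 x)

lemma mv_succ (k : ℕ) (v : ℕ → ℤ) (x y : T k) :
    mv (k + 1) v (pr x y) = pr (mv k v x) (v k • x - mv k v y) := rfl

lemma mw_succ (k : ℕ) (s : ℕ → ℕ → ℤ) (x y : T k) :
    mw (k + 1) s (pr x y) = pr (mw k s x) (mv k (s k) x + mw k s y) := rfl

lemma top_add (k : ℕ) : ∀ x y : T k, top k (x + y) = top k x + top k y := by
  induction k with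
  | zero => intro x y; rfl
  | succ k ih => intro x y; exact ih (p2 x) (p2 y)

lemma top_smul (k : ℕ) : ∀ (c : ℤ) (x : T k), top k (c • x) = c * top k x := by
  induction k with
  | zero => intro c x; rfl
  | succ k ih => intro c x; exact ih c (p2 x)

lemma mv_add (k : ℕ) : ∀ (v : ℕ → ℤ) (x y : T k), mv k v (x + y) = mv k v x + mv k v y := by
  induction k with
  | zero => intro v x y; exact (add_zero (0 : T 0)).symm
  | succ k ih =>
    intro v x y
    rw [← pr_eta x, ← pr_eta y, pr_add, mv_succ, mv_succ, mv_succ, pr_add, ih, ih, smul_add]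
    congr 1
    abel

lemma mv_zsmul (k : ℕ) : ∀ (v : ℕ → ℤ) (c : ℤ) (x : T k), mv k v (c • x) = c • mv k v x := by
  induction k with
  | zero => intro v c x; exact (smul_zero c).symm
  | succ k ih =>
    intro v c x
    rw [← pr_eta x, pr_smul, mv_succ, mv_succ, pr_smul, ih, ih, smul_sub, smul_comm]

lemma mv_add_left (k : ℕ) : ∀ (v w : ℕ → ℤ) (x : T k), mv k (v + w) x = mv k v x + mv k w x := by
  induction k with
  | zero => intro v w x; exact (add_zero (0 : T 0)).symm
  | succ k ih =>
    intro v w x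
    rw [← pr_eta x, mv_succ, mv_succ, mv_succ, pr_add, ih, ih, Pi.add_apply, add_smul]
    congr 1
    abel

lemma mv_smul_left (k : ℕ) : ∀ (v : ℕ → ℤ) (c : ℤ) (x : T k),
    mv k (c • v) x = c • mv k v x := by
  induction k with
  | zero => intro v c x; exact (smul_zero c).symm
  | succ k ih =>
    intro v c x
    rw [← pr_eta x, mv_succ, mv_succ, pr_smul, ih, ih, smul_sub, Pi.smul_apply, smul_eq_mul,
      mul_smul]

lemma mv_neg (k : ℕ) (v : ℕ → ℤ) (x : T k) : mv k v (-x) = -mv k v x := by
  have := mv_zsmul k v (-1) x; simpa using this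

lemma mv_zero (k : ℕ) (v : ℕ → ℤ) : mv k v 0 = 0 := by
  have := mv_zsmul k v 0 0; simpa using this

lemma mv_sq (k : ℕ) : ∀ (v : ℕ → ℤ) (x : T k), mv k v (mv k v x) = 0 := by
  induction k with
  | zero => intro v x; rfl
  | succ k ih =>
    intro v x
    rw [← pr_eta x, mv_succ, mv_succ, pr_zero, ih, sub_eq_add_neg, sub_eq_add_neg, mv_add,
      mv_zsmul, mv_neg, ih, neg_zero, add_zero, add_neg_cancel]

lemma mv_congr (k : ℕ) : ∀ (v w : ℕ → ℤ) (_ : ∀ j < k, v j = w j) (x : T k),
    mv k v x = mv k w x := by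
  induction k with
  | zero => intro v w _ x; rfl
  | succ k ih =>
    intro v w h x
    rw [← pr_eta x, mv_succ, mv_succ, ih v w (fun j hj => h j (by omega)) (p1 x),
      ih v w (fun j hj => h j (by omega)) (p2 x), h k (by omega)]

lemma mv_zero_left (k : ℕ) (v : ℕ → ℤ) (h : ∀ j < k, v j = 0) (x : T k) : mv k v x = 0 := by
  rw [mv_congr k v ((0 : ℤ) • (0 : ℕ → ℤ)) (by simpa using h) x, mv_smul_left, zero_smul]

lemma mw_congr (k : ℕ) : ∀ (s t : ℕ → ℕ → ℤ) (_ : ∀ i < k, ∀ j < i, s i j = t i j) (x : T k),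
    mw k s x = mw k t x := by
  induction k with
  | zero => intro s t _ x; rfl
  | succ k ih =>
    intro s t h x
    rw [← pr_eta x, mw_succ, mw_succ, ih s t (fun i hi => h i (by omega)) (p1 x),
      ih s t (fun i hi => h i (by omega)) (p2 x), mv_congr k (s k) (t k) (h k (by omega))]

/-- Kronecker delta. -/
def dl (b : ℕ) : ℕ → ℤ := fun j => if j = b then 1 else 0

lemma mv_eq_sum (k : ℕ) (v : ℕ → ℤ) (x : T k) :
    mv k v x = ∑ b ∈ range k, v b • mv k (dl b) x := by
  have h : ∀ m, mv k (fun j => if j < m then v j else 0) x =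
      ∑ b ∈ range m, v b • mv k (dl b) x := by
    intro m
    induction m with
    | zero => simpa using mv_zero_left k _ (by simp) x
    | succ m ih =>
      rw [Finset.sum_range_succ, ← ih, ← mv_smul_left, ← mv_add_left]
      refine mv_congr k _ _ (fun j _ => ?_) x
      simp only [Pi.add_apply, Pi.smul_apply, dl, smul_eq_mul]
      by_cases h1 : j < m
      · have : j ≠ m := by omega
        simp [h1, this, Nat.lt_succ_of_lt h1]
      · by_cases h2 : j = m
        · subst h2; simp
        · have : ¬ j < m + 1 := by omega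
          simp [h1, h2, this]
  rw [← h k]
  exact mv_congr k _ _ (fun j hj => by simp [hj]) x

lemma two_mw (k : ℕ) : ∀ (s : ℕ → ℕ → ℤ) (_ : ∀ a b, s b a = - s a b) (x : T k),
    ∑ b ∈ range k, ∑ c ∈ range k, s b c • mv k (dl b) (mv k (dl c) x) = (2 : ℤ) • mw k s x := by
  induction k with
  | zero => intro s _ x; exact (smul_zero _).symm
  | succ k ih =>
    intro s hs x
    rw [← pr_eta x]
    set y := p1 x
    set z := p2 x
    have hkk : s k k = 0 := by have := hs k k; omega
    have hd : ∀ z : T k, mv k (dl k) z = 0 := fun z =>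
      mv_zero_left k _ (fun j hj => by simp [dl, Nat.ne_of_lt hj]) z
    have hdk : dl k k = 1 := by simp [dl]
    have hdb : ∀ b ∈ range k, dl b k = 0 := fun b hb => by
      simp [dl, (Nat.ne_of_lt (Finset.mem_range.1 hb)).symm]
    rw [Finset.sum_range_succ]
    -- b < k
    have h1 : ∀ b ∈ range k, ∑ c ∈ range (k + 1), s b c • mv (k + 1) (dl b)
        (mv (k + 1) (dl c) (pr y z)) =
        pr (∑ c ∈ range k, s b c • mv k (dl b) (mv k (dl c) y))
          (∑ c ∈ range k, s b c • mv k (dl b) (mv k (dl c) z) + s k b • mv k (dl b) y) := by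
      intro b hb
      rw [Finset.sum_range_succ]
      have h2 : ∀ c ∈ range k, s b c • mv (k + 1) (dl b) (mv (k + 1) (dl c) (pr y z)) =
            pr (s b c • mv k (dl b) (mv k (dl c) y)) (s b c • mv k (dl b) (mv k (dl c) z)) := by
        intro c hc
        rw [mv_succ, mv_succ, hdb b hb, hdb c hc, zero_smul, zero_smul, zero_sub, zero_sub,
          mv_neg, neg_neg, pr_smul]
      rw [Finset.sum_congr rfl h2, pr_sum, mv_succ, mv_succ, hd, hd, hdk, one_smul, sub_zero,
        hdb b hb, zero_smul, zero_sub, mv_zero, pr_smul, smul_zero, hs k b, pr_add, add_zero]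
      congr 1
      simp
    -- b = k
    have h3 : ∑ c ∈ range (k + 1), s k c • mv (k + 1) (dl k) (mv (k + 1) (dl c) (pr y z)) =
        pr 0 (∑ c ∈ range k, s k c • mv k (dl c) y) := by
      rw [Finset.sum_range_succ, hkk, zero_smul, add_zero]
      have : ∀ c ∈ range k, s k c • mv (k + 1) (dl k) (mv (k + 1) (dl c) (pr y z)) =
            pr 0 (s k c • mv k (dl c) y) := by
        intro c hc
        rw [mv_succ, mv_succ, hdb c hc, zero_smul, zero_sub, hd, hd, hdk, one_smul,
          sub_zero, pr_smul, smul_zero]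
      rw [Finset.sum_congr rfl this, pr_sum, Finset.sum_const_zero]
    rw [Finset.sum_congr rfl h1, h3, pr_sum, Finset.sum_add_distrib, ih s hs, ih s hs,
      ← mv_eq_sum k (s k), pr_add, mw_succ, pr_smul, add_zero, smul_add, two_smul, two_smul,
      two_smul]
    congr 1
    abel

end Pool.Agent.Lib_helper74.OrTree
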